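import Pool.Agent.H314.CS.Defs
import Pool.Agent.H314.Dir.Glob

set_option autoImplicit false
open MeasureTheory Filter Topology Set Metric

namespace Pool.Agent.H314.CS

open Pool.Agent.H314.Dir

variable {d : ℕ}

/-- maximum principle on the whole space with test functions from below -/
theorem max_visc (K C : ℝ) (hK : 0 < K) (w : Eu d → ℝ)
    (hw : Continuous w) (hC : ∀ x, w x ≤ C)
    (hi : ∀ x, 0 < w x → ∃ f : Eu d → ℝ, ContDiffAt ℝ 2 f x ∧ f x = w x ∧
      (∀ᶠ y in 𝓝 x, f y ≤ w y) ∧ K * w x ≤ lap f x) :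
    ∀ x, w x ≤ 0 := by
  intro x0
  by_contra hcon
  rw [not_le] at hcon
  have key : ∀ e : ℝ, 0 < e → 0 < w x0 - e * ‖x0‖ ^ 2 → K * (w x0 - e * ‖x0‖ ^ 2) ≤ 2 * d * e := by
    intro e he hm0
    set m0 := w x0 - e * ‖x0‖ ^ 2 with hm0def
    set A := {x | m0 ≤ w x - e * ‖x‖ ^ 2} with hA
    have hx0A : x0 ∈ A := by
      show m0 ≤ w x0 - e * ‖x0‖ ^ 2
      exact le_of_eq hm0def
    have hAb : Bornology.IsBounded A := by
      refine (Metric.isBounded_iff_subset_closedBall (0 : Eu d)).2 ⟨Real.sqrt ((C - m0) / e), ?_⟩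
      intro x hx
      rw [mem_closedBall_zero_iff]
      refine Real.le_sqrt_of_sq_le ?_
      rw [le_div_iff₀ he]
      have h1 : m0 ≤ w x - e * ‖x‖ ^ 2 := hx
      have h2 := hC x
      linarith
    have hcw : Continuous (fun x : Eu d => w x - e * ‖x‖ ^ 2) := by fun_prop
    have hAc : IsClosed A := isClosed_le continuous_const hcw
    have hAcomp : IsCompact A := Metric.isCompact_of_isClosed_isBounded hAc hAb
    obtain ⟨x1, hx1A, hx1⟩ := hAcomp.exists_isMaxOn ⟨x0, hx0A⟩ hcw.continuousOn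
    have hmaxΩ : ∀ x, w x - e * ‖x‖ ^ 2 ≤ w x1 - e * ‖x1‖ ^ 2 := by
      intro x
      by_cases hxA : x ∈ A
      · exact hx1 hxA
      · have h1 : w x - e * ‖x‖ ^ 2 < m0 := not_le.1 hxA
        have h2 : m0 ≤ w x1 - e * ‖x1‖ ^ 2 := hx1A
        linarith
    have hw1 : m0 ≤ w x1 := by
      have h1 : m0 ≤ w x1 - e * ‖x1‖ ^ 2 := hx1A
      have h5 : 0 ≤ e * ‖x1‖ ^ 2 := by positivity
      linarith
    obtain ⟨f, hcd, hfx, hfw, hlap⟩ := hi x1 (by linarith)
    have hlm : IsLocalMax (fun x => f x - e * ‖x‖ ^ 2) x1 := by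
      filter_upwards [hfw] with x hx
      rw [hfx]
      have := hmaxΩ x
      linarith
    have hns : ContDiffAt ℝ 2 (fun x : Eu d => ‖x‖ ^ 2) x1 := (contDiff_norm_sq ℝ).contDiffAt
    have hns2 : ContDiffAt ℝ 2 (fun x : Eu d => e * ‖x‖ ^ 2) x1 := contDiffAt_const.mul hns
    have h6 := lap_nonpos_of_isLocalMax (hcd.sub hns2) hlm
    rw [lap_sub hcd hns2, lap_const_mul e hns, lap_norm_sq] at h6
    have h7 : K * m0 ≤ K * w x1 := mul_le_mul_of_nonneg_left hw1 hK.le
    linarith
  have h1 : 0 < w x0 / (2 * (‖x0‖ ^ 2 + 1)) := by positivity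
  have h2 : 0 < K * w x0 / (4 * (2 * d + 1)) := by positivity
  set e := min (w x0 / (2 * (‖x0‖ ^ 2 + 1))) (K * w x0 / (4 * (2 * d + 1))) with he
  have he0 : 0 < e := lt_min h1 h2
  have he1 : e ≤ w x0 / (2 * (‖x0‖ ^ 2 + 1)) := min_le_left _ _
  have he2 : e ≤ K * w x0 / (4 * (2 * d + 1)) := min_le_right _ _
  rw [le_div_iff₀ (by positivity)] at he1 he2
  have h3 : e * ‖x0‖ ^ 2 ≤ w x0 / 2 := by nlinarith
  have h4 := key e he0 (by linarith)
  have h5 : K * (w x0 / 2) ≤ K * (w x0 - e * ‖x0‖ ^ 2) := mul_le_mul_of_nonneg_left (by linarith) hK.le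
  have h6 : 0 < K * w x0 := mul_pos hK hcon
  nlinarith

theorem LocSub.lip {b : Eu d → ℝ → ℝ} {L : Eu d → ℝ} (h : ∀ x, LocSub b L x) :
    LocallyLipschitz L := by
  intro x
  obtain ⟨f, g, k, ⟨hf, -⟩, ⟨hg, -⟩, ⟨hk, -⟩, hL⟩ := h x
  obtain ⟨K1, t1, ht1, h1⟩ := (hf.of_le (by norm_num : (1 : WithTop ℕ∞) ≤ 2)).exists_lipschitzOnWith
  obtain ⟨K2, t2, ht2, h2⟩ := (hg.of_le (by norm_num : (1 : WithTop ℕ∞) ≤ 2)).exists_lipschitzOnWith
  obtain ⟨K3, t3, ht3, h3⟩ := (hk.of_le (by norm_num : (1 : WithTop ℕ∞) ≤ 2)).exists_lipschitzOnWith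
  refine ⟨max K1 (max K2 K3), t1 ∩ t2 ∩ t3 ∩ {y | L y = max (f y) (max (g y) (k y))},
    inter_mem (inter_mem (inter_mem ht1 ht2) ht3) hL, ?_⟩
  refine LipschitzOnWith.of_dist_le_mul fun y hy z hz => ?_
  obtain ⟨⟨⟨hy1, hy2⟩, hy3⟩, hy4⟩ := hy
  obtain ⟨⟨⟨hz1, hz2⟩, hz3⟩, hz4⟩ := hz
  have e1 := h1.dist_le_mul y hy1 z hz1
  have e2 := h2.dist_le_mul y hy2 z hz2
  have e3 := h3.dist_le_mul y hy3 z hz3
  have hy5 : L y = max (f y) (max (g y) (k y)) := hy4
  have hz5 : L z = max (f z) (max (g z) (k z)) := hz4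
  rw [hy5, hz5]
  rw [Real.dist_eq] at e1 e2 e3 ⊢
  set M := max K1 (max K2 K3) with hM
  have m1 : (K1 : ℝ) ≤ M := by exact_mod_cast le_max_left _ _
  have m2 : (K2 : ℝ) ≤ M := by exact_mod_cast (le_max_left _ _).trans (le_max_right _ _)
  have m3 : (K3 : ℝ) ≤ M := by exact_mod_cast (le_max_right _ _).trans (le_max_right _ _)
  have hd := dist_nonneg (x := y) (y := z)
  have f1 := abs_le.1 (e1.trans (mul_le_mul_of_nonneg_right m1 hd))
  have f2 := abs_le.1 (e2.trans (mul_le_mul_of_nonneg_right m2 hd))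
  have f3 := abs_le.1 (e3.trans (mul_le_mul_of_nonneg_right m3 hd))
  rw [abs_le]
  constructor
  · have : max (f z) (max (g z) (k z)) ≤ max (f y) (max (g y) (k y)) + M * dist y z := by
      refine max_le ?_ (max_le ?_ ?_)
      · linarith [f1.1, le_max_left (f y) (max (g y) (k y))]
      · linarith [f2.1, (le_max_left (g y) (k y)).trans (le_max_right (f y) (max (g y) (k y)))]
      · linarith [f3.1, (le_max_right (g y) (k y)).trans (le_max_right (f y) (max (g y) (k y)))]
    linarith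
  · have : max (f y) (max (g y) (k y)) ≤ max (f z) (max (g z) (k z)) + M * dist y z := by
      refine max_le ?_ (max_le ?_ ?_)
      · linarith [f1.2, le_max_left (f z) (max (g z) (k z))]
      · linarith [f2.2, (le_max_left (g z) (k z)).trans (le_max_right (f z) (max (g z) (k z)))]
      · linarith [f3.2, (le_max_right (g z) (k z)).trans (le_max_right (f z) (max (g z) (k z)))]
    linarith

theorem LocSup.lip {b : Eu d → ℝ → ℝ} {U : Eu d → ℝ} (h : ∀ x, LocSup b U x) :
    LocallyLipschitz U := by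
  intro x
  obtain ⟨f, g, ⟨hf, -⟩, ⟨hg, -⟩, hL⟩ := h x
  obtain ⟨K1, t1, ht1, h1⟩ := (hf.of_le (by norm_num : (1 : WithTop ℕ∞) ≤ 2)).exists_lipschitzOnWith
  obtain ⟨K2, t2, ht2, h2⟩ := (hg.of_le (by norm_num : (1 : WithTop ℕ∞) ≤ 2)).exists_lipschitzOnWith
  refine ⟨max K1 K2, t1 ∩ t2 ∩ {y | U y = min (f y) (g y)}, inter_mem (inter_mem ht1 ht2) hL, ?_⟩
  refine LipschitzOnWith.of_dist_le_mul fun y hy z hz => ?_
  obtain ⟨⟨hy1, hy2⟩, hy4⟩ := hy
  obtain ⟨⟨hz1, hz2⟩, hz4⟩ := hz
  have e1 := h1.dist_le_mul y hy1 z hz1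
  have e2 := h2.dist_le_mul y hy2 z hz2
  have hy5 : U y = min (f y) (g y) := hy4
  have hz5 : U z = min (f z) (g z) := hz4
  rw [hy5, hz5]
  rw [Real.dist_eq] at e1 e2 ⊢
  set M := max K1 K2 with hM
  have m1 : (K1 : ℝ) ≤ M := by exact_mod_cast le_max_left _ _
  have m2 : (K2 : ℝ) ≤ M := by exact_mod_cast le_max_right _ _
  have hd := dist_nonneg (x := y) (y := z)
  have f1 := abs_le.1 (e1.trans (mul_le_mul_of_nonneg_right m1 hd))
  have f2 := abs_le.1 (e2.trans (mul_le_mul_of_nonneg_right m2 hd))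
  rw [abs_le]
  constructor
  · have : min (f z) (g z) - M * dist y z ≤ min (f y) (g y) := by
      refine le_min ?_ ?_
      · linarith [f1.1, min_le_left (f z) (g z)]
      · linarith [f2.1, min_le_right (f z) (g z)]
    linarith
  · have : min (f y) (g y) - M * dist y z ≤ min (f z) (g z) := by
      refine le_min ?_ ?_
      · linarith [f1.2, min_le_left (f y) (g y)]
      · linarith [f2.2, min_le_right (f y) (g y)]
    linarith

theorem LocSub.touch {b : Eu d → ℝ → ℝ} {L : Eu d → ℝ} {x : Eu d} (h : LocSub b L x) :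
    ∃ f : Eu d → ℝ, SubPc b f x ∧ f x = L x ∧ ∀ᶠ y in 𝓝 x, f y ≤ L y := by
  obtain ⟨f, g, k, hf, hg, hk, hL⟩ := h
  have hx := hL.self_of_nhds
  rcases max_choice (f x) (max (g x) (k x)) with h1 | h1
  · refine ⟨f, hf, by rw [hx, h1], ?_⟩
    filter_upwards [hL] with y hy
    rw [hy]; exact le_max_left _ _
  · rcases max_choice (g x) (k x) with h2 | h2
    · refine ⟨g, hg, by rw [hx, h1, h2], ?_⟩
      filter_upwards [hL] with y hy
      rw [hy]; exact (le_max_left _ _).trans (le_max_right _ _)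
    · refine ⟨k, hk, by rw [hx, h1, h2], ?_⟩
      filter_upwards [hL] with y hy
      rw [hy]; exact (le_max_right _ _).trans (le_max_right _ _)

theorem LocSup.touch {b : Eu d → ℝ → ℝ} {U : Eu d → ℝ} {x : Eu d} (h : LocSup b U x) :
    ∃ f : Eu d → ℝ, SupPc b f x ∧ f x = U x ∧ ∀ᶠ y in 𝓝 x, U y ≤ f y := by
  obtain ⟨f, g, hf, hg, hL⟩ := h
  have hx := hL.self_of_nhds
  rcases min_choice (f x) (g x) with h1 | h1
  · refine ⟨f, hf, by rw [hx, h1], ?_⟩
    filter_upwards [hL] with y hy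
    rw [hy]; exact min_le_left _ _
  · refine ⟨g, hg, by rw [hx, h1], ?_⟩
    filter_upwards [hL] with y hy
    rw [hy]; exact min_le_right _ _

/-- existence between barriers on the whole space -/
theorem barrier_exists (b : Eu d → ℝ → ℝ)
    (hb : LocallyLipschitz (fun p : Eu d × ℝ => b p.1 p.2)) (B Q K : ℝ) (hB : 0 < B) (hK : 0 < K)
    (hbd : ∀ x t, |t| ≤ B → |b x t| ≤ Q)
    (hmono : ∀ x s t, -B ≤ s → s ≤ t → t ≤ B → b x t - b x s ≤ K * (t - s))
    (L U : Eu d → ℝ) (hL : ∀ x, LocSub b L x) (hU : ∀ x, LocSup b U x)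
    (hLU : ∀ x, L x ≤ U x) (hLB : ∀ x, -B ≤ L x) (hUB : ∀ x, U x ≤ B) :
    ∃ v : Eu d → ℝ, ContDiff ℝ 2 v ∧ (∀ x, L x ≤ v x ∧ v x ≤ U x) ∧
      ∀ x, lap v x = b x (v x) := by
  have hLl := LocSub.lip hL
  have hUl := LocSup.lip hU
  have hQ0 : 0 ≤ Q := (abs_nonneg _).trans (hbd 0 0 (by simpa using hB.le))
  -- normalisation
  set A : ℝ := B + Q / K with hA
  have hA0 : 0 < A := by positivity
  have hKA : K * A = K * B + Q := by rw [hA]; field_simp
  set T : Eu d → ℝ → ℝ := fun x t => min (max t (L x)) (U x) with hT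
  have hTL : ∀ x t, L x ≤ T x t := fun x t => le_min (le_max_right _ _) (hLU x)
  have hTU : ∀ x t, T x t ≤ U x := fun x t => min_le_right _ _
  have hTB : ∀ x t, |T x t| ≤ B := fun x t =>
    abs_le.2 ⟨(hLB x).trans (hTL x t), (hTU x t).trans (hUB x)⟩
  have hTm : ∀ x, Monotone (T x) := by
    intro x s t hst
    exact min_le_min (max_le_max hst le_rfl) le_rfl
  set H : Eu d → ℝ → ℝ := fun x t => K * T x t - b x (T x t) with hH
  have hHm : ∀ x, Monotone (H x) := by
    intro x s t hst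
    have h1 := hTm x hst
    have h2 := hmono x (T x s) (T x t) (abs_le.1 (hTB x s)).1 h1 (abs_le.1 (hTB x t)).2
    simp only [hH]
    linarith
  set G : Eu d → ℝ → ℝ := fun x u => (2 * A)⁻¹ * (H x (2 * A * u - A) + K * A) with hG
  have hTlip : LocallyLipschitz (fun p : Eu d × ℝ => T p.1 p.2) := by
    have h1 : LocallyLipschitz (fun p : Eu d × ℝ => p.1) := LipschitzWith.prod_fst.locallyLipschitz
    have h2 : LocallyLipschitz (fun p : Eu d × ℝ => p.2) := LipschitzWith.prod_snd.locallyLipschitz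
    exact (h2.max (hLl.comp h1)).min (hUl.comp h1)
  have hHlip : LocallyLipschitz (fun p : Eu d × ℝ => H p.1 p.2) := by
    have h1 : LocallyLipschitz (fun p : Eu d × ℝ => p.1) := LipschitzWith.prod_fst.locallyLipschitz
    have h2 : LocallyLipschitz (fun p : Eu d × ℝ => b p.1 (T p.1 p.2)) :=
      hb.comp (h1.prodMk hTlip)
    have h3 : LocallyLipschitz (fun t : ℝ => K * t) :=
      (ContDiff.locallyLipschitz (𝕂 := ℝ) (by fun_prop : ContDiff ℝ 1 (fun t : ℝ => K * t)))
    exact (h3.comp hTlip).sub h2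
  have hGlip : LocallyLipschitz (fun p : Eu d × ℝ => G p.1 p.2) := by
    have h1 : LocallyLipschitz (fun p : Eu d × ℝ => (p.1, 2 * A * p.2 - A)) := by
      have h11 : LocallyLipschitz (fun p : Eu d × ℝ => p.1) := LipschitzWith.prod_fst.locallyLipschitz
      have h12 : LocallyLipschitz (fun p : Eu d × ℝ => 2 * A * p.2 - A) :=
        (ContDiff.locallyLipschitz (𝕂 := ℝ) (by fun_prop :
          ContDiff ℝ 1 (fun p : Eu d × ℝ => 2 * A * p.2 - A)))
      exact h11.prodMk h12
    have h3 : LocallyLipschitz (fun t : ℝ => (2 * A)⁻¹ * (t + K * A)) :=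
      (ContDiff.locallyLipschitz (𝕂 := ℝ) (by fun_prop :
        ContDiff ℝ 1 (fun t : ℝ => (2 * A)⁻¹ * (t + K * A))))
    exact h3.comp (hHlip.comp h1)
  have hHb : ∀ x t, |H x t| ≤ K * A := by
    intro x t
    have h1 := abs_le.1 (hTB x t)
    have h2 := abs_le.1 (hbd x (T x t) (hTB x t))
    rw [hKA]
    simp only [hH]
    rw [abs_le]
    constructor <;> nlinarith
  have hG01 : ∀ x t, 0 ≤ G x t ∧ G x t ≤ K := by
    intro x t
    have h1 := abs_le.1 (hHb x (2 * A * t - A))
    simp only [hG]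
    constructor
    · exact mul_nonneg (by positivity) (by linarith)
    · rw [inv_mul_le_iff₀ (by positivity)]
      linarith
  obtain ⟨u, hu, hu01, hueq, -⟩ := glob_exists K hK G hGlip
    (fun x s t hst => mul_le_mul_of_nonneg_left (by
      have := hHm x (show 2 * A * s - A ≤ 2 * A * t - A by nlinarith)
      linarith) (by positivity))
    (fun x t _ => (hG01 x t).1) (fun x t _ => (hG01 x t).2)
  set v : Eu d → ℝ := fun x => 2 * A * u x - A with hv
  have hvc : ContDiff ℝ 2 v := (contDiff_const.mul hu).sub contDiff_const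
  have hvb : ∀ x, |v x| ≤ A := by
    intro x
    have := hu01 x
    rw [abs_le]
    simp only [hv]
    constructor <;> nlinarith [this.1, this.2]
  have hlapv : ∀ x, K * v x - lap v x = H x (v x) := by
    intro x
    have h1 : lap v x = 2 * A * lap u x := by
      have h2 : ContDiffAt ℝ 2 (fun y => 2 * A * u y) x := contDiffAt_const.mul hu.contDiffAt
      have h3 : lap v x = lap (fun y => 2 * A * u y) x - lap (fun _ => A) x :=
        lap_sub h2 contDiffAt_const
      rw [h3, lap_const_mul _ hu.contDiffAt, lap_const, sub_zero]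
    have h4 := hueq x
    simp only [hG] at h4
    have h5 : 2 * A * (K * u x - lap u x) = H x (2 * A * u x - A) + K * A := by
      rw [h4]; field_simp
    simp only [hv] at h1 ⊢
    rw [h1]
    linarith
  have hLv : ∀ x, L x ≤ v x := by
    have := max_visc (d := d) K (B + A) hK (fun x => L x - v x)
      (hLl.continuous.sub hvc.continuous) (fun x => by
        have h1 := (hLU x).trans (hUB x)
        have h2 := (abs_le.1 (hvb x)).1
        linarith) ?_
    · intro x
      have := this x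
      linarith
    · intro x hx
      obtain ⟨f, ⟨hf1, hf2⟩, hf3, hf4⟩ := (hL x).touch
      refine ⟨fun y => f y - v y, hf1.sub hvc.contDiffAt, by simp only [hf3], ?_, ?_⟩
      · filter_upwards [hf4] with y hy
        linarith
      · rw [lap_sub hf1 hvc.contDiffAt]
        have h1 := hlapv x
        have h2 : T x (v x) = L x := by
          simp only [hT]
          rw [max_eq_right (by linarith), min_eq_left (hLU x)]
        simp only [hH, h2] at h1
        rw [hf3] at hf2
        linarith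
  have hvU : ∀ x, v x ≤ U x := by
    have := max_visc (d := d) K (A + B) hK (fun x => v x - U x)
      (hvc.continuous.sub hUl.continuous) (fun x => by
        have h1 := (hLB x).trans (hLU x)
        have h2 := (abs_le.1 (hvb x)).2
        linarith) ?_
    · intro x
      have := this x
      linarith
    · intro x hx
      obtain ⟨f, ⟨hf1, hf2⟩, hf3, hf4⟩ := (hU x).touch
      refine ⟨fun y => v y - f y, hvc.contDiffAt.sub hf1, by simp only [hf3], ?_, ?_⟩
      · filter_upwards [hf4] with y hy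
        linarith
      · rw [lap_sub hvc.contDiffAt hf1]
        have h1 := hlapv x
        have h2 : T x (v x) = U x := by
          simp only [hT]
          rw [min_eq_right]
          exact (by linarith : U x ≤ v x).trans (le_max_left _ _)
        simp only [hH, h2] at h1
        rw [hf3] at hf2
        linarith
  refine ⟨v, hvc, fun x => ⟨hLv x, hvU x⟩, fun x => ?_⟩
  have h1 := hlapv x
  have h2 : T x (v x) = v x := by
    simp only [hT]
    rw [max_eq_left (hLv x), min_eq_left (hvU x)]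
  simp only [hH, h2] at h1
  linarith

end Pool.Agent.H314.CS
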