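import Pool.Agent.H314.CS.Defs

set_option autoImplicit false
open Filter Topology Set Metric

namespace Pool.Agent.H314.CS

open Pool.Agent.H314.Dir

theorem rk_eq (k : Fin 101) (x : Eu 2) : rk k x = Complex.normSq (cz x - pc k) := by
  unfold rk cz
  rw [EuclideanSpace.real_norm_sq_eq, Fin.sum_univ_two, Complex.normSq_apply]
  simp only [PiLp.sub_apply, Complex.sub_re, Complex.sub_im]
  have h0 : (pt k) 0 = (pc k).re := rfl
  have h1 : (pt k) 1 = (pc k).im := rfl
  rw [h0, h1]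
  ring

theorem pc_zero : pc 0 = 0 := rfl

theorem pc_succ (k : Fin 100) : pc k.succ =
    Complex.exp (((2 * Real.pi * (k : ℕ) / 100 : ℝ) : ℂ) * Complex.I) := by
  unfold pc
  rw [Fin.cons_succ]
  congr 1
  push_cast
  ring

theorem pc_succ_pow (k : Fin 100) : pc k.succ =
    Complex.exp (2 * Real.pi * Complex.I / (100 : ℕ)) ^ (k : ℕ) := by
  unfold pc
  rw [Fin.cons_succ, ← Complex.exp_nat_mul]
  congr 1
  push_cast
  ring

theorem norm_pc_succ (k : Fin 100) : ‖pc k.succ‖ = 1 := by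
  rw [pc_succ, Complex.norm_exp_ofReal_mul_I]

theorem sin_lower (m : ℕ) (h1 : 1 ≤ m) (h2 : m ≤ 99) :
    (314 / 10000 : ℝ) ≤ Real.sin (Real.pi * m / 100) := by
  have hpi := Real.pi_gt_d6
  have hpi2 := Real.pi_lt_d6
  have hbase : (314 / 10000 : ℝ) ≤ Real.sin (Real.pi / 100) := by
    have h3 := Real.sin_gt_sub_cube (x := Real.pi / 100) (by positivity)
    have h4 : (Real.pi / 100) ^ 3 ≤ (4 / 100) ^ 3 := by
      apply pow_le_pow_left₀ (by positivity)
      linarith
    norm_num at h4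
    linarith
  have hmono : ∀ k : ℕ, 1 ≤ k → k ≤ 50 → (314 / 10000 : ℝ) ≤ Real.sin (Real.pi * k / 100) := by
    intro k hk1 hk2
    refine hbase.trans ?_
    have hk1' : (1 : ℝ) ≤ k := by exact_mod_cast hk1
    have hk2' : (k : ℝ) ≤ 50 := by exact_mod_cast hk2
    apply Real.sin_le_sin_of_le_of_le_pi_div_two
    · have := Real.pi_pos
      linarith
    · nlinarith [Real.pi_pos]
    · nlinarith [Real.pi_pos]
  rcases le_or_gt m 50 with h | h
  · exact hmono m h1 h
  · have h3 := hmono (100 - m) (by omega) (by omega)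
    rw [Nat.cast_sub (by omega)] at h3
    rw [← Real.sin_pi_sub]
    convert h3 using 2
    push_cast
    ring

theorem dist_exp (a b : ℕ) (hab : b < a) (ha : a < 100) :
    (628 / 10000 : ℝ) ^ 2 ≤ Complex.normSq
      (Complex.exp (((2 * Real.pi * a / 100 : ℝ) : ℂ) * Complex.I) -
       Complex.exp (((2 * Real.pi * b / 100 : ℝ) : ℂ) * Complex.I)) := by
  rw [Complex.exp_mul_I, Complex.exp_mul_I, Complex.normSq_apply]
  rw [← Complex.ofReal_cos, ← Complex.ofReal_sin, ← Complex.ofReal_cos, ← Complex.ofReal_sin]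
  simp only [Complex.sub_re, Complex.sub_im, Complex.add_re, Complex.add_im, Complex.ofReal_re,
    Complex.ofReal_im, Complex.mul_re, Complex.mul_im, Complex.I_re, Complex.I_im, mul_zero,
    mul_one, sub_zero, add_zero, zero_add]
  rw [Real.cos_sub_cos, Real.sin_sub_sin]
  have h1 : (2 * Real.pi * (a : ℝ) / 100 - 2 * Real.pi * (b : ℝ) / 100) / 2 =
      Real.pi * ((a - b : ℕ) : ℝ) / 100 := by
    rw [Nat.cast_sub hab.le]
    ring
  rw [h1]
  have h2 := sin_lower (a - b) (by omega) (by omega)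
  set s := Real.sin (Real.pi * ((a - b : ℕ) : ℝ) / 100)
  set X := (2 * Real.pi * (a : ℝ) / 100 + 2 * Real.pi * (b : ℝ) / 100) / 2
  have h3 := Real.sin_sq_add_cos_sq X
  have h4 : -2 * Real.sin X * s * (-2 * Real.sin X * s) + 2 * s * Real.cos X * (2 * s * Real.cos X)
      = 4 * s ^ 2 := by
    calc _ = 4 * s ^ 2 * (Real.sin X ^ 2 + Real.cos X ^ 2) := by ring
      _ = 4 * s ^ 2 := by rw [h3, mul_one]
  rw [h4]
  nlinarith

/-- mutual distances of the 101 points -/
theorem dist_pc {j k : Fin 101} (h : j ≠ k) : (628 / 10000 : ℝ) ^ 2 ≤ Complex.normSq (pc j - pc k) := by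
  induction j using Fin.cases with
  | zero =>
    induction k using Fin.cases with
    | zero => exact absurd rfl h
    | succ k =>
      rw [pc_zero, zero_sub, Complex.normSq_neg, Complex.normSq_eq_norm_sq, norm_pc_succ]
      norm_num
  | succ j =>
    induction k using Fin.cases with
    | zero =>
      rw [pc_zero, sub_zero, Complex.normSq_eq_norm_sq, norm_pc_succ]
      norm_num
    | succ k =>
      rw [pc_succ, pc_succ]
      have hne : (j : ℕ) ≠ (k : ℕ) := by
        intro h2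
        apply h
        rw [Fin.ext h2]
      rcases lt_or_gt_of_ne hne with h2 | h2
      · rw [← Complex.normSq_neg, neg_sub]
        exact dist_exp k j h2 k.2
      · exact dist_exp j k h2 j.2

theorem pt_injective : Function.Injective pt := by
  intro j k hjk
  by_contra hne
  have h1 := dist_pc hne
  have h2 : pc j = pc k := by
    apply Complex.ext
    · have : (pt j) 0 = (pt k) 0 := by rw [hjk]
      exact this
    · have : (pt j) 1 = (pt k) 1 := by rw [hjk]
      exact this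
  rw [h2, sub_self, Complex.normSq_zero] at h1
  norm_num at h1

/-- a point is far from all the points except the nearest one -/
theorem far {j k : Fin 101} (h : j ≠ k) (x : Eu 2) (hle : rk j x ≤ rk k x) :
    (98596 : ℝ) / 10 ^ 8 ≤ rk k x := by
  rw [rk_eq, rk_eq, Complex.normSq_eq_norm_sq, Complex.normSq_eq_norm_sq] at hle
  rw [rk_eq, Complex.normSq_eq_norm_sq]
  have h1 := dist_pc h
  rw [Complex.normSq_eq_norm_sq] at h1
  have h2 : ‖cz x - pc j‖ ≤ ‖cz x - pc k‖ := by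
    exact (sq_le_sq₀ (norm_nonneg _) (norm_nonneg _)).1 hle
  have h3 : ‖pc j - pc k‖ ≤ 2 * ‖cz x - pc k‖ := by
    calc ‖pc j - pc k‖ = ‖(cz x - pc k) - (cz x - pc j)‖ := by congr 1; ring
      _ ≤ ‖cz x - pc k‖ + ‖cz x - pc j‖ := norm_sub_le _ _
      _ ≤ _ := by linarith
  have h4 : ‖pc j - pc k‖ ^ 2 ≤ (2 * ‖cz x - pc k‖) ^ 2 := by
    apply pow_le_pow_left₀ (norm_nonneg _) h3
  nlinarith

theorem prod_roots (z : ℂ) : ∏ k : Fin 100, (z - pc k.succ) = z ^ 100 - 1 := by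
  have hζ : IsPrimitiveRoot (Complex.exp (2 * Real.pi * Complex.I / (100 : ℕ))) 100 :=
    Complex.isPrimitiveRoot_exp 100 (by norm_num)
  have h1 := X_pow_sub_C_eq_prod hζ (by norm_num : 0 < 100) (one_pow 100)
  have h2 := congrArg (Polynomial.eval z) h1
  rw [Polynomial.eval_prod] at h2
  simp only [Polynomial.eval_sub, Polynomial.eval_pow, Polynomial.eval_X,
    Polynomial.eval_C, mul_one] at h2
  rw [h2, ← Fin.prod_univ_eq_prod_range
    (fun k => z - Complex.exp (2 * Real.pi * Complex.I / (100 : ℕ)) ^ k) 100]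
  apply Finset.prod_congr rfl
  intro k _
  rw [pc_succ_pow]

theorem prod_rk (x : Eu 2) : ∏ k, rk k x = rk 0 x * Pn x := by
  rw [Fin.prod_univ_succ]
  congr 1
  unfold Pn
  rw [← prod_roots, map_prod]
  apply Finset.prod_congr rfl
  intro k _
  rw [rk_eq]

theorem rk0_eq (x : Eu 2) : rk 0 x = ‖cz x‖ ^ 2 := by
  rw [rk_eq, pc_zero, sub_zero, Complex.normSq_eq_norm_sq]

theorem rk0_pow (x : Eu 2) : (rk 0 x) ^ 50 = ‖(cz x) ^ 100‖ := by
  rw [rk0_eq, ← pow_mul, norm_pow]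

theorem Pn_eq (x : Eu 2) : Pn x = ‖(cz x) ^ 100 - 1‖ ^ 2 := by
  unfold Pn
  rw [Complex.normSq_eq_norm_sq]

theorem Pn_up (x : Eu 2) : ‖(cz x) ^ 100 - 1‖ ≤ (rk 0 x) ^ 50 + 1 := by
  rw [rk0_pow]
  have := norm_sub_le ((cz x) ^ 100) 1
  rwa [norm_one] at this

theorem Pn_low (x : Eu 2) : (rk 0 x) ^ 50 - 1 ≤ ‖(cz x) ^ 100 - 1‖ := by
  rw [rk0_pow]
  have := norm_sub_norm_le ((cz x) ^ 100) 1
  rwa [norm_one] at this

theorem Pn_le (x : Eu 2) : Pn x ≤ ((rk 0 x) ^ 50 + 1) ^ 2 := by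
  rw [Pn_eq]
  exact pow_le_pow_left₀ (norm_nonneg _) (Pn_up x) 2

theorem le_Pn {x : Eu 2} (hx : 1 ≤ rk 0 x) : ((rk 0 x) ^ 50 - 1) ^ 2 ≤ Pn x := by
  rw [Pn_eq]
  have h1 : 1 ≤ (rk 0 x) ^ 50 := one_le_pow₀ hx
  exact pow_le_pow_left₀ (by linarith) (Pn_low x) 2

theorem rk0_lt {x : Eu 2} (hx : Pn x < 25) : (rk 0 x) ^ 50 < 6 := by
  rw [Pn_eq] at hx
  have h1 := Pn_low x
  have h2 : ‖(cz x) ^ 100 - 1‖ < 5 := by
    by_contra h
    push Not at h
    nlinarith
  linarith

theorem rk0_ge {x : Eu 2} (hx : Pn x = 25) : 4 ≤ (rk 0 x) ^ 50 := by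
  rw [Pn_eq] at hx
  have h1 := Pn_up x
  have h2 : ‖(cz x) ^ 100 - 1‖ = 5 := by
    have h3 := norm_nonneg ((cz x) ^ 100 - 1)
    nlinarith
  linarith

end Pool.Agent.H314.CS
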