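import Pool.Agent.H314.CS.Rad

set_option autoImplicit false
open Filter Topology Set Metric

namespace Pool.Agent.H314.CS

open Pool.Agent.H314.Dir

theorem contDiff_bf {n : WithTop ℕ∞} : ContDiff ℝ n (fun p : Eu 2 × ℝ => bf p.1 p.2) := by
  have h1 : ContDiff ℝ n (fun p : Eu 2 × ℝ => Ef p.1) := contDiff_Ef.comp contDiff_fst
  have h2 : ContDiff ℝ n (fun p : Eu 2 × ℝ => qf p.1) := contDiff_qf.comp contDiff_fst
  have h3 : ContDiff ℝ n (fun p : Eu 2 × ℝ => Real.exp (-p.2)) :=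
    Real.contDiff_exp.comp (contDiff_snd.neg)
  unfold bf
  exact (contDiff_const.mul (((h1.pow 99).mul h3).sub (((h1.pow 99).mul h3).pow 2))).sub h2

theorem Epow_mem (x : Eu 2) : 0 ≤ (Ef x) ^ 99 ∧ (Ef x) ^ 99 ≤ 1 :=
  ⟨pow_nonneg (Ef_nonneg x) _, pow_le_one₀ (Ef_nonneg x) (Ef_lt_one x).le⟩

theorem bf_bound (B : ℝ) : ∀ (x : Eu 2) (t : ℝ), |t| ≤ B →
    |bf x t| ≤ 10 ^ 8 * (Real.exp B + (Real.exp B) ^ 2) + 101 * 396 / mu := by
  intro x t ht
  obtain ⟨h1, h2⟩ := Epow_mem x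
  obtain ⟨h3, h4⟩ := qf_bound x
  have h5 : Real.exp (-t) ≤ Real.exp B := Real.exp_le_exp.2 (by linarith [(abs_le.1 ht).1])
  have h6 := Real.exp_pos (-t)
  set w := (Ef x) ^ 99 * Real.exp (-t) with hw
  have hw0 : 0 ≤ w := mul_nonneg h1 h6.le
  have hw1 : w ≤ Real.exp B := by
    calc w ≤ 1 * Real.exp (-t) := mul_le_mul_of_nonneg_right h2 h6.le
      _ ≤ Real.exp B := by linarith
  have hw2 : w ^ 2 ≤ (Real.exp B) ^ 2 := pow_le_pow_left₀ hw0 hw1 2
  unfold bf
  rw [← hw, abs_le]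
  constructor <;> nlinarith [sq_nonneg w]

theorem bf_mono (B : ℝ) : ∀ (x : Eu 2) (s t : ℝ), -B ≤ s → s ≤ t → t ≤ B →
    bf x t - bf x s ≤ (2 * 10 ^ 8 * (Real.exp B) ^ 2) * (t - s) := by
  intro x s t hs hst ht
  obtain ⟨h1, h2⟩ := Epow_mem x
  have h5 : Real.exp (-s) ≤ Real.exp B := Real.exp_le_exp.2 (by linarith)
  have h5' : Real.exp (-t) ≤ Real.exp (-s) := Real.exp_le_exp.2 (by linarith)
  have h6 := Real.exp_pos (-t)
  have h7 := Real.exp_pos (-s)
  set e := (Ef x) ^ 99 with he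
  have hws1 : e * Real.exp (-s) ≤ Real.exp B := by
    calc e * Real.exp (-s) ≤ 1 * Real.exp (-s) := mul_le_mul_of_nonneg_right h2 h7.le
      _ ≤ Real.exp B := by linarith
  have hwts : e * Real.exp (-t) ≤ e * Real.exp (-s) := mul_le_mul_of_nonneg_left h5' h1
  have hwt0 : 0 ≤ e * Real.exp (-t) := mul_nonneg h1 h6.le
  have hdiff : e * Real.exp (-s) - e * Real.exp (-t) ≤ Real.exp B * (t - s) := by
    have e1 : Real.exp (-t) = Real.exp (-s) * Real.exp (-(t - s)) := by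
      rw [← Real.exp_add]; congr 1; ring
    have e2 : 1 - (t - s) ≤ Real.exp (-(t - s)) := by
      have := Real.add_one_le_exp (-(t - s)); linarith
    have e3 : e * Real.exp (-s) - e * Real.exp (-t) =
        e * Real.exp (-s) * (1 - Real.exp (-(t - s))) := by linear_combination (-e) * e1
    rw [e3]
    calc e * Real.exp (-s) * (1 - Real.exp (-(t - s))) ≤ e * Real.exp (-s) * (t - s) :=
          mul_le_mul_of_nonneg_left (by linarith) (mul_nonneg h1 h7.le)
      _ ≤ Real.exp B * (t - s) := mul_le_mul_of_nonneg_right hws1 (by linarith)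
  unfold bf
  rw [← he]
  set p := e * Real.exp (-s)
  set r := e * Real.exp (-t)
  have h8 : (10 : ℝ) ^ 8 * (r - r ^ 2) - qf x - (10 ^ 8 * (p - p ^ 2) - qf x) =
      10 ^ 8 * ((p - r) * (p + r - 1)) := by ring
  rw [h8]
  have hB0 := Real.exp_pos B
  have h9 : (p - r) * (p + r - 1) ≤ (Real.exp B * (t - s)) * (2 * Real.exp B) := by
    have ha : 0 ≤ p - r := by linarith
    have hb : p + r - 1 ≤ 2 * Real.exp B := by linarith
    calc (p - r) * (p + r - 1) ≤ (p - r) * (2 * Real.exp B) := mul_le_mul_of_nonneg_left hb ha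
      _ ≤ (Real.exp B * (t - s)) * (2 * Real.exp B) :=
          mul_le_mul_of_nonneg_right hdiff (by positivity)
  nlinarith

end Pool.Agent.H314.CS
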