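import Pool.Agent.H314.CS.Geo
import Pool.Agent.H314.CS.Nonl

set_option autoImplicit false
open Filter Topology Set Metric

namespace Pool.Agent.H314.CS

open Pool.Agent.H314.Dir

theorem Ef_pos_far {x : Eu 2} (hx : b1 ≤ rk 0 x) : 0 < Ef x := by
  have hb : (1 : ℝ) < b1 := by unfold b1; norm_num
  have h1 : 1 < rk 0 x := hb.trans_le hx
  have h2 : 1 < (rk 0 x) ^ 50 := one_lt_pow₀ h1 (by norm_num)
  have h3 : 0 < Pn x := lt_of_lt_of_le (by have : 0 < (rk 0 x) ^ 50 - 1 := by linarith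
                                           positivity) (le_Pn h1.le)
  have h4 : ∏ k, rk k x ≠ 0 := by
    rw [prod_rk]
    exact (mul_pos (by linarith) h3).ne'
  rw [Ef_pos_iff]
  intro k
  exact lt_of_le_of_ne (rk_nonneg k x) (Ne.symm (Finset.prod_ne_zero_iff.1 h4 k (Finset.mem_univ k)))

theorem inB_eq {x : Eu 2} (hx : 0 < Ef x) :
    inB x = 99 * Real.log (Ef x) + (CB - 99 * (Real.log (rk 0 x) + Real.log (Pn x))) := by
  have hk := (Ef_pos_iff x).1 hx
  have h1 : Real.log (rk 0 x) + Real.log (Pn x) = ∑ k, Real.log (rk k x) := by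
    have h2 : ∏ k, rk k x ≠ 0 := (Finset.prod_pos fun k _ => hk k).ne'
    have h3 : rk 0 x * Pn x ≠ 0 := by rw [← prod_rk]; exact h2
    rw [← Real.log_mul (left_ne_zero_of_mul h3) (right_ne_zero_of_mul h3), ← prod_rk,
      Real.log_prod fun k _ => (hk k).ne']
  rw [h1, log_Ef hx, Finset.sum_sub_distrib]
  unfold inB
  ring

theorem inB_sup {x : Eu 2} (hx : rk 0 x ≤ b2) : SupPc bf inB x := by
  have hC : ContDiff ℝ 2 inB := by
    unfold inB
    exact contDiff_const.sub (contDiff_const.mul (ContDiff.sum fun k _ => contDiff_logmu k))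
  refine ⟨hC.contDiffAt, ?_⟩
  have hl : lap inB x = - qf x := by
    have hd : ∀ k ∈ (Finset.univ : Finset (Fin 101)),
        ContDiffAt ℝ 2 (fun y : Eu 2 => Real.log (rk k y + mu)) x :=
      fun k _ => (contDiff_logmu k).contDiffAt
    have h1 : inB = fun y : Eu 2 => CB - 99 * ∑ k, Real.log (rk k y + mu) := rfl
    rw [h1, lap_sub (u := fun _ => CB) contDiffAt_const (contDiffAt_const.mul (ContDiffAt.sum hd)),
      lap_const, lap_const_mul 99 (ContDiffAt.sum hd), lap_sum _ _ _ hd]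
    unfold qf
    rw [zero_sub, Finset.mul_sum]
    congr 1
    refine Finset.sum_congr rfl fun k _ => ?_
    rw [lap_logmu]
    ring
  rw [hl]
  have hw0 : 0 ≤ (Ef x) ^ 99 * Real.exp (-(inB x)) :=
    mul_nonneg (pow_nonneg (Ef_nonneg x) _) (Real.exp_pos _).le
  have hw1 : (Ef x) ^ 99 * Real.exp (-(inB x)) ≤ 1 := by
    rcases (Ef_nonneg x).eq_or_lt with h | h
    · rw [← h, zero_pow (by norm_num), zero_mul]
      exact zero_le_one
    · have hk := (Ef_pos_iff x).1 h
      have h2 : 0 < ∏ k, rk k x := Finset.prod_pos fun k _ => hk k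
      rw [prod_rk] at h2
      have h3 : 0 < rk 0 x := hk 0
      have h4 : 0 < Pn x := pos_of_mul_pos_right h2 h3.le
      have h5 : Pn x ≤ (b2 ^ 50 + 1) ^ 2 := by
        refine (Pn_le x).trans ?_
        have h6 : (rk 0 x) ^ 50 ≤ b2 ^ 50 := pow_le_pow_left₀ h3.le hx 50
        have h7 : 0 ≤ (rk 0 x) ^ 50 := pow_nonneg h3.le 50
        exact pow_le_pow_left₀ (by linarith) (by linarith) 2
      have h6 : Real.log (rk 0 x) + Real.log (Pn x) ≤ Real.log (b2 * (b2 ^ 50 + 1) ^ 2) := by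
        rw [← Real.log_mul h3.ne' h4.ne']
        exact Real.log_le_log h2 (mul_le_mul hx h5 h4.le (h3.le.trans hx))
      have h7 : 0 ≤ Real.log 6 := Real.log_nonneg (by norm_num)
      have h8 : (Ef x) ^ 99 = Real.exp (99 * Real.log (Ef x)) := by
        rw [mul_comm, Real.exp_mul, Real.exp_log h]
        exact_mod_cast rfl
      rw [h8, ← Real.exp_add, Real.exp_le_one_iff, inB_eq h]
      unfold CB
      linarith
  unfold bf
  nlinarith

theorem ouB_sup {x : Eu 2} (hx : b1 ≤ rk 0 x) : SupPc bf ouB x := by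
  have hE := Ef_pos_far hx
  have hb1 : (0 : ℝ) < b1 := by unfold b1; norm_num
  have hb2 : (0 : ℝ) < b2 := by unfold b2; norm_num
  have hr : 0 < rk 0 x := hb1.trans_le hx
  obtain ⟨hl1, hl2⟩ := lap_logE hE
  have hlp := contDiffAt_lp (n := 2) 0 b2 hb2 12500 hr
  have hlp2 := lap_lp 0 b2 hb2 12500 hr
  have h1 : ouB = fun y : Eu 2 => Real.log (1 + 4 * (b2 / rk 0 y) ^ 12500) + 99 * Real.log (Ef y) := rfl
  have hp := lp_pos hb2 12500 hr
  have hp' : 0 < 4 * (b2 / rk 0 x) ^ 12500 := by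
    have : 0 < (b2 / rk 0 x) ^ 12500 := pow_pos (div_pos hb2 hr) _
    linarith
  refine ⟨by rw [h1]; exact hlp.add hl1, ?_⟩
  have h2 : lap ouB x = 4 * ((12500 : ℕ) : ℝ) ^ 2 / rk 0 x * (4 * (b2 / rk 0 x) ^ 12500 /
      (1 + 4 * (b2 / rk 0 x) ^ 12500) ^ 2) + - qf x := by
    rw [h1, lap_add hlp hl1, hlp2, hl2]
  have h3 : (Ef x) ^ 99 * Real.exp (-(ouB x)) = 1 / (1 + 4 * (b2 / rk 0 x) ^ 12500) := by
    have h8 : Real.exp (99 * Real.log (Ef x)) = (Ef x) ^ 99 := by
      rw [mul_comm, Real.exp_mul, Real.exp_log hE]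
      exact_mod_cast rfl
    have h9 : -(ouB x) = -Real.log (1 + 4 * (b2 / rk 0 x) ^ 12500) + -(99 * Real.log (Ef x)) := by
      rw [h1]; ring
    rw [h9, Real.exp_add, Real.exp_neg, Real.exp_neg, Real.exp_log hp, h8]
    have : (Ef x) ^ 99 ≠ 0 := (pow_pos hE _).ne'
    generalize (Ef x) ^ 99 = e at *
    generalize 1 + 4 * (b2 / rk 0 x) ^ 12500 = q at *
    have := hp.ne'
    field_simp
  unfold bf
  rw [h2, h3]
  generalize 4 * (b2 / rk 0 x) ^ 12500 = p at *
  have h4 : 4 * ((12500 : ℕ) : ℝ) ^ 2 / rk 0 x ≤ 10 ^ 8 := by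
    rw [div_le_iff₀ hr]
    have h5 : (676 / 100 : ℝ) ≤ rk 0 x := hx
    push_cast
    nlinarith
  have h5 : (0 : ℝ) ≤ p / (1 + p) ^ 2 := by positivity
  have h6 : 1 / (1 + p) - (1 / (1 + p)) ^ 2 = p / (1 + p) ^ 2 := by
    have := hp.ne'
    field_simp
    ring
  rw [h6]
  have h7 := mul_le_mul_of_nonneg_right h4 h5
  linarith

theorem inB_lt_ouB {x : Eu 2} (hx : rk 0 x = b1) : inB x < ouB x := by
  have hb : (1 : ℝ) < b1 := by unfold b1; norm_num
  have hb1 : (0 : ℝ) < b1 := by linarith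
  have hb2 : (0 : ℝ) < b2 := by unfold b2; norm_num
  have hE := Ef_pos_far hx.ge
  rw [inB_eq hE]
  unfold ouB
  rw [hx]
  obtain ⟨t, ht⟩ : ∃ t : ℝ, t = b2 / b1 := ⟨_, rfl⟩
  have ht1 : (5 / 4 - 1 / 100 : ℝ) < t := by rw [ht]; unfold b1 b2; norm_num
  have htt : t - 1 > 0 := by linarith
  have hb2t : b2 = t * b1 := by rw [ht]; field_simp
  have hPn := le_Pn (x := x) (by rw [hx]; exact hb.le)
  rw [hx] at hPn
  have hA : (45 : ℝ) ≤ b1 ^ 50 := by
    have h1 : b1 ^ 2 ≤ b1 ^ 50 := pow_le_pow_right₀ hb.le (by norm_num)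
    have h2 : (45 : ℝ) ≤ b1 ^ 2 := by unfold b1; norm_num
    linarith
  have hkey : b2 ^ 50 + 1 ≤ t ^ 51 * (b1 ^ 50 - 1) := by
    rw [hb2t, mul_pow, pow_succ t 50]
    have h1 : 1 ≤ t ^ 50 := one_le_pow₀ (by linarith)
    generalize b1 ^ 50 = B at *
    generalize t ^ 50 = T at *
    have h2 : 0 ≤ (T - 1) * (B * (t - 1) - t) := by
      apply mul_nonneg (by linarith)
      nlinarith
    nlinarith
  have hB1 : 0 < b1 ^ 50 - 1 := by linarith
  have hlog1 : Real.log (b2 ^ 50 + 1) ≤ 51 * Real.log t + Real.log (b1 ^ 50 - 1) := by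
    have h1 : 0 < t ^ 51 := by positivity
    have h2 := Real.log_le_log (by positivity) hkey
    rw [Real.log_mul h1.ne' hB1.ne', Real.log_pow] at h2
    exact_mod_cast h2
  have hlog2 : 2 * Real.log (b1 ^ 50 - 1) ≤ Real.log (Pn x) := by
    have h2 := Real.log_le_log (pow_pos hB1 2) hPn
    rw [Real.log_pow] at h2
    exact_mod_cast h2
  have hCB : CB = Real.log 6 + 99 * (Real.log t + Real.log b1 + 2 * Real.log (b2 ^ 50 + 1)) := by
    unfold CB
    have h1 : b2 ^ 50 + 1 ≠ 0 := by positivity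
    rw [Real.log_mul hb2.ne' (pow_ne_zero 2 h1), Real.log_pow, hb2t,
      Real.log_mul (by linarith) hb1.ne']
    push_cast
    ring
  have htpos : 0 < Real.log t := Real.log_pos (by linarith)
  have hrhs : Real.log 4 + 12500 * Real.log t < Real.log (1 + 4 * (b2 / b1) ^ 12500) := by
    rw [← ht]
    have h1 : 0 < t ^ 12500 := pow_pos (by linarith) _
    have h2 : Real.log (4 * t ^ 12500) = Real.log 4 + 12500 * Real.log t := by
      rw [Real.log_mul (by norm_num) h1.ne', Real.log_pow]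
      rfl
    rw [← h2]
    apply Real.log_lt_log (by linarith)
    linarith
  have h64 : Real.log 6 ≤ Real.log 4 + 2 * Real.log t := by
    have h1 : Real.log (4 * t ^ 2) = Real.log 4 + 2 * Real.log t := by
      rw [Real.log_mul (by norm_num) (by positivity), Real.log_pow]
      push_cast
      rfl
    rw [← h1]
    apply Real.log_le_log (by norm_num)
    nlinarith
  rw [hCB]
  linarith

theorem ouB_lt_inB {x : Eu 2} (hx : rk 0 x = b2) : ouB x < inB x := by
  have hb : (1 : ℝ) < b2 := by unfold b2; norm_num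
  have hb12 : b1 ≤ b2 := by unfold b1 b2; norm_num
  have hb2 : (0 : ℝ) < b2 := by linarith
  have hE := Ef_pos_far (x := x) (by rw [hx]; exact hb12)
  rw [inB_eq hE]
  unfold ouB
  rw [hx, div_self hb2.ne', one_pow]
  have hk := (Ef_pos_iff x).1 hE
  have h2 : 0 < ∏ k, rk k x := Finset.prod_pos fun k _ => hk k
  rw [prod_rk, hx] at h2
  have h4 : 0 < Pn x := pos_of_mul_pos_right h2 hb2.le
  have h5 : Pn x ≤ (b2 ^ 50 + 1) ^ 2 := by
    have := Pn_le x
    rwa [hx] at this
  have h6 : Real.log b2 + Real.log (Pn x) ≤ Real.log (b2 * (b2 ^ 50 + 1) ^ 2) := by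
    rw [← Real.log_mul hb2.ne' h4.ne']
    exact Real.log_le_log h2 (mul_le_mul_of_nonneg_left h5 hb2.le)
  have h7 : Real.log (1 + 4 * 1) < Real.log 6 := Real.log_lt_log (by norm_num) (by norm_num)
  unfold CB
  linarith

theorem UB_loc (x : Eu 2) : LocSup bf UB x := by
  have hb12 : b1 < b2 := by unfold b1 b2; norm_num
  have hc : ContinuousAt (rk 0) x := (contDiff_rk (n := 0) 0).continuous.continuousAt
  rcases lt_trichotomy (rk 0 x) b1 with h | h | h
  · have hs := inB_sup (x := x) (by linarith)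
    refine ⟨inB, inB, hs, hs, ?_⟩
    filter_upwards [hc.eventually (gt_mem_nhds h)] with y hy
    have hy' : rk 0 y ≤ b1 := le_of_lt hy
    rw [min_self]
    unfold UB
    rw [if_pos hy']
  · have hs := inB_sup (x := x) (by linarith)
    have hs2 := ouB_sup (x := x) h.ge
    refine ⟨inB, inB, hs, hs, ?_⟩
    filter_upwards [hc.eventually (gt_mem_nhds (show rk 0 x < b2 by linarith)),
      hs.1.continuousAt.eventually_lt hs2.1.continuousAt (inB_lt_ouB h)] with y hy hy2
    have hy' : rk 0 y ≤ b2 := le_of_lt hy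
    rw [min_self]
    unfold UB
    rw [if_pos hy', min_eq_left hy2.le, ite_self]
  · rcases lt_trichotomy (rk 0 x) b2 with h' | h' | h'
    · refine ⟨inB, ouB, inB_sup h'.le, ouB_sup h.le, ?_⟩
      filter_upwards [hc.eventually (gt_mem_nhds h'), hc.eventually (lt_mem_nhds h)] with y hy hy2
      have hy' : rk 0 y ≤ b2 := le_of_lt hy
      have hy2' : ¬ rk 0 y ≤ b1 := not_le.2 hy2
      unfold UB
      rw [if_neg hy2', if_pos hy']
    · have hs := inB_sup (x := x) h'.le
      have hs2 := ouB_sup (x := x) h.le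
      refine ⟨ouB, ouB, hs2, hs2, ?_⟩
      filter_upwards [hc.eventually (lt_mem_nhds h),
        hs2.1.continuousAt.eventually_lt hs.1.continuousAt (ouB_lt_inB h')] with y hy hy2
      have hy' : ¬ rk 0 y ≤ b1 := not_le.2 hy
      rw [min_self]
      unfold UB
      rw [if_neg hy', min_eq_right hy2.le, ite_self]
    · have hs2 := ouB_sup (x := x) h.le
      refine ⟨ouB, ouB, hs2, hs2, ?_⟩
      filter_upwards [hc.eventually (lt_mem_nhds h')] with y hy
      have hy' : ¬ rk 0 y ≤ b2 := not_le.2 hy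
      have hy2 : ¬ rk 0 y ≤ b1 := fun hh => hy' (hh.trans hb12.le)
      rw [min_self]
      unfold UB
      rw [if_neg hy2, if_neg hy']

theorem ouB_tendsto : Tendsto (fun x => Real.log (1 + 4 * (b2 / rk 0 x) ^ 12500))
    (cocompact (Eu 2)) (𝓝 0) := by
  have hpt : pt 0 = 0 := by
    unfold pt
    rw [pc_zero]
    ext i
    fin_cases i <;> simp
  have hrk : ∀ x : Eu 2, rk 0 x = ‖x‖ ^ 2 := by
    intro x
    unfold rk
    rw [hpt, sub_zero]
  have h1 : Tendsto (fun x : Eu 2 => rk 0 x) (cocompact (Eu 2)) atTop := by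
    simp only [hrk]
    exact (tendsto_pow_atTop (by norm_num)).comp (tendsto_norm_cocompact_atTop)
  have h2 : Tendsto (fun x : Eu 2 => b2 / rk 0 x) (cocompact (Eu 2)) (𝓝 0) := h1.const_div_atTop b2
  have h3 : Tendsto (fun x : Eu 2 => (b2 / rk 0 x) ^ 12500) (cocompact (Eu 2)) (𝓝 0) := by
    have := h2.pow 12500
    rwa [zero_pow (by norm_num)] at this
  have h4 : Tendsto (fun x : Eu 2 => 1 + 4 * (b2 / rk 0 x) ^ 12500) (cocompact (Eu 2)) (𝓝 1) := by
    have := (h3.const_mul 4).const_add 1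
    rwa [mul_zero, add_zero] at this
  have h5 := h4.log one_ne_zero
  rwa [Real.log_one] at h5

end Pool.Agent.H314.CS
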