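import Pool.Agent.H314.CS.SubA
import Pool.Agent.H314.CS.SupB
import Pool.Agent.H314.CS.Geo
import Pool.Agent.H314.CS.Nonl

set_option autoImplicit false
open Filter Topology Set Metric

namespace Pool.Agent.H314.CS

open Pool.Agent.H314.Dir


theorem norm_pc_le (j : Fin 101) : ‖pc j‖ ≤ 1 := by
  induction j using Fin.cases with
  | zero => rw [pc_zero, norm_zero]; exact zero_le_one
  | succ j => exact (norm_pc_succ j).le

theorem rk_norm (k : Fin 101) (x : Eu 2) : rk k x = ‖cz x - pc k‖ ^ 2 := by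
  rw [rk_eq, Complex.normSq_eq_norm_sq]

theorem norm_cz_le {j : Fin 101} {x : Eu 2} {s : ℝ} (hs : 0 ≤ s) (hx : rk j x ≤ s ^ 2) :
    ‖cz x‖ ≤ 1 + s := by
  rw [rk_norm] at hx
  have h1 : ‖cz x - pc j‖ ≤ s := (sq_le_sq₀ (norm_nonneg _) hs).1 hx
  calc ‖cz x‖ = ‖(cz x - pc j) + pc j‖ := by congr 1; ring
    _ ≤ ‖cz x - pc j‖ + ‖pc j‖ := norm_add_le _ _
    _ ≤ 1 + s := by linarith [norm_pc_le j]

theorem rk_le_of_norm {x : Eu 2} {t : ℝ} (hx : ‖cz x‖ ≤ t) (k : Fin 101) :
    rk k x ≤ (t + 1) ^ 2 := by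
  rw [rk_norm]
  apply pow_le_pow_left₀ (norm_nonneg _)
  calc ‖cz x - pc k‖ ≤ ‖cz x‖ + ‖pc k‖ := norm_sub_le _ _
    _ ≤ t + 1 := by linarith [norm_pc_le k]

theorem norm_small {j : Fin 101} {x : Eu 2} (hx : rk j x ≤ 1) : rk 0 x ≤ 4 := by
  have h1 : ‖cz x‖ ≤ 1 + 1 := norm_cz_le (j := j) zero_le_one (by simpa using hx)
  rw [rk0_eq]
  nlinarith [norm_nonneg (cz x)]

theorem log_b2_ge : (2101 / 1000 : ℝ) ≤ Real.log b2 := by
  rw [Real.le_log_iff_exp_le (by unfold b2; norm_num)]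
  have h1 : Real.exp 1 < 2.7182818286 := Real.exp_one_lt_d9
  have h2 : (2101 / 1000 : ℝ) = 1 + 1 + 101 / 1000 := by norm_num
  have h3 : (899 / 1000 : ℝ) ≤ Real.exp (-(101 / 1000)) := by
    have := Real.add_one_le_exp (-(101 / 1000 : ℝ))
    linarith
  have h4 : Real.exp (101 / 1000) * Real.exp (-(101 / 1000)) = 1 := by
    rw [← Real.exp_add]; simp
  have h5 : Real.exp (101 / 1000) ≤ 1000 / 899 := by
    rw [le_div_iff₀ (by norm_num)]
    nlinarith [Real.exp_pos (101 / 1000)]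
  rw [h2, Real.exp_add, Real.exp_add]
  have h6 : Real.exp 1 * Real.exp 1 ≤ 7.3891 := by nlinarith [Real.exp_pos 1]
  unfold b2
  calc Real.exp 1 * Real.exp 1 * Real.exp (101 / 1000) ≤ 7.3891 * (1000 / 899) :=
        mul_le_mul h6 h5 (Real.exp_pos _).le (by norm_num)
    _ ≤ 841 / 100 := by norm_num

theorem log_b2_le : Real.log b2 ≤ 215 / 100 := by
  rw [Real.log_le_iff_le_exp (by unfold b2; norm_num)]
  have h1 : 2.7182818283 < Real.exp 1 := Real.exp_one_gt_d9
  have h2 : (215 / 100 : ℝ) = 1 + 1 + 15 / 100 := by norm_num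
  have h3 : (115 / 100 : ℝ) ≤ Real.exp (15 / 100) := by
    have := Real.add_one_le_exp (15 / 100 : ℝ)
    linarith
  rw [h2, Real.exp_add, Real.exp_add]
  have h6 : 7.389 ≤ Real.exp 1 * Real.exp 1 := by nlinarith [Real.exp_pos 1]
  unfold b2
  calc (841 / 100 : ℝ) ≤ 7.389 * (115 / 100) := by norm_num
    _ ≤ _ := mul_le_mul h6 h3 (by norm_num) (by positivity)

theorem b2_pos : 0 < b2 := by unfold b2; norm_num

theorem one_le_b2 : 1 ≤ b2 := by unfold b2; norm_num

theorem CB_expand : CB = Real.log 6 + 99 * (Real.log b2 + 2 * Real.log (b2 ^ 50 + 1)) := by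
  have h1 : 0 < b2 ^ 50 + 1 := by
    have := pow_pos b2_pos 50
    linarith
  unfold CB
  rw [Real.log_mul b2_pos.ne' (pow_pos h1 2).ne', Real.log_pow]
  push_cast
  ring

theorem CB_ge : 21000 ≤ CB := by
  rw [CB_expand]
  have h1 : Real.log (b2 ^ 50) ≤ Real.log (b2 ^ 50 + 1) :=
    Real.log_le_log (pow_pos b2_pos 50) (by linarith)
  rw [Real.log_pow] at h1
  push_cast at h1
  have h2 := log_b2_ge
  have h3 : 0 ≤ Real.log 6 := Real.log_nonneg (by norm_num)
  linarith

theorem log_six_le : Real.log 6 ≤ 2 := by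
  rw [Real.log_le_iff_le_exp (by norm_num)]
  have h1 : 2.7182818283 < Real.exp 1 := Real.exp_one_gt_d9
  have h2 : (2 : ℝ) = 1 + 1 := by norm_num
  rw [h2, Real.exp_add]
  nlinarith

theorem CB_le : CB ≤ 22000 := by
  rw [CB_expand]
  have h0 : (1 : ℝ) ≤ b2 ^ 50 := one_le_pow₀ one_le_b2
  have h1 : Real.log (b2 ^ 50 + 1) ≤ Real.log (2 * b2 ^ 50) :=
    Real.log_le_log (by linarith) (by linarith)
  rw [Real.log_mul (by norm_num) (by linarith), Real.log_pow] at h1
  push_cast at h1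
  have h2 := log_b2_le
  have h3 := log_six_le
  have h4 := Real.log_two_lt_d9
  norm_num at h4
  linarith

theorem Pn_nonneg (x : Eu 2) : 0 ≤ Pn x := Complex.normSq_nonneg _

theorem prod_pos_of_Ef {x : Eu 2} (hx : 0 < Ef x) : 0 < rk 0 x ∧ 0 < Pn x := by
  have h1 : ∀ k, 0 < rk k x := by
    intro k
    rcases (rk_nonneg k x).lt_or_eq with h | h
    · exact h
    · exfalso
      have : Ef x = 0 := by
        unfold Ef
        apply Finset.prod_eq_zero (Finset.mem_univ k)
        rw [← h, zero_div]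
      linarith
  have h2 : 0 < ∏ k, rk k x := Finset.prod_pos fun k _ => h1 k
  rw [prod_rk] at h2
  exact ⟨h1 0, by
    rcases (Pn_nonneg x).lt_or_eq with h | h
    · exact h
    · rw [← h, mul_zero] at h2
      exact absurd h2 (lt_irrefl _)⟩

theorem logE_le_inB {x : Eu 2} (hx : 0 < Ef x) (h2 : rk 0 x ≤ b2) :
    99 * Real.log (Ef x) ≤ inB x := by
  rw [inB_eq hx, CB_expand]
  obtain ⟨h3, h4⟩ := prod_pos_of_Ef hx
  have h5 : Real.log (rk 0 x) ≤ Real.log b2 := Real.log_le_log h3 h2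
  have h6 : Pn x ≤ (b2 ^ 50 + 1) ^ 2 := by
    refine (Pn_le x).trans ?_
    have h7 : (rk 0 x) ^ 50 ≤ b2 ^ 50 := pow_le_pow_left₀ h3.le h2 50
    have h8 : 0 ≤ (rk 0 x) ^ 50 := pow_nonneg h3.le 50
    exact pow_le_pow_left₀ (by linarith) (by linarith) 2
  have h7 : Real.log (Pn x) ≤ 2 * Real.log (b2 ^ 50 + 1) := by
    have h8 := Real.log_le_log h4 h6
    rw [Real.log_pow] at h8
    exact_mod_cast h8
  have h8 : 0 ≤ Real.log 6 := Real.log_nonneg (by norm_num)
  linarith

theorem logE_le_ouB (x : Eu 2) : 99 * Real.log (Ef x) ≤ ouB x := by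
  unfold ouB
  have h1 : 0 ≤ 4 * (b2 / rk 0 x) ^ 12500 :=
    mul_nonneg (by norm_num) (pow_nonneg (div_nonneg b2_pos.le (rk_nonneg 0 x)) _)
  have h2 : 0 ≤ Real.log (1 + 4 * (b2 / rk 0 x) ^ 12500) := Real.log_nonneg (by linarith)
  linarith

theorem LA_le_UB (x : Eu 2) : LA x ≤ UB x := by
  rcases le_or_gt (1 / 4) (Ef x) with h | h
  · have hE : 0 < Ef x := by linarith
    have h1 : LA x = 99 * Real.log (Ef x) := by
      unfold LA
      rw [max_eq_left h]
    rw [h1]
    unfold UB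
    split_ifs with h2 h3
    · exact logE_le_inB hE (h2.trans (by unfold b1 b2; norm_num))
    · exact le_min (logE_le_inB hE h3) (logE_le_ouB x)
    · exact logE_le_ouB x
  · have h1 : LA x ≤ 0 := by
      unfold LA
      rw [max_eq_right h.le]
      have : Real.log (1 / 4) ≤ 0 := Real.log_nonpos (by norm_num) (by norm_num)
      linarith
    obtain ⟨j, hj⟩ := Ef_small h.le
    have h2 : ‖cz x‖ ≤ 1 + 1 / 10 ^ 4 := by
      apply norm_cz_le (j := j) (by norm_num)
      have h3 : mu / 2 ≤ (1 / 10 ^ 4) ^ 2 := by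
        unfold mu
        norm_num
      linarith
    have h3 : rk 0 x ≤ b1 := by
      have h4 := rk_le_of_norm h2 0
      have h5 : ((1 : ℝ) + 1 / 10 ^ 4 + 1) ^ 2 ≤ b1 := by
        unfold b1
        norm_num
      linarith
    have h4 : UB x = inB x := by
      unfold UB
      rw [if_pos h3]
    rw [h4]
    refine h1.trans ?_
    unfold inB
    have h5 : ∑ k, Real.log (rk k x + mu) ≤ ∑ _k : Fin 101, (2 : ℝ) := by
      apply Finset.sum_le_sum
      intro k _
      rw [Real.log_le_iff_le_exp (rkmu_pos k x)]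
      have h6 := rk_le_of_norm h2 k
      have h7 : ((1 : ℝ) + 1 / 10 ^ 4 + 1) ^ 2 + mu ≤ 5 := by
        unfold mu
        norm_num
      have h8 : 2.7182818283 < Real.exp 1 := Real.exp_one_gt_d9
      have h9 : (2 : ℝ) = 1 + 1 := by norm_num
      have h10 : (5 : ℝ) ≤ Real.exp 2 := by
        rw [h9, Real.exp_add]
        nlinarith
      linarith
    rw [Finset.sum_const, Finset.card_univ, Fintype.card_fin] at h5
    norm_num at h5
    have h6 := CB_ge
    linarith

theorem om_le_inB {x : Eu 2} (hx : Pn x < 25) : om x ≤ inB x := by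
  unfold om inB
  have h1 : (Pn x / 25) ^ 100 ≤ 1 := by
    apply pow_le_one₀ (div_nonneg (Pn_nonneg x) (by norm_num))
    rw [div_le_one (by norm_num)]
    exact hx.le
  have h0 : 0 ≤ (Pn x / 25) ^ 100 := pow_nonneg (div_nonneg (Pn_nonneg x) (by norm_num)) _
  have h2 : Real.log (1 + (Pn x / 25) ^ 100) ≤ 1 := by
    have h3 := Real.log_le_sub_one_of_pos (x := 1 + (Pn x / 25) ^ 100) (by linarith)
    linarith
  have h3 : Real.log 5 ≤ 4 := by
    have h4 := Real.log_le_sub_one_of_pos (x := (5 : ℝ)) (by norm_num)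
    linarith
  have h4 : 0 ≤ Real.log 8 := Real.log_nonneg (by norm_num)
  have h5 := CB_ge
  linarith

theorem LB_le_UB (x : Eu 2) : LB x ≤ UB x := by
  unfold LB
  split_ifs with h
  · have h1 : rk 0 x ≤ b1 := by
      by_contra hcon
      push Not at hcon
      have h2 : (676 / 100 : ℝ) < rk 0 x := hcon
      have h3 := rk0_lt h
      have h4 : rk 0 x ≤ (rk 0 x) ^ 50 := le_self_pow₀ (by linarith) (by norm_num)
      linarith
    have h4 : UB x = inB x := by
      unfold UB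
      rw [if_pos h1]
    apply max_le
    · rw [h4]
      exact om_le_inB h
    · exact LA_le_UB x
  · exact LA_le_UB x

theorem inB_le (x : Eu 2) : inB x ≤ 10 ^ 6 := by
  unfold inB
  have h5 : ∑ _k : Fin 101, (-72 : ℝ) ≤ ∑ k, Real.log (rk k x + mu) := by
    apply Finset.sum_le_sum
    intro k _
    have h6 : Real.log mu ≤ Real.log (rk k x + mu) :=
      Real.log_le_log mu_pos (by linarith [rk_nonneg k x])
    have h7 : Real.log mu = -(8 * Real.log 10) := by
      unfold mu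
      rw [Real.log_div (by norm_num) (by norm_num), Real.log_one, Real.log_pow]
      push_cast
      ring
    have h8 : Real.log 10 ≤ 9 := by
      have h4 := Real.log_le_sub_one_of_pos (x := (10 : ℝ)) (by norm_num)
      linarith
    linarith
  rw [Finset.sum_const, Finset.card_univ, Fintype.card_fin] at h5
  norm_num at h5
  have h6 := CB_le
  norm_num
  linarith

theorem UB_le (x : Eu 2) : UB x ≤ 10 ^ 6 := by
  unfold UB
  split_ifs with h1 h2
  · exact inB_le x
  · exact (min_le_left _ _).trans (inB_le x)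
  · push Not at h2
    unfold ouB
    have h3 : b2 / rk 0 x ≤ 1 := by
      rw [div_le_one (b2_pos.trans h2)]
      exact h2.le
    have h4 : (b2 / rk 0 x) ^ 12500 ≤ 1 :=
      pow_le_one₀ (div_nonneg b2_pos.le (rk_nonneg 0 x)) h3
    have h5 : 0 ≤ (b2 / rk 0 x) ^ 12500 :=
      pow_nonneg (div_nonneg b2_pos.le (rk_nonneg 0 x)) _
    have h6 : Real.log (1 + 4 * (b2 / rk 0 x) ^ 12500) ≤ 4 := by
      have h7 := Real.log_le_sub_one_of_pos (x := 1 + 4 * (b2 / rk 0 x) ^ 12500) (by linarith)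
      linarith
    have h7 : Real.log (Ef x) ≤ 0 := Real.log_nonpos (Ef_nonneg x) (Ef_lt_one x).le
    norm_num
    linarith

end Pool.Agent.H314.CS
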