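import Pool.Agent.H314.Dir.Pot3

set_option autoImplicit false
open MeasureTheory Filter Topology Set Metric

namespace Pool.Agent.H314.CS

open Pool.Agent.H314.Dir

/-- smoothness of parametric integrals with a compactly supported locally integrable weight -/
theorem aux833_param {P G E E' F : Type*} [NormedAddCommGroup P] [NormedSpace ℝ P]
    [NormedAddCommGroup G] [NormedSpace ℝ G] [FiniteDimensional ℝ G] [MeasurableSpace G]
    [BorelSpace G] (μ : Measure G) [NormedAddCommGroup E] [NormedSpace ℝ E]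
    [NormedAddCommGroup E'] [NormedSpace ℝ E'] [NormedAddCommGroup F] [NormedSpace ℝ F]
    (L : E →L[ℝ] E' →L[ℝ] F) {n : ℕ∞} {f : G → E} (hf : LocallyIntegrable f μ) {R : ℝ}
    (hR : 0 < R) (hfR : ∀ t, R < ‖t‖ → f t = 0) {g : P → G → E'}
    (hg : ContDiff ℝ n (fun q : P × G => g q.1 q.2)) :
    ContDiff ℝ n (fun p => ∫ t, L (f t) (g p t) ∂μ) := by
  have hpos : (0 : ℝ) < R := hR
  let χ : ContDiffBump (0 : G) := ⟨R, R + 1, hpos, by linarith⟩
  have hχ1 : ∀ t : G, ‖t‖ ≤ R → χ t = 1 := fun t ht =>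
    χ.one_of_mem_closedBall (by rw [mem_closedBall, dist_zero_right]; exact ht)
  have hχ0 : ∀ t : G, R + 1 ≤ ‖t‖ → χ t = 0 := fun t ht =>
    χ.zero_of_le_dist (by rw [dist_zero_right]; exact ht)
  have hG : ContDiff ℝ n (fun q : P × G => χ q.2 • g q.1 (-q.2)) := by
    refine ContDiff.smul ?_ ?_
    · exact χ.contDiff.comp contDiff_snd
    · exact hg.comp (contDiff_fst.prodMk contDiff_snd.neg)
  have h := contDiffOn_convolution_right_with_param_comp (𝕜 := ℝ) (n := n) (μ := μ) L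
    (s := (univ : Set P)) (v := fun _ => (0 : G)) contDiffOn_const (f := f)
    (g := fun (p : P) (z : G) => χ z • g p (-z)) (k := closedBall (0 : G) (R + 1)) isOpen_univ
    (isCompact_closedBall _ _) (fun p x _ hx => by
      have : R + 1 ≤ ‖x‖ := by
        rw [mem_closedBall, dist_zero_right, not_le] at hx
        exact hx.le
      simp only [hχ0 x this, zero_smul]) hf hG.contDiffOn
  rw [contDiffOn_univ] at h
  have e : (fun p => ∫ t, L (f t) (g p t) ∂μ) =
      fun p => (convolution f (fun z => χ z • g p (-z)) L μ) 0 := by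
    funext p
    rw [convolution_def]
    congr 1
    funext t
    by_cases ht : R < ‖t‖
    · rw [hfR t ht]; simp
    · have h1 : χ (0 - t) = 1 := hχ1 _ (by rw [zero_sub, norm_neg]; exact not_lt.1 ht)
      rw [h1, one_smul, zero_sub, neg_neg]
  rw [e]
  exact h

/-- joint smoothness of the averages, vector valued kernel -/
theorem aux833_J {d : ℕ} {G : Type*} [NormedAddCommGroup G] [NormedSpace ℝ G]
    {κ : Eu d → G} (hκ : Continuous κ) {R : ℝ} (hR : 0 < R) (hκR : ∀ t, R < ‖t‖ → κ t = 0)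
    {n : ℕ∞} {h : Eu d → ℝ} (hh : ContDiff ℝ n h) :
    ContDiff ℝ n (fun q : ℝ × Eu d => J κ h q.1 q.2) := by
  have h1 := aux833_param (P := ℝ × Eu d) (volume : Measure (Eu d))
    (ContinuousLinearMap.lsmul ℝ ℝ : ℝ →L[ℝ] G →L[ℝ] G).flip (n := n) (f := κ)
    hκ.locallyIntegrable hR hκR (g := fun q y => h (q.2 + q.1 • y)) (by
      refine hh.comp ?_
      fun_prop)
  exact h1

/-- integration over an interval -/
theorem aux833_int {P G : Type*} [NormedAddCommGroup P] [NormedSpace ℝ P]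
    [NormedAddCommGroup G] [NormedSpace ℝ G] {w : ℝ → ℝ} (hw : Continuous w) {ε : ℝ} (hε : 0 < ε)
    {n : ℕ∞} {g : P → ℝ → G} (hg : ContDiff ℝ n (fun q : P × ℝ => g q.1 q.2)) :
    ContDiff ℝ n (fun x => ∫ s in (0 : ℝ)..ε, w s • g x s) := by
  have hli : LocallyIntegrable ((Ioc 0 ε).indicator w) :=
    (hw.locallyIntegrable).indicator measurableSet_Ioc
  have h1 := aux833_param (P := P) (volume : Measure ℝ)
    (ContinuousLinearMap.lsmul ℝ ℝ : ℝ →L[ℝ] G →L[ℝ] G) (n := n) hli hε (by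
      intro t ht
      refine indicator_of_notMem ?_ _
      intro h
      rw [Real.norm_eq_abs, abs_of_pos h.1] at ht
      linarith [h.2]) hg
  have e : (fun x => ∫ s in (0 : ℝ)..ε, w s • g x s) = fun x =>
      ∫ t, (ContinuousLinearMap.lsmul ℝ ℝ : ℝ →L[ℝ] G →L[ℝ] G) ((Ioc 0 ε).indicator w t) (g x t) := by
    funext x
    rw [intervalIntegral.integral_of_le hε.le, ← integral_indicator measurableSet_Ioc]
    congr 1
    funext s
    by_cases hs : s ∈ Ioc 0 ε
    · simp [indicator_of_mem hs]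
    · simp [indicator_of_notMem hs]
  rw [e]
  exact h1

/-- smoothness of potentials, vector valued kernel -/
theorem aux833_Pw {d : ℕ} {G : Type*} [NormedAddCommGroup G] [NormedSpace ℝ G]
    {κ : Eu d → G} (hκ : Continuous κ) {R : ℝ} (hR : 0 < R) (hκR : ∀ t, R < ‖t‖ → κ t = 0)
    {w : ℝ → ℝ} (hw : Continuous w) {ε : ℝ} (hε : 0 < ε)
    {n : ℕ∞} {h : Eu d → ℝ} (hh : ContDiff ℝ n h) :
    ContDiff ℝ n (Pw κ w ε h) := by
  have h1 := aux833_J hκ hR hκR hh
  have h2 : ContDiff ℝ n (fun q : Eu d × ℝ => J κ h q.2 q.1) :=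
    h1.comp (contDiff_snd.prodMk contDiff_fst)
  exact aux833_int hw hε (g := fun x s => J κ h s x) h2

/-- potentials of `C^k` functions are `C^k` -/
theorem contDiff_Pw_of_contDiff {d : ℕ} {F : Type} [NormedAddCommGroup F] [NormedSpace ℝ F]
    (κ : Eu d → ℝ) (hκ : Continuous κ) (hκ1 : ∀ y, 1 ≤ ‖y‖ → κ y = 0) (w : ℝ → ℝ)
    (hw : Continuous w) (ε : ℝ) (hε : 0 < ε) (k : ℕ) (f : Eu d → F) (hf : ContDiff ℝ k f) :
    ContDiff ℝ k (fun x => ∫ s in (0 : ℝ)..ε, w s • ∫ y, κ y • f (x + s • y)) := by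
  have h1 := aux833_param (P := ℝ × Eu d) (volume : Measure (Eu d))
    (ContinuousLinearMap.lsmul ℝ ℝ : ℝ →L[ℝ] F →L[ℝ] F) (n := (k : ℕ∞)) (f := κ)
    hκ.locallyIntegrable one_pos (fun t ht => hκ1 t ht.le)
    (g := fun q y => f (q.2 + q.1 • y)) (by
      refine hf.comp ?_
      fun_prop)
  have h2 : ContDiff ℝ (k : ℕ∞) (fun q : Eu d × ℝ => ∫ y, κ y • f (q.1 + q.2 • y)) :=
    h1.comp (contDiff_snd.prodMk contDiff_fst)
  exact aux833_int hw hε (g := fun x s => ∫ y, κ y • f (x + s • y)) h2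

theorem aux833_radius {d : ℕ} {G : Type*} [NormedAddCommGroup G] [NormedSpace ℝ G]
    {κ : Eu d → G} (hc : HasCompactSupport κ) : ∃ R : ℝ, 0 < R ∧ ∀ t, R < ‖t‖ → κ t = 0 := by
  obtain ⟨R, hR, hs⟩ := hc.isCompact.isBounded.subset_closedBall_lt 0 (0 : Eu d)
  refine ⟨R, hR, fun t ht => ?_⟩
  refine image_eq_zero_of_notMem_tsupport (fun h => ?_)
  have := hs h
  rw [mem_closedBall, dist_zero_right] at this
  linarith

/-- regularity: a bounded C^2 solution of a smooth semilinear equation is smooth -/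
theorem smooth_of_lap {d : ℕ} (b : Eu d → ℝ → ℝ)
    (hb : ContDiff ℝ ((⊤ : ℕ∞) : WithTop ℕ∞) (fun p : Eu d × ℝ => b p.1 p.2)) (v : Eu d → ℝ)
    (hv : ContDiff ℝ 2 v) (C : ℝ) (hC : ∀ x, |v x| ≤ C) (hq : ∀ x, |b x (v x)| ≤ C)
    (heq : ∀ x, lap v x = b x (v x)) : ContDiff ℝ ((⊤ : ℕ∞) : WithTop ℕ∞) v := by
  obtain ⟨f, hf⟩ : ∃ f : Eu d → ℝ, f = fun y => - lap v y := ⟨_, rfl⟩
  have hf2 : f = fun y => - b y (v y) := by
    rw [hf]; funext y; rw [heq]
  have hbc : Continuous (fun p : Eu d × ℝ => b p.1 p.2) := hb.continuous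
  have hfc : Continuous f := by
    rw [hf2]
    exact (hbc.comp (continuous_id.prodMk hv.continuous)).neg
  have hBf : BM f C := ⟨hfc.measurable, fun x => by rw [hf2]; simpa using hq x⟩
  have hBv : BM v C := ⟨hv.continuous.measurable, hC⟩
  have hw : Continuous (fun s : ℝ => 1 - 0 * s ^ 2) := by fun_prop
  have hr1 : ContDiff ℝ 1 (rho : Eu d → ℝ) := contDiff_rho.of_le (by norm_num)
  have hs1 : ContDiff ℝ 1 (sig : Eu d → ℝ) := contDiff_sig.of_le (by norm_num)
  have hv' : v = fun x => J rho v 1 x + Npot 0 1 f x := by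
    funext x
    rw [hf]
    exact represent hv hC one_pos x
  have hder : ∀ x, HasFDerivAt v (-((1 : ℝ)⁻¹ • J (fderiv ℝ (rho : Eu d → ℝ)) v 1 x) +
      -(Pw (fderiv ℝ (sig : Eu d → ℝ)) (fun s => 1 - 0 * s ^ 2) 1 f x)) x := by
    intro x
    have h1 := hasFDerivAt_J hr1 hasCompactSupport_rho hBv one_pos x
    have h2 := hasFDerivAt_Pw hs1 hasCompactSupport_sig hBf hw one_pos x
    have h3 := h1.add h2
    refine h3.congr_of_eventuallyEq (Eventually.of_forall fun y => ?_)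
    exact congrFun hv' y
  obtain ⟨R1, hR1, hκ1⟩ := aux833_radius ((hasCompactSupport_rho (d := d)).fderiv (𝕜 := ℝ))
  obtain ⟨R2, hR2, hκ2⟩ := aux833_radius ((hasCompactSupport_sig (d := d)).fderiv (𝕜 := ℝ))
  have hrc : Continuous (fderiv ℝ (rho : Eu d → ℝ)) := hr1.continuous_fderiv one_ne_zero
  have hsc : Continuous (fderiv ℝ (sig : Eu d → ℝ)) := hs1.continuous_fderiv one_ne_zero
  rw [contDiff_infty]
  intro n
  induction n with
  | zero => exact hv.of_le (by simp)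
  | succ n ih =>
    have hfn : ContDiff ℝ ((n : ℕ∞) : WithTop ℕ∞) f := by
      rw [hf2]
      have hbn : ContDiff ℝ ((n : ℕ∞) : WithTop ℕ∞) (fun p : Eu d × ℝ => b p.1 p.2) :=
        contDiff_infty.1 hb n
      exact (hbn.comp (contDiff_id.prodMk ih)).neg
    have hvn : ContDiff ℝ ((n : ℕ∞) : WithTop ℕ∞) v := ih
    have e : ((n + 1 : ℕ) : WithTop ℕ∞) = (n : WithTop ℕ∞) + 1 := by push_cast; rfl
    rw [e, contDiff_succ_iff_fderiv]
    refine ⟨fun x => (hder x).differentiableAt, fun h => absurd h (by simp), ?_⟩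
    have h1 : fderiv ℝ v = fun x => (-(J (fderiv ℝ (rho : Eu d → ℝ)) v 1 x) +
      -(Pw (fderiv ℝ (sig : Eu d → ℝ)) (fun s => 1 - 0 * s ^ 2) 1 f x)) := by
      funext x
      rw [(hder x).fderiv, inv_one, one_smul]
    rw [h1]
    have hJ := (aux833_J hrc hR1 hκ1 hvn).comp
      ((contDiff_const (c := (1 : ℝ))).prodMk (contDiff_id (𝕜 := ℝ) (E := Eu d)))
    have hP := aux833_Pw hsc hR2 hκ2 hw one_pos hfn
    exact hJ.neg.add hP.neg

end Pool.Agent.H314.CS
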