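import Pool.Agent.H314.CS.Defs
import Pool.Agent.H314.Dir.Lap

set_option autoImplicit false
open Filter Topology Set Metric

namespace Pool.Agent.H314.CS

open Pool.Agent.H314.Dir

theorem cs_line {F F' : ℂ → ℂ} (hF : ∀ z, HasDerivAt F (F' z) z) (z v c : ℂ) (t : ℝ) :
    HasDerivAt (fun t : ℝ => c * F (z + (t : ℂ) * v)) (c * (F' (z + (t : ℂ) * v) * v)) t := by
  have h1 : HasDerivAt (fun s : ℂ => z + s * v) v (t : ℂ) := by
    have := ((hasDerivAt_id (t : ℂ)).mul_const v).const_add z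
    simpa using this
  have h2 : HasDerivAt (fun s : ℂ => F (z + s * v)) (F' (z + (t : ℂ) * v) * v) (t : ℂ) :=
    (hF (z + (t : ℂ) * v)).comp (t : ℂ) h1
  exact (h2.const_mul c).comp_ofReal

theorem cs_re {A : ℝ → ℂ} {a : ℂ} {t : ℝ} (h : HasDerivAt A a t) :
    HasDerivAt (fun t => (A t).re) a.re t :=
  (Complex.reCLM.hasFDerivAt (x := A t)).comp_hasDerivAt t h

theorem cs_im {A : ℝ → ℂ} {a : ℂ} {t : ℝ} (h : HasDerivAt A a t) :
    HasDerivAt (fun t => (A t).im) a.im t :=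
  (Complex.imCLM.hasFDerivAt (x := A t)).comp_hasDerivAt t h

theorem cs_normSq {A : ℝ → ℂ} {a : ℂ} {t : ℝ} (h : HasDerivAt A a t) :
    HasDerivAt (fun t => Complex.normSq (A t)) (2 * ((A t).re * a.re + (A t).im * a.im)) t := by
  have h1 := ((cs_re h).mul (cs_re h)).add ((cs_im h).mul (cs_im h))
  have e : (fun t => Complex.normSq (A t)) =
      (((fun t => (A t).re) * fun t => (A t).re) + (fun t => (A t).im) * fun t => (A t).im) := by
    funext t
    simp [Complex.normSq_apply]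
  rw [e]
  refine h1.congr_deriv ?_
  ring

theorem cs_dir {F F' F'' : ℂ → ℂ} (hF : ∀ z, HasDerivAt F (F' z) z)
    (hF' : ∀ z, HasDerivAt F' (F'' z) z) {g g' g'' : ℝ → ℝ} (x w : Eu 2) (v : ℂ)
    (hw : ∀ t : ℝ, cz (x + t • w) = cz x + (t : ℂ) * v)
    (hg : ∀ᶠ r in 𝓝 (Complex.normSq (F (cz x))), HasDerivAt g (g' r) r)
    (hg' : HasDerivAt g' (g'' (Complex.normSq (F (cz x)))) (Complex.normSq (F (cz x))))
    (hC : ContDiffAt ℝ 2 (fun y : Eu 2 => g (Complex.normSq (F (cz y)))) x) :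
    iteratedFDeriv ℝ 2 (fun y : Eu 2 => g (Complex.normSq (F (cz y)))) x (fun _ => w) =
      g'' (Complex.normSq (F (cz x))) * (2 * ((F (cz x)).re * (F' (cz x) * v).re +
        (F (cz x)).im * (F' (cz x) * v).im)) ^ 2 +
      g' (Complex.normSq (F (cz x))) * (2 * ((F' (cz x) * v).re ^ 2 + (F' (cz x) * v).im ^ 2 +
        (F (cz x)).re * (F'' (cz x) * v * v).re + (F (cz x)).im * (F'' (cz x) * v * v).im)) := by
  have hA : ∀ t : ℝ, HasDerivAt (fun t : ℝ => F (cz x + (t : ℂ) * v)) (F' (cz x + (t : ℂ) * v) * v) t := by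
    intro t
    simpa using cs_line hF (cz x) v 1 t
  have hA' : ∀ t : ℝ, HasDerivAt (fun t : ℝ => F' (cz x + (t : ℂ) * v) * v)
      (F'' (cz x + (t : ℂ) * v) * v * v) t := by
    intro t
    have := cs_line hF' (cz x) v v t
    have e : (fun t : ℝ => F' (cz x + (t : ℂ) * v) * v) = fun t : ℝ => v * F' (cz x + (t : ℂ) * v) := by
      funext t; ring
    rw [e]
    refine this.congr_deriv ?_
    ring
  refine iteratedFDeriv_two_of_line (g := fun t => g' (Complex.normSq (F (cz x + (t : ℂ) * v))) *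
    (2 * ((F (cz x + (t : ℂ) * v)).re * (F' (cz x + (t : ℂ) * v) * v).re +
      (F (cz x + (t : ℂ) * v)).im * (F' (cz x + (t : ℂ) * v) * v).im))) hC ?_ ?_
  · have hcont : Tendsto (fun t : ℝ => Complex.normSq (F (cz x + (t : ℂ) * v))) (𝓝 0)
        (𝓝 (Complex.normSq (F (cz x)))) := by
      have := (cs_normSq (hA 0)).continuousAt.tendsto
      simpa using this
    filter_upwards [hcont.eventually hg] with t ht
    have h1 := ht.comp t (cs_normSq (hA t))
    have h2 : (fun t : ℝ => g (Complex.normSq (F (cz (x + t • w))))) =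
        g ∘ fun t : ℝ => Complex.normSq (F (cz x + (t : ℂ) * v)) := by
      funext t
      simp only [Function.comp_apply, hw]
    rw [h2]
    exact h1
  · have h0 : (fun t : ℝ => Complex.normSq (F (cz x + (t : ℂ) * v))) 0 = Complex.normSq (F (cz x)) := by
      simp
    have hg2 : HasDerivAt g' (g'' (Complex.normSq (F (cz x))))
        ((fun t : ℝ => Complex.normSq (F (cz x + (t : ℂ) * v))) 0) := by rw [h0]; exact hg'
    have h1 := hg2.comp 0 (cs_normSq (hA 0))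
    have h2 := ((((cs_re (hA 0)).mul (cs_re (hA' 0))).add ((cs_im (hA 0)).mul (cs_im (hA' 0)))).const_mul 2)
    have h3 := h1.mul h2
    refine h3.congr_deriv ?_
    simp
    ring

/-- Laplacian of `φ (|F z|^2)` for holomorphic `F` -/
theorem lap_holo {F F' F'' : ℂ → ℂ} (hF : ∀ z, HasDerivAt F (F' z) z)
    (hF' : ∀ z, HasDerivAt F' (F'' z) z) {g g' g'' : ℝ → ℝ} (x : Eu 2)
    (hg : ∀ᶠ r in 𝓝 (Complex.normSq (F (cz x))), HasDerivAt g (g' r) r)
    (hg' : HasDerivAt g' (g'' (Complex.normSq (F (cz x)))) (Complex.normSq (F (cz x))))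
    (hC : ContDiffAt ℝ 2 (fun y : Eu 2 => g (Complex.normSq (F (cz y)))) x) :
    lap (fun y : Eu 2 => g (Complex.normSq (F (cz y)))) x =
      4 * Complex.normSq (F' (cz x)) * (g' (Complex.normSq (F (cz x))) +
        Complex.normSq (F (cz x)) * g'' (Complex.normSq (F (cz x)))) := by
  unfold lap
  rw [Fin.sum_univ_two,
    cs_dir hF hF' x (EuclideanSpace.single 0 (1 : ℝ)) 1 (by
      intro t
      apply Complex.ext <;> simp [cz]) hg hg' hC,
    cs_dir hF hF' x (EuclideanSpace.single 1 (1 : ℝ)) Complex.I (by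
      intro t
      apply Complex.ext <;> simp [cz]) hg hg' hC]
  generalize g' (Complex.normSq (F (cz x))) = p
  generalize g'' (Complex.normSq (F (cz x))) = q
  rw [Complex.normSq_apply, Complex.normSq_apply]
  simp only [Complex.mul_re, Complex.mul_im, Complex.I_re, Complex.I_im, Complex.one_re, Complex.one_im]
  ring

theorem contDiff_Pn {n : WithTop ℕ∞} : ContDiff ℝ n Pn := by
  have h0 : ∀ i : Fin 2, ContDiff ℝ n (fun x : Eu 2 => x i) := fun i =>
    (EuclideanSpace.proj (𝕜 := ℝ) i : Eu 2 →L[ℝ] ℝ).contDiff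
  have hcz : ContDiff ℝ n (fun x : Eu 2 => cz x) := by
    have e : (fun x : Eu 2 => cz x) = fun x : Eu 2 => Complex.ofRealCLM (x 0) + Complex.ofRealCLM (x 1) * Complex.I := by
      funext x
      apply Complex.ext <;> simp [cz]
    rw [e]
    exact (Complex.ofRealCLM.contDiff.comp (h0 0)).add
      ((Complex.ofRealCLM.contDiff.comp (h0 1)).mul contDiff_const)
  have h1 : ContDiff ℝ n (fun x : Eu 2 => (cz x) ^ 100 - 1) := (hcz.pow 100).sub contDiff_const
  have hre : ContDiff ℝ n (fun x : Eu 2 => ((cz x) ^ 100 - 1).re) := Complex.reCLM.contDiff.comp h1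
  have him : ContDiff ℝ n (fun x : Eu 2 => ((cz x) ^ 100 - 1).im) := Complex.imCLM.contDiff.comp h1
  have e : Pn = fun x : Eu 2 => ((cz x) ^ 100 - 1).re * ((cz x) ^ 100 - 1).re +
      ((cz x) ^ 100 - 1).im * ((cz x) ^ 100 - 1).im := by
    funext x
    rw [Pn, Complex.normSq_apply]
  rw [e]
  exact (hre.mul hre).add (him.mul him)

theorem cs_g (r : ℝ) (hr : 0 < 1 + (r / 25) ^ 100) :
    HasDerivAt (fun r : ℝ => Real.log (1 + (r / 25) ^ 100))
      (4 * (r / 25) ^ 99 / (1 + (r / 25) ^ 100)) r := by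
  have h1 : HasDerivAt (fun r : ℝ => r / 25) (1 / 25) r := (hasDerivAt_id r).div_const 25
  have h2 := ((h1.pow 100).const_add 1).log hr.ne'
  refine h2.congr_deriv ?_
  norm_num
  ring

theorem cs_g' (r : ℝ) (hr : 0 < 1 + (r / 25) ^ 100) :
    HasDerivAt (fun r : ℝ => 4 * (r / 25) ^ 99 / (1 + (r / 25) ^ 100))
      ((4 * 99 * (r / 25) ^ 98 / 25 * (1 + (r / 25) ^ 100) - 4 * (r / 25) ^ 99 * (4 * (r / 25) ^ 99)) /
        (1 + (r / 25) ^ 100) ^ 2) r := by
  have h1 : HasDerivAt (fun r : ℝ => r / 25) (1 / 25) r := (hasDerivAt_id r).div_const 25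
  have h2 := ((h1.pow 99).const_mul 4).div ((h1.pow 100).const_add 1) hr.ne'
  refine h2.congr_deriv ?_
  norm_num
  ring

theorem cs_pos (r : ℝ) : 0 < 1 + (r / 25) ^ 100 := by
  have : 0 ≤ (r / 25) ^ 100 := Even.pow_nonneg (by decide) _
  linarith

theorem lap_logP (x : Eu 2) :
    lap (fun y : Eu 2 => Real.log (1 + (Pn y / 25) ^ 100)) x =
      4 * 10 ^ 8 * (‖x‖ ^ 2 * Pn x) ^ 99 / 25 ^ 100 / (1 + (Pn x / 25) ^ 100) ^ 2 := by
  have hF : ∀ z : ℂ, HasDerivAt (fun z : ℂ => z ^ 100 - 1) ((fun z : ℂ => 100 * z ^ 99) z) z := by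
    intro z
    have := (hasDerivAt_pow 100 z).sub_const 1
    simpa using this
  have hF' : ∀ z : ℂ, HasDerivAt (fun z : ℂ => 100 * z ^ 99) ((fun z : ℂ => 9900 * z ^ 98) z) z := by
    intro z
    have := (hasDerivAt_pow 99 z).const_mul (100 : ℂ)
    refine this.congr_deriv ?_
    norm_num
    ring
  have hC : ContDiffAt ℝ 2 (fun y : Eu 2 => Real.log (1 + (Complex.normSq ((cz y) ^ 100 - 1) / 25) ^ 100)) x := by
    have h1 : ContDiff ℝ 2 (fun y : Eu 2 => 1 + (Pn y / 25) ^ 100) :=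
      contDiff_const.add ((contDiff_Pn.div_const 25).pow 100)
    exact (h1.log fun y => (cs_pos _).ne').contDiffAt
  have h := lap_holo hF hF' (g := fun r : ℝ => Real.log (1 + (r / 25) ^ 100))
    (g' := fun r : ℝ => 4 * (r / 25) ^ 99 / (1 + (r / 25) ^ 100))
    (g'' := fun r : ℝ => (4 * 99 * (r / 25) ^ 98 / 25 * (1 + (r / 25) ^ 100) - 4 * (r / 25) ^ 99 * (4 * (r / 25) ^ 99)) /
        (1 + (r / 25) ^ 100) ^ 2) x (Eventually.of_forall fun r => cs_g r (cs_pos r))
    (cs_g' _ (cs_pos _)) hC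
  have e1 : (fun y : Eu 2 => Real.log (1 + (Pn y / 25) ^ 100)) =
      fun y : Eu 2 => Real.log (1 + (Complex.normSq ((cz y) ^ 100 - 1) / 25) ^ 100) := rfl
  rw [e1, h]
  have e2 : Complex.normSq (100 * cz x ^ 99) = 10 ^ 4 * (‖x‖ ^ 2) ^ 99 := by
    rw [map_mul, map_pow]
    have e3 : Complex.normSq (cz x) = ‖x‖ ^ 2 := by
      rw [EuclideanSpace.real_norm_sq_eq, Fin.sum_univ_two, Complex.normSq_apply, cz]
      ring
    rw [e3]
    congr 1
    norm_num [Complex.normSq_apply]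
  have e4 : Complex.normSq ((cz x) ^ 100 - 1) = Pn x := rfl
  simp only [e4]
  rw [e2]
  generalize hD : 1 + (Pn x / 25) ^ 100 = D
  have hDp : 0 < D := hD ▸ cs_pos (Pn x)
  have e5 : 4 * (Pn x / 25) ^ 99 / D + Pn x * ((4 * 99 * (Pn x / 25) ^ 98 / 25 * D -
      4 * (Pn x / 25) ^ 99 * (4 * (Pn x / 25) ^ 99)) / D ^ 2) = 400 * (Pn x / 25) ^ 99 / D ^ 2 := by
    have e6 : 4 * (Pn x / 25) ^ 99 / D = 4 * (Pn x / 25) ^ 99 * D / D ^ 2 := by
      field_simp
    have e7 : (Pn x / 25) ^ 100 = D - 1 := by linarith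
    rw [e6, ← mul_div_assoc, ← add_div]
    congr 1
    have e8 : Pn x * (4 * 99 * (Pn x / 25) ^ 98 / 25 * D - 4 * (Pn x / 25) ^ 99 * (4 * (Pn x / 25) ^ 99)) =
        396 * (Pn x / 25) ^ 99 * D - 400 * (Pn x / 25) ^ 99 * (Pn x / 25) ^ 100 := by
      ring
    rw [e8, e7]
    ring
  rw [e5, mul_pow, div_pow (Pn x) 25 99]
  generalize Pn x = P
  generalize ‖x‖ ^ 2 = N
  field_simp
  ring

end Pool.Agent.H314.CS
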