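import Pool.Agent.H314.CS.SubA
import Pool.Agent.H314.CS.Geo
import Pool.Agent.H314.CS.Nonl
import Pool.Agent.H314.CS.Holo

set_option autoImplicit false
open Filter Topology Set Metric

namespace Pool.Agent.H314.CS

open Pool.Agent.H314.Dir


theorem h4_pos {x : Eu 2} (h0 : 0 < rk 0 x) (h1 : 0 < Pn x) : 0 < Ef x := by
  rw [Ef_pos_iff]
  intro k
  have hp : 0 < ∏ k, rk k x := by
    rw [prod_rk]
    exact mul_pos h0 h1
  refine lt_of_le_of_ne (rk_nonneg k x) fun hk => ?_
  have := Finset.prod_eq_zero (Finset.mem_univ k) hk.symm (f := fun k => rk k x)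
  linarith

theorem om_eq {x : Eu 2} (hx : 0 < Ef x) :
    om x = 99 * Real.log (Ef x) + (2 * Real.log (1 + (Pn x / 25) ^ 100) + 200 * Real.log 5 -
      Real.log 8 - 99 * (Real.log (rk 0 x) + Real.log (Pn x))) := by
  have hk := (Ef_pos_iff x).1 hx
  have h1 : 0 < ∏ k, rk k x := Finset.prod_pos fun k _ => hk k
  have hP : 0 < Pn x := by
    rw [prod_rk] at h1
    exact (pos_iff_pos_of_mul_pos h1).1 (hk 0)
  have h2 : ∑ k, Real.log (rk k x) = Real.log (rk 0 x) + Real.log (Pn x) := by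
    rw [← Real.log_prod (fun k _ => (hk k).ne'), prod_rk, Real.log_mul (hk 0).ne' hP.ne']
  have h3 := log_Ef hx
  rw [Finset.sum_sub_distrib, h2] at h3
  unfold om
  linarith

theorem h4_norm (x : Eu 2) : ‖x‖ ^ 2 = rk 0 x := by
  rw [rk_eq, pc_zero, sub_zero, Complex.normSq_apply, EuclideanSpace.real_norm_sq_eq,
    Fin.sum_univ_two]
  simp only [cz]
  ring

theorem h4_exp (x : Eu 2) : (Ef x) ^ 99 * Real.exp (-(om x)) =
    8 * (rk 0 x * Pn x) ^ 99 / 25 ^ 100 / (1 + (Pn x / 25) ^ 100) ^ 2 := by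
  have hA := cs_pos (Pn x)
  have hprod : 0 < ∏ k, (rk k x + mu) := Finset.prod_pos fun k _ => rkmu_pos k x
  have h1 : Real.exp (-(om x)) = 8 * (∏ k, (rk k x + mu)) ^ 99 / 5 ^ 200 /
      (1 + (Pn x / 25) ^ 100) ^ 2 := by
    have e1 : -(om x) = Real.log (8 * (∏ k, (rk k x + mu)) ^ 99 / 5 ^ 200 /
      (1 + (Pn x / 25) ^ 100) ^ 2) := by
      rw [Real.log_div (by positivity) (by positivity), Real.log_div (by positivity) (by positivity),
        Real.log_mul (by norm_num) (by positivity), Real.log_pow, Real.log_pow, Real.log_pow,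
        Real.log_prod (fun k _ => (rkmu_pos k x).ne')]
      unfold om
      push_cast
      ring
    rw [e1, Real.exp_log (by positivity)]
  have h2 : Ef x * ∏ k, (rk k x + mu) = rk 0 x * Pn x := by
    rw [← prod_rk]
    unfold Ef
    rw [← Finset.prod_mul_distrib]
    exact Finset.prod_congr rfl fun k _ => div_mul_cancel₀ _ (rkmu_pos k x).ne'
  rw [h1, ← h2]
  have h3 : (25 : ℝ) ^ 100 = 5 ^ 200 := by norm_num
  rw [h3]
  ring

theorem om_sub (x : Eu 2) : SubPc bf om x := by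
  have c1 : ContDiff ℝ 2 (fun y : Eu 2 => Real.log (1 + (Pn y / 25) ^ 100)) :=
    (contDiff_const.add ((contDiff_Pn.div_const 25).pow 100)).log fun y => (cs_pos (Pn y)).ne'
  have c2 : ContDiff ℝ 2 (fun y : Eu 2 => ∑ k, Real.log (rk k y + mu)) :=
    ContDiff.sum fun k _ => contDiff_logmu k
  have c3 : ContDiff ℝ 2 (fun y : Eu 2 => 2 * Real.log (1 + (Pn y / 25) ^ 100)) :=
    contDiff_const.mul c1
  have c4 : ContDiff ℝ 2 (fun y : Eu 2 => 2 * Real.log (1 + (Pn y / 25) ^ 100) +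
      (200 * Real.log 5 - Real.log 8)) := c3.add contDiff_const
  have c5 : ContDiff ℝ 2 (fun y : Eu 2 => 99 * ∑ k, Real.log (rk k y + mu)) :=
    contDiff_const.mul c2
  have e0 : om = fun y : Eu 2 => (2 * Real.log (1 + (Pn y / 25) ^ 100) +
      (200 * Real.log 5 - Real.log 8)) - 99 * ∑ k, Real.log (rk k y + mu) := by
    funext y
    unfold om
    ring
  have hC : ContDiff ℝ 2 om := by
    rw [e0]
    exact c4.sub c5
  have hl : lap om x = 2 * (4 * 10 ^ 8 * (‖x‖ ^ 2 * Pn x) ^ 99 / 25 ^ 100 /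
      (1 + (Pn x / 25) ^ 100) ^ 2) - qf x := by
    rw [e0, lap_sub c4.contDiffAt c5.contDiffAt, lap_add c3.contDiffAt contDiffAt_const,
      lap_const_mul 2 c1.contDiffAt, lap_const, lap_logP, lap_const_mul 99 c2.contDiffAt,
      lap_sum Finset.univ (fun k (y : Eu 2) => Real.log (rk k y + mu)) x
        (fun k _ => (contDiff_logmu k).contDiffAt)]
    simp only [lap_logmu]
    unfold qf
    rw [Finset.mul_sum, add_zero]
    congr 1
    exact Finset.sum_congr rfl fun k _ => by ring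
  refine ⟨hC.contDiffAt, ?_⟩
  rw [hl, h4_norm]
  unfold bf
  rw [h4_exp]
  have h1 : 0 ≤ (8 * (rk 0 x * Pn x) ^ 99 / 25 ^ 100 / (1 + (Pn x / 25) ^ 100) ^ 2) ^ 2 :=
    sq_nonneg _
  have h2 : 2 * (4 * 10 ^ 8 * (rk 0 x * Pn x) ^ 99 / 25 ^ 100 / (1 + (Pn x / 25) ^ 100) ^ 2) =
      10 ^ 8 * (8 * (rk 0 x * Pn x) ^ 99 / 25 ^ 100 / (1 + (Pn x / 25) ^ 100) ^ 2) := by ring
  rw [h2]
  linarith

theorem om_lt {x : Eu 2} (hx : Pn x = 25) : om x < LA x := by
  have h1 := rk0_ge hx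
  have h0 : 0 < rk 0 x := by
    refine lt_of_le_of_ne (rk_nonneg 0 x) fun h => ?_
    rw [← h] at h1
    norm_num at h1
  have hE : 0 < Ef x := h4_pos h0 (by rw [hx]; norm_num)
  refine lt_of_lt_of_le ?_ (logE_le_LA hE)
  rw [om_eq hE, hx]
  have h2 : 2 * Real.log 2 ≤ 50 * Real.log (rk 0 x) := by
    have e1 : Real.log ((rk 0 x) ^ 50) = 50 * Real.log (rk 0 x) := by
      rw [Real.log_pow]
      norm_num
    have e2 : Real.log 4 = 2 * Real.log 2 := by
      rw [show (4 : ℝ) = 2 ^ 2 by norm_num, Real.log_pow]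
      norm_num
    rw [← e1, ← e2]
    exact Real.log_le_log (by norm_num) h1
  have h3 : 100 * Real.log 5 < 248 * Real.log 2 := by
    have e1 : Real.log ((5 : ℝ) ^ 100) = 100 * Real.log 5 := by
      rw [Real.log_pow]
      norm_num
    have e2 : Real.log ((2 : ℝ) ^ 248) = 248 * Real.log 2 := by
      rw [Real.log_pow]
      norm_num
    rw [← e1, ← e2]
    exact Real.log_lt_log (by positivity) (by norm_num)
  have h4 : Real.log 8 = 3 * Real.log 2 := by
    rw [show (8 : ℝ) = 2 ^ 3 by norm_num, Real.log_pow]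
    norm_num
  have h5 : Real.log 25 = 2 * Real.log 5 := by
    rw [show (25 : ℝ) = 5 ^ 2 by norm_num, Real.log_pow]
    norm_num
  have h6 : (1 + ((25 : ℝ) / 25) ^ 100) = 2 := by norm_num
  rw [h4, h5, h6]
  linarith

theorem LB_sub (x : Eu 2) : LocSub bf LB x := by
  obtain ⟨f, g, hf, hg, hev⟩ := LA_two x
  have hPc : ContinuousAt Pn x := (contDiff_Pn (n := 2)).continuous.continuousAt
  rcases lt_trichotomy (Pn x) 25 with h | h | h
  · refine ⟨om, f, g, om_sub x, hf, hg, ?_⟩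
    filter_upwards [hev, hPc.eventually_lt continuousAt_const h] with y hy hy2
    unfold LB
    rw [if_pos hy2, hy]
  · refine ⟨f, g, g, hf, hg, hg, ?_⟩
    have h1 : om x < max (f x) (g x) := by
      rw [← hev.self_of_nhds]
      exact om_lt h
    have hoc : ContinuousAt om x := (om_sub x).1.continuousAt
    have hmc : ContinuousAt (fun y => max (f y) (g y)) x :=
      hf.1.continuousAt.max hg.1.continuousAt
    filter_upwards [hev, hoc.eventually_lt hmc h1] with y hy hy2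
    have h2 : LB y = LA y := by
      unfold LB
      split_ifs
      · rw [hy]
        exact max_eq_right hy2.le
      · rfl
    rw [h2, hy, max_self]
  · refine ⟨f, g, g, hf, hg, hg, ?_⟩
    filter_upwards [hev, continuousAt_const.eventually_lt hPc h] with y hy hy2
    unfold LB
    rw [if_neg (not_lt.2 hy2.le), hy, max_self]

theorem LB_lower (x : Eu 2) : -138 ≤ LB x := by
  unfold LB
  split_ifs
  · exact (LA_lower x).trans (le_max_right _ _)
  · exact LA_lower x

theorem LB_half : 99 * Real.log (Ef !₂[(1 / 2 : ℝ), (0 : ℝ)]) + 1 ≤ LB !₂[(1 / 2 : ℝ), (0 : ℝ)] := by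
  set x : Eu 2 := !₂[(1 / 2 : ℝ), (0 : ℝ)] with hx
  have hcz : cz x = ((1 / 2 : ℝ) : ℂ) := by
    apply Complex.ext
    · simp [cz, hx]
    · simp [cz, hx]
  have hP : Pn x = ((1 / 2 : ℝ) ^ 100 - 1) ^ 2 := by
    unfold Pn
    rw [hcz]
    have : (((1 / 2 : ℝ) : ℂ)) ^ 100 - 1 = (((1 / 2 : ℝ) ^ 100 - 1 : ℝ) : ℂ) := by
      push_cast
      ring
    rw [this, Complex.normSq_ofReal]
    ring
  have h0 : rk 0 x = 1 / 4 := by
    rw [rk_eq, pc_zero, sub_zero, hcz, Complex.normSq_ofReal]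
    norm_num
  have hP0 : 0 < Pn x := by
    rw [hP]
    norm_num
  have hP1 : Pn x ≤ 1 := by
    rw [hP]
    norm_num
  have hE : 0 < Ef x := h4_pos (by rw [h0]; norm_num) hP0
  have h1 : om x ≤ LB x := by
    unfold LB
    rw [if_pos (by linarith)]
    exact le_max_left _ _
  refine le_trans ?_ h1
  rw [om_eq hE, h0]
  have h2 : 0 ≤ Real.log (1 + (Pn x / 25) ^ 100) := by
    refine Real.log_nonneg ?_
    have : 0 ≤ (Pn x / 25) ^ 100 := by positivity
    linarith
  have h3 : Real.log (Pn x) ≤ 0 := Real.log_nonpos hP0.le hP1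
  have h4 : Real.log 8 = 3 * Real.log 2 := by
    rw [show (8 : ℝ) = 2 ^ 3 by norm_num, Real.log_pow]
    norm_num
  have h5 : Real.log (1 / 4) = -(2 * Real.log 2) := by
    rw [show (1 / 4 : ℝ) = (2 ^ 2)⁻¹ by norm_num, Real.log_inv, Real.log_pow]
    norm_num
  have h6 : 0 ≤ Real.log 5 := Real.log_nonneg (by norm_num)
  have h7 := Real.log_two_gt_d9
  rw [h4, h5]
  linarith

end Pool.Agent.H314.CS
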