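import Mathlib

set_option autoImplicit false

namespace Pool.Agent.H314.CS

theorem ineq_core (f y Y : ℝ) (hf : 0 < f) (hf2 : f ≤ 10 ^ 7) (hy : 0 ≤ y)
    (hy2 : y ≤ 1 / 10 ^ 11) (h1 : 1 + y ≤ Y) (h2 : Y * (1 - y) ≤ 1) :
    93 / 100 * (f / (1 + f) ^ 2 + y) ≤ ((1 + f) * Y)⁻¹ - (((1 + f) * Y)⁻¹) ^ 2 := by
  have hY0 : 0 < Y := by linarith
  have hY1 : Y ≤ 1 + 2 / 10 ^ 11 := by
    by_contra hcon
    push Not at hcon
    have h3 : (1 + 2 / 10 ^ 11 : ℝ) * (1 - y) ≤ Y * (1 - y) := by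
      apply mul_le_mul_of_nonneg_right hcon.le
      norm_num at hy2 ⊢
      linarith
    norm_num at hy2 h3
    nlinarith
  have hY2 : Y ^ 2 ≤ 1 + 1 / 10 ^ 10 := by
    have : Y ^ 2 ≤ (1 + 2 / 10 ^ 11) ^ 2 := pow_le_pow_left₀ hY0.le hY1 2
    refine this.trans ?_
    norm_num
  have hX : (((1 + f) * Y)⁻¹ - (((1 + f) * Y)⁻¹) ^ 2) = ((1 + f) * Y - 1) / ((1 + f) ^ 2 * Y ^ 2) := by
    have h3 : (1 + f) ≠ 0 := by positivity
    field_simp
  rw [hX]
  have hnum : f + y * (1 + f) ≤ (1 + f) * Y - 1 := by nlinarith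
  have hden : 0 < (1 + f) ^ 2 * Y ^ 2 := by positivity
  rw [le_div_iff₀ hden]
  refine le_trans ?_ hnum
  have hL : 93 / 100 * (f / (1 + f) ^ 2 + y) * ((1 + f) ^ 2 * Y ^ 2) =
      93 / 100 * Y ^ 2 * (f + y * (1 + f) ^ 2) := by
    have h3 : (1 + f) ≠ 0 := by positivity
    field_simp
  rw [hL]
  have h4 : 0 ≤ f + y * (1 + f) ^ 2 := by positivity
  have h5 : 93 / 100 * Y ^ 2 ≤ 94 / 100 := by
    norm_num at hY2 ⊢
    linarith
  refine (mul_le_mul_of_nonneg_right h5 h4).trans ?_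
  rcases le_total f (1 / 100) with h6 | h6
  · have h7 : (94 / 100) * (y * (1 + f) ^ 2) ≤ y * (1 + f) := by
      have h8 : (94 / 100) * (1 + f) ≤ 1 := by linarith
      have h9 : 0 ≤ y * (1 + f) := by positivity
      nlinarith
    nlinarith
  · have h7 : (1 + f) ^ 2 ≤ (102 + 10 ^ 7) * f := by nlinarith
    have h8 : y * (1 + f) ^ 2 ≤ 1 / 10 ^ 11 * ((102 + 10 ^ 7) * f) := by
      apply mul_le_mul hy2 h7 (by positivity) (by positivity)
    have h9 : 0 ≤ y * (1 + f) := by positivity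
    norm_num at h8
    nlinarith

theorem ineq_prod_low {ι : Type*} [DecidableEq ι] (s : Finset ι) (φ : ι → ℝ) (h0 : ∀ k ∈ s, 0 ≤ φ k) :
    1 + ∑ k ∈ s, φ k ≤ ∏ k ∈ s, (1 + φ k) := by
  induction s using Finset.induction_on with
  | empty => simp
  | insert a s ha ih =>
    rw [Finset.sum_insert ha, Finset.prod_insert ha]
    have h1 := ih (fun k hk => h0 k (Finset.mem_insert_of_mem hk))
    have h2 := h0 a (Finset.mem_insert_self a s)
    have h3 : 0 ≤ ∑ k ∈ s, φ k := Finset.sum_nonneg (fun k hk => h0 k (Finset.mem_insert_of_mem hk))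
    nlinarith

/-- the algebraic inequality behind the supersolution -/
theorem ineq_out {ι : Type*} [Fintype ι] [DecidableEq ι] (hcard : Fintype.card ι ≤ 101) (φ : ι → ℝ)
    (j : ι) (h0 : ∀ k, 0 < φ k) (hj : φ j ≤ 10 ^ 7) (hk : ∀ k, k ≠ j → φ k ≤ 1 / 10 ^ 13) :
    93 / 100 * ∑ k, φ k / (1 + φ k) ^ 2 ≤
      (∏ k, (1 + φ k))⁻¹ - ((∏ k, (1 + φ k))⁻¹) ^ 2 := by
  set s : Finset ι := Finset.univ.erase j with hs
  have hsum := Finset.add_sum_erase Finset.univ (fun k => φ k / (1 + φ k) ^ 2) (Finset.mem_univ j)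
  have hprod := Finset.mul_prod_erase Finset.univ (fun k => 1 + φ k) (Finset.mem_univ j)
  rw [← hsum, ← hprod]
  have hcs : s.card ≤ 100 := by
    rw [hs, Finset.card_erase_of_mem (Finset.mem_univ j), Finset.card_univ]
    omega
  have hy : ∑ k ∈ s, φ k ≤ 1 / 10 ^ 11 := by
    have h1 : ∑ k ∈ s, φ k ≤ s.card • (1 / 10 ^ 13 : ℝ) :=
      Finset.sum_le_card_nsmul _ _ _ (fun k hk' => hk k (Finset.ne_of_mem_erase hk'))
    have h2 : (s.card : ℝ) ≤ 100 := by exact_mod_cast hcs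
    rw [nsmul_eq_mul] at h1
    have h3 : (s.card : ℝ) * (1 / 10 ^ 13) ≤ 100 * (1 / 10 ^ 13) := by
      apply mul_le_mul_of_nonneg_right h2 (by positivity)
    refine h1.trans (h3.trans ?_)
    norm_num
  have hy0 : 0 ≤ ∑ k ∈ s, φ k := Finset.sum_nonneg (fun k _ => (h0 k).le)
  have hlow := ineq_prod_low s φ (fun k _ => (h0 k).le)
  have hup : (∏ k ∈ s, (1 + φ k)) * (1 - ∑ k ∈ s, φ k) ≤ 1 := by
    have h1 : ∏ k ∈ s, (1 + φ k) ≤ Real.exp (∑ k ∈ s, φ k) := by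
      rw [Real.exp_sum]
      apply Finset.prod_le_prod
      · intro k _
        have := h0 k
        linarith
      · intro k _
        have := Real.add_one_le_exp (φ k)
        linarith
    have h2 : 1 - ∑ k ∈ s, φ k ≤ Real.exp (-(∑ k ∈ s, φ k)) := by
      have := Real.add_one_le_exp (-(∑ k ∈ s, φ k))
      linarith
    have h3 : 0 ≤ 1 - ∑ k ∈ s, φ k := by
      norm_num at hy
      linarith
    calc _ ≤ Real.exp (∑ k ∈ s, φ k) * Real.exp (-(∑ k ∈ s, φ k)) :=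
          mul_le_mul h1 h2 h3 (Real.exp_nonneg _)
      _ = 1 := by rw [← Real.exp_add]; simp
  have hcore := ineq_core (φ j) (∑ k ∈ s, φ k) (∏ k ∈ s, (1 + φ k)) (h0 j) hj hy0 hy hlow hup
  refine le_trans ?_ hcore
  have h9 : ∑ k ∈ s, φ k / (1 + φ k) ^ 2 ≤ ∑ k ∈ s, φ k := by
    apply Finset.sum_le_sum
    intro k _
    have h1 := h0 k
    rw [div_le_iff₀ (by positivity)]
    nlinarith [mul_pos h1 h1, mul_pos (mul_pos h1 h1) h1]
  have h10 : φ j / (1 + φ j) ^ 2 + ∑ k ∈ s, φ k / (1 + φ k) ^ 2 ≤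
      φ j / (1 + φ j) ^ 2 + ∑ k ∈ s, φ k := by linarith
  linarith

end Pool.Agent.H314.CS
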