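import Pool.Agent.H314.CS.SubA
import Pool.Agent.H314.CS.Geo
import Pool.Agent.H314.CS.Nonl
import Pool.Agent.H314.CS.Ineq

set_option autoImplicit false
open Filter Topology Set Metric

namespace Pool.Agent.H314.CS

open Pool.Agent.H314.Dir

theorem a2_pos : 0 < a2 := by unfold a2; norm_num

theorem rk_unique {j k : Fin 101} {x : Eu 2} (hj : rk j x ≤ a2) (hk : rk k x ≤ a2) : j = k := by
  by_contra h
  rcases le_total (rk j x) (rk k x) with h1 | h1
  · have := far h x h1
    unfold a2 at hk; linarith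
  · have := far (Ne.symm h) x h1
    unfold a2 at hj; linarith

theorem inn_eq {j : Fin 101} {x : Eu 2} (hx : ∀ k, 0 < rk k x) :
    inn j x = 99 * Real.log (Ef x) + (Real.log 6 + 99 * (Real.log a2 - Real.log (rk j x))) := by
  rw [log_Ef ((Ef_pos_iff x).2 hx), inn, ← Finset.add_sum_erase Finset.univ _ (Finset.mem_univ j)]
  ring

theorem others_far {j : Fin 101} {x : Eu 2} (hx : rk j x ≤ a2) {k : Fin 101} (hk : k ≠ j) :
    98596 / 10 ^ 8 ≤ rk k x := by
  rcases le_total (rk j x) (rk k x) with h1 | h1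
  · exact far (Ne.symm hk) x h1
  · have := far hk x h1
    unfold a2 at hx
    exfalso; linarith

theorem pow_generic {E w : ℝ} (hE : 0 < E) (hw : w = 99 * Real.log E) : E ^ 99 * Real.exp (-w) = 1 := by
  have h1 : (99 : ℝ) * Real.log E = Real.log (E ^ 99) := by rw [Real.log_pow]; norm_num
  rw [hw, h1, Real.exp_neg, Real.exp_log (pow_pos hE 99)]
  exact mul_inv_cancel₀ (pow_pos hE 99).ne'

theorem inn_sup {j : Fin 101} {x : Eu 2} (hx : rk j x ≤ a2) : SupPc bf (inn j) x := by
  have hfar : ∀ k ∈ Finset.univ.erase j, 0 < rk k x := fun k hk => by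
    have := others_far hx (Finset.ne_of_mem_erase hk)
    linarith
  have hc1 : ContDiffAt ℝ 2 (fun y : Eu 2 => ∑ k ∈ Finset.univ.erase j,
      (Real.log (rk k y) - Real.log (rk k y + mu))) x :=
    ContDiffAt.sum fun k hk => (contDiffAt_log k (hfar k hk)).sub (contDiff_logmu k).contDiffAt
  have hc2 : ContDiffAt ℝ 2 (fun y : Eu 2 => 99 * ∑ k ∈ Finset.univ.erase j,
      (Real.log (rk k y) - Real.log (rk k y + mu))) x := contDiffAt_const.mul hc1
  have hc3 : ContDiffAt ℝ 2 (fun y : Eu 2 => 99 * Real.log (rk j y + mu)) x :=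
    contDiffAt_const.mul (contDiff_logmu j).contDiffAt
  have hc4 : ContDiffAt ℝ 2 (fun y : Eu 2 => Real.log 6 + 99 * Real.log a2 -
      99 * Real.log (rk j y + mu)) x := contDiffAt_const.sub hc3
  refine ⟨hc4.add hc2, ?_⟩
  have hlap : lap (inn j) x = - qf x := by
    have e1 : lap (inn j) x = lap (fun y : Eu 2 => Real.log 6 + 99 * Real.log a2 -
      99 * Real.log (rk j y + mu)) x + lap (fun y : Eu 2 => 99 * ∑ k ∈ Finset.univ.erase j,
      (Real.log (rk k y) - Real.log (rk k y + mu))) x := lap_add hc4 hc2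
    rw [e1, lap_sub contDiffAt_const hc3, lap_const, lap_const_mul _ (contDiff_logmu j).contDiffAt,
      lap_const_mul _ hc1, lap_sum _ _ _ (fun k hk =>
        (contDiffAt_log k (hfar k hk)).sub (contDiff_logmu k).contDiffAt), lap_logmu]
    have e2 : ∀ k ∈ Finset.univ.erase j, lap (fun y : Eu 2 =>
        Real.log (rk k y) - Real.log (rk k y + mu)) x = -(4 * mu / (rk k x + mu) ^ 2) := by
      intro k hk
      rw [lap_sub (contDiffAt_log k (hfar k hk)) (contDiff_logmu k).contDiffAt,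
        lap_log k (hfar k hk), lap_logmu]
      ring
    rw [Finset.sum_congr rfl e2, qf, ← Finset.add_sum_erase Finset.univ _ (Finset.mem_univ j),
      Finset.sum_neg_distrib, mul_neg, Finset.mul_sum]
    have e3 : ∀ k, 99 * (4 * mu / (rk k x + mu) ^ 2) = 396 * mu / (rk k x + mu) ^ 2 := by
      intro k; ring
    simp only [e3]
    ring
  rw [hlap, bf]
  -- the factor
  have hw : 0 ≤ (Ef x) ^ 99 * Real.exp (-(inn j x)) ∧ (Ef x) ^ 99 * Real.exp (-(inn j x)) ≤ 1 := by
    refine ⟨mul_nonneg (pow_nonneg (Ef_nonneg x) 99) (Real.exp_pos _).le, ?_⟩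
    by_cases hz : 0 < rk j x
    · have hall : ∀ k, 0 < rk k x := fun k => by
        by_cases hkj : k = j
        · rw [hkj]; exact hz
        · exact hfar k (Finset.mem_erase.2 ⟨hkj, Finset.mem_univ _⟩)
      rw [inn_eq hall]
      set s := Real.log 6 + 99 * (Real.log a2 - Real.log (rk j x)) with hs
      have hs0 : 0 ≤ s := by
        have h1 : Real.log (rk j x) ≤ Real.log a2 := Real.log_le_log hz hx
        have h2 : 0 ≤ Real.log 6 := Real.log_nonneg (by norm_num)
        rw [hs]; linarith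
      have h3 := pow_generic ((Ef_pos_iff x).2 hall) rfl
      rw [neg_add, Real.exp_add, ← mul_assoc, h3, one_mul]
      exact Real.exp_le_one_iff.2 (by linarith)
    · have hE0 : Ef x = 0 := by
        refine le_antisymm (not_lt.1 fun h => hz ((Ef_pos_iff x).1 h j)) (Ef_nonneg x)
      rw [hE0, zero_pow (by norm_num), zero_mul]
      norm_num
  generalize (Ef x) ^ 99 * Real.exp (-(inn j x)) = w at hw
  nlinarith [hw.1, hw.2]

theorem ph_near {k : Fin 101} {x : Eu 2} (hx : a1 ≤ rk k x) : ph k x ≤ 10 ^ 7 := by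
  have h0 : 0 < a1 := by unfold a1; norm_num
  unfold ph
  have h1 : a2 / rk k x ≤ a2 / a1 := div_le_div_of_nonneg_left a2_pos.le h0 hx
  have h2 : (a2 / rk k x) ^ 125 ≤ (a2 / a1) ^ 125 :=
    pow_le_pow_left₀ (div_nonneg a2_pos.le (h0.le.trans hx)) h1 _
  have h3 : 4 * (a2 / a1) ^ 125 ≤ 10 ^ 7 := by unfold a2 a1; norm_num
  linarith

theorem ph_far {k : Fin 101} {x : Eu 2} (hx : 98596 / 10 ^ 8 ≤ rk k x) : ph k x ≤ 1 / 10 ^ 13 := by
  unfold ph
  have h1 : a2 / rk k x ≤ a2 / (98596 / 10 ^ 8) :=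
    div_le_div_of_nonneg_left a2_pos.le (by norm_num) hx
  have h2 : (a2 / rk k x) ^ 125 ≤ (a2 / (98596 / 10 ^ 8)) ^ 125 :=
    pow_le_pow_left₀ (div_nonneg a2_pos.le (by linarith)) h1 _
  have h3 : 4 * (a2 / (98596 / 10 ^ 8)) ^ 125 ≤ 1 / 10 ^ 13 := by unfold a2; norm_num
  linarith

theorem ph_pos {k : Fin 101} {x : Eu 2} (hx : 0 < rk k x) : 0 < ph k x := by
  unfold ph
  have := div_pos a2_pos hx
  positivity

theorem out_sup {x : Eu 2} (hx : ∀ k, a1 ≤ rk k x) : SupPc bf out x := by
  have ha1 : 0 < a1 := by unfold a1; norm_num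
  have hr : ∀ k, 0 < rk k x := fun k => ha1.trans_le (hx k)
  have hE : 0 < Ef x := (Ef_pos_iff x).2 hr
  obtain ⟨h1, h2⟩ := lap_logE hE
  have hc : ∀ k, ContDiffAt ℝ 2 (fun y : Eu 2 => Real.log (1 + ph k y)) x := fun k =>
    contDiffAt_lp k a2 a2_pos 125 (hr k)
  have hcH : ContDiffAt ℝ 2 Ho x := ContDiffAt.sum fun k _ => hc k
  refine ⟨hcH.add h1, ?_⟩
  have hlap : lap out x = ∑ k, 4 * (125 : ℕ) ^ 2 / rk k x * (ph k x / (1 + ph k x) ^ 2) - qf x := by
    have e1 : lap out x = lap Ho x + lap (fun y : Eu 2 => 99 * Real.log (Ef y)) x := lap_add hcH h1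
    have e2 : lap Ho x = ∑ k, lap (fun y : Eu 2 => Real.log (1 + ph k y)) x :=
      lap_sum _ _ _ (fun k _ => hc k)
    rw [e1, e2, h2]
    have e3 : ∀ k, lap (fun y : Eu 2 => Real.log (1 + ph k y)) x =
        4 * (125 : ℕ) ^ 2 / rk k x * (ph k x / (1 + ph k x) ^ 2) := fun k =>
      lap_lp k a2 a2_pos 125 (hr k)
    simp only [e3]
    ring
  rw [hlap, bf]
  have hw : (Ef x) ^ 99 * Real.exp (-(out x)) = (∏ k, (1 + ph k x))⁻¹ := by
    have h3 := pow_generic hE rfl
    have h4 : out x = Ho x + 99 * Real.log (Ef x) := rfl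
    rw [h4, neg_add_rev, Real.exp_add, ← mul_assoc, h3, one_mul, Ho, Real.exp_neg, Real.exp_sum]
    congr 1
    refine Finset.prod_congr rfl fun k _ => Real.exp_log ?_
    have := ph_pos (hr k)
    linarith
  rw [hw]
  obtain ⟨j, hj⟩ := Finite.exists_min (fun k => rk k x)
  have key := ineq_out (by simp) (fun k => ph k x) j (fun k => ph_pos (hr k)) (ph_near (hx j))
    (fun k hk => ph_far (far (Ne.symm hk) x (hj k)))
  have hsum : ∑ k, 4 * ((125 : ℕ) : ℝ) ^ 2 / rk k x * (ph k x / (1 + ph k x) ^ 2) ≤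
      10 ^ 8 * (93 / 100 * ∑ k, ph k x / (1 + ph k x) ^ 2) := by
    rw [Finset.mul_sum, Finset.mul_sum]
    refine Finset.sum_le_sum fun k _ => ?_
    rw [← mul_assoc]
    refine mul_le_mul_of_nonneg_right ?_ (div_nonneg (ph_pos (hr k)).le (sq_nonneg _))
    rw [div_le_iff₀ (hr k)]
    have := hx k
    unfold a1 at this
    push_cast
    nlinarith
  generalize (∏ k, (1 + ph k x))⁻¹ = w at key
  nlinarith [key, hsum]

theorem inn_lt_out {j : Fin 101} {x : Eu 2} (hx : rk j x = a1) : inn j x < out x := by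
  have ha1 : 0 < a1 := by unfold a1; norm_num
  have hle : rk j x ≤ a2 := by rw [hx]; unfold a1 a2; norm_num
  have hr : ∀ k, 0 < rk k x := fun k => by
    by_cases hkj : k = j
    · rw [hkj, hx]; exact ha1
    · have := others_far hle hkj
      linarith
  rw [inn_eq hr]
  have h4 : out x = Ho x + 99 * Real.log (Ef x) := rfl
  rw [h4, hx]
  have h5 : Real.log (1 + ph j x) ≤ Ho x :=
    Finset.single_le_sum (f := fun k => Real.log (1 + ph k x))
      (fun k _ => Real.log_nonneg (by have := ph_pos (hr k); linarith)) (Finset.mem_univ j)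
  have h6 : Real.log 6 + 99 * (Real.log a2 - Real.log a1) = Real.log (6 * (a2 / a1) ^ 99) := by
    rw [Real.log_mul (by norm_num) (by have := div_pos a2_pos ha1; positivity), Real.log_pow,
      Real.log_div a2_pos.ne' ha1.ne']
    norm_num
  have h7 : 6 * (a2 / a1) ^ 99 < 1 + ph j x := by
    rw [ph, hx]
    unfold a1 a2
    norm_num
  have h8 : Real.log (6 * (a2 / a1) ^ 99) < Real.log (1 + ph j x) :=
    Real.log_lt_log (by have := div_pos a2_pos ha1; positivity) h7
  linarith

theorem out_lt_inn {j : Fin 101} {x : Eu 2} (hx : rk j x = a2) : out x < inn j x := by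
  have hr : ∀ k, 0 < rk k x := fun k => by
    by_cases hkj : k = j
    · rw [hkj, hx]; exact a2_pos
    · have := others_far hx.le hkj
      linarith
  rw [inn_eq hr]
  have h4 : out x = Ho x + 99 * Real.log (Ef x) := rfl
  rw [h4, hx, sub_self, mul_zero, add_zero]
  have h5 : Ho x < Real.log 6 := by
    rw [Ho, ← Finset.add_sum_erase Finset.univ _ (Finset.mem_univ j)]
    have e1 : ph j x = 4 := by rw [ph, hx, div_self a2_pos.ne']; norm_num
    have e2 : ∑ k ∈ Finset.univ.erase j, Real.log (1 + ph k x) ≤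
        ∑ k ∈ Finset.univ.erase j, (1 / 10 ^ 13 : ℝ) := by
      refine Finset.sum_le_sum fun k hk => ?_
      have h1 := Real.log_le_sub_one_of_pos (x := 1 + ph k x) (by have := ph_pos (hr k); linarith)
      have h2 := ph_far (others_far hx.le (Finset.ne_of_mem_erase hk))
      linarith
    rw [Finset.sum_const, Finset.card_erase_of_mem (Finset.mem_univ j)] at e2
    simp only [Finset.card_univ, Fintype.card_fin] at e2
    have e3 : Real.log (1 + ph j x) + 1 / 10 < Real.log 6 := by
      rw [e1]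
      have h3 : Real.log 6 = Real.log (1 + 4) + Real.log (6 / 5) := by
        rw [← Real.log_mul (by norm_num) (by norm_num)]; norm_num
      rw [h3]
      have h4 : 1 / 10 < Real.log (6 / 5) := by
        rw [Real.lt_log_iff_exp_lt (by norm_num)]
        have := Real.exp_bound_div_one_sub_of_interval (x := 1 / 10) (by norm_num) (by norm_num)
        calc Real.exp (1 / 10) ≤ 1 / (1 - 1 / 10) := this
          _ < 6 / 5 := by norm_num
      linarith
    have e4 : ((101 - 1 : ℕ) • (1 / 10 ^ 13 : ℝ)) ≤ 1 / 10 := by norm_num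
    linarith
  linarith

end Pool.Agent.H314.CS
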