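import Pool.Agent.H314.CS.SubA
import Pool.Agent.H314.CS.InnOut
import Pool.Agent.H314.CS.Geo
import Pool.Agent.H314.CS.Nonl

set_option autoImplicit false
open Filter Topology Set Metric

namespace Pool.Agent.H314.CS

open Pool.Agent.H314.Dir


theorem aux833_far {j k : Fin 101} (hjk : k ≠ j) {x : Eu 2} (hx : rk j x < 98596 / 10 ^ 8) :
    (98596 : ℝ) / 10 ^ 8 ≤ rk k x := by
  rcases le_total (rk j x) (rk k x) with h | h
  · exact far hjk.symm x h
  · exact absurd (far hjk x h) (not_le.2 hx)

theorem aux833_a2lt : a2 < 98596 / 10 ^ 8 := by unfold a2; norm_num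

theorem aux833_a1a2 : a1 < a2 := by unfold a1 a2; norm_num

theorem aux833_a1pos : 0 < a1 := by unfold a1; norm_num

theorem aux833_a2pos : 0 < a2 := by unfold a2; norm_num

theorem aux833_far2 {j k : Fin 101} (hjk : k ≠ j) {x : Eu 2} (hx : rk j x ≤ a2) :
    a2 < rk k x :=
  lt_of_lt_of_le aux833_a2lt (aux833_far hjk (lt_of_le_of_lt hx aux833_a2lt))

theorem UA_eq {j : Fin 101} {x : Eu 2} (hx : rk j x ≤ a2) :
    UA x = if rk j x ≤ a1 then inn j x else min (inn j x) (out x) := by
  have h : ∃ j, rk j x ≤ a2 := ⟨j, hx⟩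
  have h1 : h.choose = j := rk_unique h.choose_spec hx
  unfold UA
  rw [dif_pos h, h1]

theorem UA_out {x : Eu 2} (hx : ∀ k, a2 < rk k x) : UA x = out x := by
  unfold UA
  rw [dif_neg]
  rintro ⟨j, hj⟩
  exact absurd (hx j) (not_lt.2 hj)

theorem aux833_cont (k : Fin 101) : Continuous (rk k) := (contDiff_rk (n := 0) k).continuous

theorem aux833_evlt {k : Fin 101} {x : Eu 2} {a : ℝ} (h : rk k x < a) : ∀ᶠ y in 𝓝 x, rk k y < a :=
  (aux833_cont k).continuousAt.eventually (gt_mem_nhds h)

theorem aux833_evgt {k : Fin 101} {x : Eu 2} {a : ℝ} (h : a < rk k x) : ∀ᶠ y in 𝓝 x, a < rk k y :=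
  (aux833_cont k).continuousAt.eventually (lt_mem_nhds h)

theorem UA_loc (x : Eu 2) : LocSup bf UA x := by
  by_cases h : ∃ j, rk j x ≤ a2
  · obtain ⟨j, hj⟩ := h
    have hinn := inn_sup hj
    have hfar : ∀ k, k ≠ j → a1 ≤ rk k x := fun k hk =>
      (aux833_a1a2.trans (aux833_far2 hk hj)).le
    rcases lt_trichotomy (rk j x) a1 with h1 | h1 | h1
    · refine ⟨inn j, inn j, hinn, hinn, ?_⟩
      filter_upwards [aux833_evlt h1] with y hy
      rw [UA_eq (j := j) (hy.le.trans aux833_a1a2.le), if_pos hy.le, min_self]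
    · have hout : SupPc bf out x := out_sup (fun k => by
        by_cases hk : k = j
        · rw [hk, h1]
        · exact hfar k hk)
      refine ⟨inn j, inn j, hinn, hinn, ?_⟩
      have hlt : rk j x < a2 := by rw [h1]; exact aux833_a1a2
      have hc1 : ContinuousAt (inn j) x := hinn.1.continuousAt
      have hc2 : ContinuousAt out x := hout.1.continuousAt
      have hlt2 : ∀ᶠ y in 𝓝 x, inn j y < out y := hc1.eventually_lt hc2 (inn_lt_out h1)
      filter_upwards [aux833_evlt hlt, hlt2] with y hy hy2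
      rw [UA_eq (j := j) hy.le, min_self]
      split_ifs
      · rfl
      · exact min_eq_left hy2.le
    · have hout : SupPc bf out x := out_sup (fun k => by
        by_cases hk : k = j
        · rw [hk]; exact h1.le
        · exact hfar k hk)
      rcases lt_or_eq_of_le hj with h2 | h2
      · refine ⟨inn j, out, hinn, hout, ?_⟩
        filter_upwards [aux833_evlt h2, aux833_evgt h1] with y hy hy2
        rw [UA_eq (j := j) hy.le, if_neg (not_le.2 hy2)]
      · refine ⟨out, out, hout, hout, ?_⟩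
        have hc1 : ContinuousAt (inn j) x := hinn.1.continuousAt
        have hc2 : ContinuousAt out x := hout.1.continuousAt
        have hlt2 : ∀ᶠ y in 𝓝 x, out y < inn j y := hc2.eventually_lt hc1 (out_lt_inn h2)
        have hlt3 : rk j x < 98596 / 10 ^ 8 := by rw [h2]; exact aux833_a2lt
        filter_upwards [aux833_evlt hlt3, aux833_evgt h1, hlt2] with y hy hy2 hy3
        rw [min_self]
        rcases le_or_gt (rk j y) a2 with h4 | h4
        · rw [UA_eq (j := j) h4, if_neg (not_le.2 hy2), min_eq_right hy3.le]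
        · refine UA_out (fun k => ?_)
          by_cases hk : k = j
          · rw [hk]; exact h4
          · exact lt_of_lt_of_le aux833_a2lt (aux833_far hk hy)
  · push Not at h
    have hout : SupPc bf out x := out_sup (fun k => (aux833_a1a2.trans (h k)).le)
    refine ⟨out, out, hout, hout, ?_⟩
    have hev : ∀ᶠ y in 𝓝 x, ∀ k, a2 < rk k y :=
      Filter.eventually_all.2 (fun k => aux833_evgt (h k))
    filter_upwards [hev] with y hy
    rw [min_self, UA_out hy]

theorem Ho_nonneg (x : Eu 2) : 0 ≤ Ho x := by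
  refine Finset.sum_nonneg (fun k _ => Real.log_nonneg ?_)
  have : 0 ≤ ph k x := by
    unfold ph
    have h1 : 0 ≤ a2 / rk k x := div_nonneg aux833_a2pos.le (rk_nonneg k x)
    positivity
  linarith

theorem aux833_log6 : 0 ≤ Real.log 6 := Real.log_nonneg (by norm_num)

/-- lower bound of the sum in `inn` -/
theorem aux833_sum_low {j : Fin 101} {x : Eu 2} (hx : rk j x ≤ a2) :
    -(1 / 9 : ℝ) ≤ 99 * ∑ k ∈ Finset.univ.erase j, (Real.log (rk k x) - Real.log (rk k x + mu)) := by
  have h1 : ∀ k ∈ Finset.univ.erase j, -(11 / 10 ^ 6 : ℝ) ≤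
      Real.log (rk k x) - Real.log (rk k x + mu) := by
    intro k hk
    have hk' : k ≠ j := (Finset.mem_erase.1 hk).1
    have hr := aux833_far hk' (lt_of_le_of_lt hx aux833_a2lt)
    have hr0 : 0 < rk k x := lt_of_lt_of_le (by norm_num) hr
    have hm := mu_pos
    have h2 : Real.log (rk k x + mu) - Real.log (rk k x) ≤ mu / rk k x := by
      rw [← Real.log_div (by positivity) hr0.ne']
      refine (Real.log_le_sub_one_of_pos (by positivity)).trans ?_
      rw [add_div, div_self hr0.ne']
      linarith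
    have h3 : mu / rk k x ≤ 11 / 10 ^ 6 := by
      rw [div_le_iff₀ hr0]
      unfold mu
      nlinarith
    linarith
  have h2 := Finset.sum_le_sum h1
  rw [Finset.sum_const, Finset.card_erase_of_mem (Finset.mem_univ j), Finset.card_univ,
    Fintype.card_fin, nsmul_eq_mul] at h2
  push_cast at h2
  norm_num at h2 ⊢
  linarith

theorem LA_le_UA (x : Eu 2) : LA x ≤ UA x := by
  by_cases hE : 1 / 4 ≤ Ef x
  · have hE0 : 0 < Ef x := lt_of_lt_of_le (by norm_num) hE
    have hrk := (Ef_pos_iff x).1 hE0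
    have hLA : LA x = 99 * Real.log (Ef x) := by
      unfold LA
      rw [max_eq_left hE]
    have hout : LA x ≤ out x := by
      rw [hLA]
      unfold out
      linarith [Ho_nonneg x]
    by_cases h : ∃ j, rk j x ≤ a2
    · obtain ⟨j, hj⟩ := h
      have hinn : LA x ≤ inn j x := by
        rw [hLA, inn_eq hrk]
        have h1 : Real.log (rk j x) ≤ Real.log a2 := Real.log_le_log (hrk j) hj
        linarith [aux833_log6]
      rw [UA_eq hj]
      split_ifs
      · exact hinn
      · exact le_min hinn hout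
    · push Not at h
      rw [UA_out h]
      exact hout
  · push Not at hE
    obtain ⟨j, hj⟩ := Ef_small hE.le
    have hLA : LA x = 99 * Real.log (1 / 4) := by
      unfold LA
      rw [max_eq_right hE.le]
    have hm := mu_pos
    have hj1 : rk j x ≤ a1 := by
      refine hj.le.trans ?_
      unfold mu a1
      norm_num
    have hj2 : rk j x ≤ a2 := hj1.trans aux833_a1a2.le
    rw [UA_eq hj2, if_pos hj1, hLA]
    have h1 := aux833_sum_low hj2
    have h2 : Real.log (rk j x + mu) ≤ Real.log a2 := by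
      refine Real.log_le_log (rkmu_pos j x) ?_
      have : rk j x + mu ≤ 2 * mu := by linarith
      refine this.trans ?_
      unfold mu a2
      norm_num
    have h3 : Real.log (1 / 4) ≤ -1 := by
      have h4 : Real.log (1 / 4 : ℝ) = -(2 * Real.log 2) := by
        rw [one_div, Real.log_inv, show (4 : ℝ) = 2 ^ 2 by norm_num, Real.log_pow]
        push_cast
        ring
      rw [h4]
      have := Real.log_two_gt_d9
      linarith
    unfold inn
    linarith [aux833_log6]

theorem aux833_inn_le {j : Fin 101} {x : Eu 2} (hx : rk j x ≤ a2) : inn j x ≤ 10 ^ 6 := by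
  have h1 : ∑ k ∈ Finset.univ.erase j, (Real.log (rk k x) - Real.log (rk k x + mu)) ≤ 0 := by
    refine Finset.sum_nonpos (fun k hk => ?_)
    have hk' : k ≠ j := (Finset.mem_erase.1 hk).1
    have hr := aux833_far2 hk' hx
    have := Real.log_le_log (aux833_a2pos.trans hr) (show rk k x ≤ rk k x + mu by linarith [mu_pos])
    linarith
  have h2 : Real.log a2 ≤ 0 := Real.log_nonpos aux833_a2pos.le (by unfold a2; norm_num)
  have h3 : Real.log mu ≤ Real.log (rk j x + mu) :=
    Real.log_le_log mu_pos (by linarith [rk_nonneg j x])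
  have h4 : -(10 : ℝ) ^ 3 ≤ Real.log mu := by
    have h5 : Real.log mu = -(8 * Real.log 10) := by
      unfold mu
      rw [one_div, Real.log_inv, Real.log_pow]
      push_cast
      ring
    rw [h5]
    have : Real.log 10 ≤ 10 - 1 := Real.log_le_sub_one_of_pos (by norm_num)
    norm_num
    linarith
  have h6 : Real.log 6 ≤ 6 - 1 := Real.log_le_sub_one_of_pos (by norm_num)
  have h7 : (10 : ℝ) ^ 6 = 1000000 := by norm_num
  norm_num at h4
  rw [h7]
  unfold inn
  linarith

theorem aux833_ph_le {k : Fin 101} {x : Eu 2} (hx : a1 ≤ rk k x) :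
    Real.log (1 + ph k x) ≤ 20 := by
  have hr : 0 < rk k x := aux833_a1pos.trans_le hx
  obtain ⟨q, hq⟩ : ∃ q : ℝ, q = a2 / a1 := ⟨_, rfl⟩
  have hq1 : 1 ≤ q := by rw [hq, one_le_div aux833_a1pos]; exact aux833_a1a2.le
  have hq2 : q ≤ 112 / 100 := by rw [hq, div_le_iff₀ aux833_a1pos]; unfold a1 a2; norm_num
  have h1 : a2 / rk k x ≤ q := by
    rw [hq]
    exact div_le_div_of_nonneg_left aux833_a2pos.le aux833_a1pos hx
  have h2 : (a2 / rk k x) ^ 125 ≤ q ^ 125 :=
    pow_le_pow_left₀ (div_nonneg aux833_a2pos.le hr.le) h1 125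
  have h3 : 1 ≤ q ^ 125 := one_le_pow₀ hq1
  have h4 : 1 + ph k x ≤ 5 * q ^ 125 := by
    unfold ph
    linarith
  have h0 : 0 < 1 + ph k x := by
    unfold ph
    have := aux833_a2pos
    positivity
  refine (Real.log_le_log h0 h4).trans ?_
  rw [Real.log_mul (by norm_num) (by positivity), Real.log_pow]
  have h5 : Real.log 5 ≤ 5 - 1 := Real.log_le_sub_one_of_pos (by norm_num)
  have h6 : Real.log q ≤ q - 1 := Real.log_le_sub_one_of_pos (by linarith)
  push_cast
  linarith

theorem aux833_out_le {x : Eu 2} (hx : ∀ k, a1 ≤ rk k x) : out x ≤ 10 ^ 6 := by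
  have h1 : Ho x ≤ ∑ _k : Fin 101, (20 : ℝ) :=
    Finset.sum_le_sum (fun k _ => aux833_ph_le (hx k))
  have h2 : Real.log (Ef x) ≤ 0 := Real.log_nonpos (Ef_nonneg x) (Ef_lt_one x).le
  simp at h1
  unfold out
  norm_num
  linarith

theorem UA_le (x : Eu 2) : UA x ≤ 10 ^ 6 := by
  by_cases h : ∃ j, rk j x ≤ a2
  · obtain ⟨j, hj⟩ := h
    have hinn := aux833_inn_le hj
    rw [UA_eq hj]
    split_ifs
    · exact hinn
    · exact (min_le_left _ _).trans hinn
  · push Not at h
    rw [UA_out h]
    exact aux833_out_le (fun k => (aux833_a1a2.trans (h k)).le)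

theorem Ho_tendsto : Tendsto Ho (cocompact (Eu 2)) (𝓝 0) := by
  have h1 : ∀ k : Fin 101, Tendsto (fun x => Real.log (1 + ph k x)) (cocompact (Eu 2)) (𝓝 0) := by
    intro k
    have hn : Tendsto (fun x : Eu 2 => ‖x‖ - ‖pt k‖) (cocompact (Eu 2)) atTop :=
      tendsto_atTop_add_const_right _ (-‖pt k‖) (tendsto_norm_cocompact_atTop (E := Eu 2))
    have hn2 : Tendsto (fun x : Eu 2 => ‖x - pt k‖) (cocompact (Eu 2)) atTop :=
      tendsto_atTop_mono (fun x => norm_sub_norm_le x (pt k)) hn
    have hr : Tendsto (fun x : Eu 2 => rk k x) (cocompact (Eu 2)) atTop :=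
      (tendsto_pow_atTop (two_ne_zero)).comp hn2
    have hd : Tendsto (fun x : Eu 2 => a2 / rk k x) (cocompact (Eu 2)) (𝓝 0) :=
      hr.const_div_atTop a2
    have hp : Tendsto (fun x : Eu 2 => 1 + ph k x) (cocompact (Eu 2)) (𝓝 1) := by
      have := ((hd.pow 125).const_mul 4).const_add 1
      simpa [ph] using this
    have hl := (Real.continuousAt_log (one_ne_zero)).tendsto.comp hp
    rw [Real.log_one] at hl
    exact hl
  have h2 := tendsto_finsetSum (Finset.univ : Finset (Fin 101)) (fun k _ => h1 k)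
  have h3 : Ho = fun x => ∑ k, Real.log (1 + ph k x) := rfl
  rw [h3]
  simpa using h2

theorem UA_half : UA !₂[(1 / 2 : ℝ), (0 : ℝ)] ≤
    99 * Real.log (Ef !₂[(1 / 2 : ℝ), (0 : ℝ)]) + 1 / 100 := by
  obtain ⟨x, hx⟩ : ∃ x : Eu 2, x = !₂[(1 / 2 : ℝ), (0 : ℝ)] := ⟨_, rfl⟩
  rw [← hx]
  have hcz : cz x = (1 / 2 : ℂ) := by
    rw [hx]
    unfold cz
    apply Complex.ext
    · simp
    · simp
  have hrk : ∀ k, 1 / 4 ≤ rk k x := by
    intro k
    rw [rk_eq, hcz]
    induction k using Fin.cases with
    | zero =>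
      rw [pc_zero, sub_zero]
      simp [Complex.normSq_apply]
      norm_num
    | succ k =>
      rw [Complex.normSq_eq_norm_sq]
      have h1 : 1 / 2 ≤ ‖(1 / 2 : ℂ) - pc k.succ‖ := by
        have h2 := norm_sub_norm_le (pc k.succ) (1 / 2 : ℂ)
        rw [norm_pc_succ, norm_sub_rev] at h2
        have h3 : ‖(1 / 2 : ℂ)‖ = 1 / 2 := by simp
        rw [h3] at h2
        linarith
      nlinarith
  have ha2 : a2 < 1 / 4 := by unfold a2; norm_num
  rw [UA_out (fun k => ha2.trans_le (hrk k))]
  have hHo : Ho x ≤ 1 / 100 := by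
    have h1 : Ho x ≤ ∑ _k : Fin 101, (4 * (1 / 100 : ℝ) ^ 3) := by
      refine Finset.sum_le_sum (fun k _ => ?_)
      have hr0 : 0 < rk k x := lt_of_lt_of_le (by norm_num) (hrk k)
      have hd : a2 / rk k x ≤ 1 / 100 := by
        rw [div_le_iff₀ hr0]
        have := hrk k
        unfold a2
        linarith
      have hd0 : 0 ≤ a2 / rk k x := div_nonneg aux833_a2pos.le hr0.le
      have hp0 : 0 ≤ ph k x := by unfold ph; positivity
      have h2 : Real.log (1 + ph k x) ≤ ph k x := by
        have := Real.log_le_sub_one_of_pos (show 0 < 1 + ph k x by linarith)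
        linarith
      refine h2.trans ?_
      unfold ph
      have h3 : (a2 / rk k x) ^ 125 ≤ (a2 / rk k x) ^ 3 :=
        pow_le_pow_of_le_one hd0 (hd.trans (by norm_num)) (by norm_num)
      have h4 : (a2 / rk k x) ^ 3 ≤ (1 / 100) ^ 3 := pow_le_pow_left₀ hd0 hd 3
      linarith
    refine h1.trans ?_
    simp
    norm_num
  unfold out
  linarith

end Pool.Agent.H314.CS
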