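import Pool.Agent.H314.CS.SubA
import Pool.Agent.H314.CS.SupA
import Pool.Agent.H314.CS.SubB
import Pool.Agent.H314.CS.SupB
import Pool.Agent.H314.CS.OrdB
import Pool.Agent.H314.CS.Bar
import Pool.Agent.H314.CS.Smooth

set_option autoImplicit false
open Filter Topology Set Metric MeasureTheory

namespace Pool.Agent.H314.CS

open Pool.Agent.H314.Dir

theorem base_exists (L U : Eu 2 → ℝ) (hL : ∀ x, LocSub bf L x) (hU : ∀ x, LocSup bf U x)
    (hLU : ∀ x, L x ≤ U x) (hLB : ∀ x, -138 ≤ L x) (hUB : ∀ x, U x ≤ 10 ^ 6) :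
    ∃ v : Eu 2 → ℝ, ContDiff ℝ ((⊤ : ℕ∞) : WithTop ℕ∞) v ∧ (∀ x, L x ≤ v x ∧ v x ≤ U x) ∧
      ∀ x, lap v x = bf x (v x) := by
  set B : ℝ := 10 ^ 6 with hB
  set Q : ℝ := 10 ^ 8 * (Real.exp B + (Real.exp B) ^ 2) + 101 * 396 / mu with hQ
  obtain ⟨v, hv, hvb, hveq⟩ := barrier_exists bf
    (contDiff_bf (n := 1)).locallyLipschitz B Q (2 * 10 ^ 8 * (Real.exp B) ^ 2)
    (by norm_num) (by positivity) (bf_bound B) (bf_mono B) L U hL hU hLU
    (fun x => (by norm_num : (-10 ^ 6 : ℝ) ≤ -138).trans (hLB x)) hUB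
  have habs : ∀ x, |v x| ≤ B := by
    intro x
    rw [abs_le]
    exact ⟨by linarith [(hvb x).1, hLB x, (by norm_num : (-10 ^ 6 : ℝ) ≤ -138)],
      (hvb x).2.trans (hUB x)⟩
  refine ⟨v, ?_, hvb, hveq⟩
  exact smooth_of_lap bf contDiff_bf v hv (max B Q) (fun x => (habs x).trans (le_max_left _ _))
    (fun x => (bf_bound B x (v x) (habs x)).trans (le_max_right _ _)) hveq

/-- the smooth part of `u` -/
noncomputable def Wf (v : Eu 2 → ℝ) (x : Eu 2) : ℝ := -(99 * ∑ k, Real.log (rk k x + mu)) - v x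

/-- the solution -/
noncomputable def uf (v : Eu 2 → ℝ) (x : Eu 2) : ℝ :=
  ∑ k, 2 * 99 * Real.log ‖x - pt k‖ + Wf v x

theorem contDiff_Wf {v : Eu 2 → ℝ} {n : WithTop ℕ∞} (hv : ContDiff ℝ n v) :
    ContDiff ℝ n (Wf v) := by
  unfold Wf
  exact ((contDiff_const.mul (ContDiff.sum fun k _ => contDiff_logmu k)).neg).sub hv

theorem uf_eq {v : Eu 2 → ℝ} {x : Eu 2} (hx : ∀ k, x ≠ pt k) :
    0 < Ef x ∧ uf v x = 99 * Real.log (Ef x) - v x := by
  have hr : ∀ k, 0 < rk k x := fun k => by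
    have : 0 < ‖x - pt k‖ := norm_pos_iff.2 (sub_ne_zero.2 (hx k))
    unfold rk; positivity
  have hE : 0 < Ef x := (Ef_pos_iff x).2 hr
  refine ⟨hE, ?_⟩
  rw [log_Ef hE, uf, Wf]
  have h1 : ∀ k, 2 * 99 * Real.log ‖x - pt k‖ = 99 * Real.log (rk k x) := by
    intro k
    rw [rk, Real.log_pow]
    push_cast
    ring
  simp only [h1]
  rw [Finset.sum_sub_distrib, ← Finset.mul_sum]
  ring

theorem uf_pde {v : Eu 2 → ℝ} (hv : ContDiff ℝ 2 v) (hveq : ∀ x, lap v x = bf x (v x))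
    {x : Eu 2} (hx : ∀ k, x ≠ pt k) :
    lap (uf v) x = 10 ^ 8 * Real.exp (uf v x) * (Real.exp (uf v x) - 1) := by
  obtain ⟨hE, hu⟩ := uf_eq (v := v) hx
  have hnear : uf v =ᶠ[𝓝 x] fun y => 99 * Real.log (Ef y) - v y := by
    have : ∀ᶠ y in 𝓝 x, ∀ k, y ≠ pt k := by
      rw [Filter.eventually_all]
      intro k
      exact isOpen_ne.mem_nhds (hx k)
    filter_upwards [this] with y hy
    exact (uf_eq hy).2
  obtain ⟨h1, h2⟩ := lap_logE hE
  rw [lap_congr hnear, lap_sub h1 hv.contDiffAt, h2, hveq, hu]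
  have h3 : Real.exp (99 * Real.log (Ef x) - v x) = (Ef x) ^ 99 * Real.exp (-v x) := by
    rw [sub_eq_add_neg, Real.exp_add]
    congr 1
    have : (99 : ℝ) * Real.log (Ef x) = Real.log ((Ef x) ^ 99) := by
      rw [Real.log_pow]; norm_num
    rw [this, Real.exp_log (by exact pow_pos hE 99)]
  rw [h3, bf]
  generalize (Ef x) ^ 99 * Real.exp (-v x) = w
  ring

theorem far_event : ∀ᶠ x in cocompact (Eu 2), ∀ k, b2 < rk k x := by
  rw [Filter.eventually_all]
  intro k
  have h1 : Tendsto (fun x : Eu 2 => ‖x - pt k‖) (cocompact (Eu 2)) atTop := by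
    have := tendsto_norm_cocompact_atTop (E := Eu 2)
    refine tendsto_atTop_mono (f := fun x : Eu 2 => ‖x‖ - ‖pt k‖) (fun x => norm_sub_norm_le _ _) ?_
    exact tendsto_atTop_add_const_right _ _ this
  filter_upwards [h1.eventually_gt_atTop 3] with x hx
  unfold rk b2
  nlinarith

theorem base_A : ∃ v : Eu 2 → ℝ, ContDiff ℝ ((⊤ : ℕ∞) : WithTop ℕ∞) v ∧
    (∀ x, lap v x = bf x (v x)) ∧ Tendsto (uf v) (cocompact (Eu 2)) (𝓝 0) ∧
    -(1 / 100) ≤ 99 * Real.log (Ef !₂[(1 / 2 : ℝ), (0 : ℝ)]) - v !₂[(1 / 2 : ℝ), (0 : ℝ)] := by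
  obtain ⟨v, hv, hvb, hveq⟩ := base_exists LA UA LA_sub UA_loc LA_le_UA LA_lower UA_le
  refine ⟨v, hv, hveq, ?_, ?_⟩
  · have h1 : Tendsto (fun x => -Ho x) (cocompact (Eu 2)) (𝓝 0) := by
      simpa using Ho_tendsto.neg
    refine tendsto_of_tendsto_of_tendsto_of_le_of_le' h1 tendsto_const_nhds ?_ ?_
    · filter_upwards [far_event] with x hx
      have hx2 : ∀ k, a2 < rk k x := fun k => by
        have := hx k
        unfold b2 at this; unfold a2; linarith
      have hx3 : ∀ k, x ≠ pt k := fun k h => by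
        have := hx k
        rw [h, rk, sub_self, norm_zero] at this
        unfold b2 at this; norm_num at this
      rw [(uf_eq hx3).2]
      have h2 := (hvb x).2
      rw [UA_out hx2, out] at h2
      linarith
    · filter_upwards [far_event] with x hx
      have hx3 : ∀ k, x ≠ pt k := fun k h => by
        have := hx k
        rw [h, rk, sub_self, norm_zero] at this
        unfold b2 at this; norm_num at this
      obtain ⟨hE, hu⟩ := uf_eq (v := v) hx3
      rw [hu]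
      have h2 := (hvb x).1
      have h3 := logE_le_LA hE
      linarith
  · have h1 := (hvb !₂[(1 / 2 : ℝ), (0 : ℝ)]).2
    have h2 := UA_half
    linarith

theorem base_B : ∃ v : Eu 2 → ℝ, ContDiff ℝ ((⊤ : ℕ∞) : WithTop ℕ∞) v ∧
    (∀ x, lap v x = bf x (v x)) ∧ Tendsto (uf v) (cocompact (Eu 2)) (𝓝 0) ∧
    99 * Real.log (Ef !₂[(1 / 2 : ℝ), (0 : ℝ)]) - v !₂[(1 / 2 : ℝ), (0 : ℝ)] ≤ -1 := by
  obtain ⟨v, hv, hvb, hveq⟩ := base_exists LB UB LB_sub UB_loc LB_le_UB LB_lower UB_le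
  refine ⟨v, hv, hveq, ?_, ?_⟩
  · have h1 : Tendsto (fun x => -Real.log (1 + 4 * (b2 / rk 0 x) ^ 12500)) (cocompact (Eu 2))
        (𝓝 0) := by
      simpa using ouB_tendsto.neg
    refine tendsto_of_tendsto_of_tendsto_of_le_of_le' h1 tendsto_const_nhds ?_ ?_
    · filter_upwards [far_event] with x hx
      have hx3 : ∀ k, x ≠ pt k := fun k h => by
        have := hx k
        rw [h, rk, sub_self, norm_zero] at this
        unfold b2 at this; norm_num at this
      rw [(uf_eq hx3).2]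
      have h2 := (hvb x).2
      have h4 : ¬ rk 0 x ≤ b2 := not_le.2 (hx 0)
      have h5 : ¬ rk 0 x ≤ b1 := by
        have := hx 0
        unfold b2 at this; unfold b1; linarith
      rw [UB, if_neg h5, if_neg h4, ouB] at h2
      linarith
    · filter_upwards [far_event] with x hx
      have hx3 : ∀ k, x ≠ pt k := fun k h => by
        have := hx k
        rw [h, rk, sub_self, norm_zero] at this
        unfold b2 at this; norm_num at this
      obtain ⟨hE, hu⟩ := uf_eq (v := v) hx3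
      rw [hu]
      have h2 := (hvb x).1
      have h3 := logE_le_LA hE
      have h4 : LA x ≤ LB x := by
        unfold LB
        split_ifs
        · exact le_max_right _ _
        · exact le_rfl
      linarith
  · have h1 := (hvb !₂[(1 / 2 : ℝ), (0 : ℝ)]).1
    have h2 := LB_half
    linarith

end Pool.Agent.H314.CS
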