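import Pool.Agent.H314.Dir.Defs

set_option autoImplicit false
open MeasureTheory Filter Topology Set Metric

namespace Pool.Agent.H314.CS

open Pool.Agent.H314.Dir

/-- complex coordinate of a point of the plane -/
noncomputable def cz (x : Eu 2) : ℂ := ⟨x 0, x 1⟩

/-- the 101 points: the origin and the 100-th roots of unity -/
noncomputable def pc : Fin 101 → ℂ :=
  Fin.cons 0 (fun k : Fin 100 => Complex.exp (2 * Real.pi * Complex.I * ((k : ℕ) : ℂ) / 100))

/-- the same points in the Euclidean plane -/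
noncomputable def pt (k : Fin 101) : Eu 2 := !₂[(pc k).re, (pc k).im]

/-- squared distance to the `k`-th point -/
noncomputable def rk (k : Fin 101) (x : Eu 2) : ℝ := ‖x - pt k‖ ^ 2

/-- `|z^100 - 1|^2` -/
noncomputable def Pn (x : Eu 2) : ℝ := Complex.normSq ((cz x) ^ 100 - 1)

noncomputable def mu : ℝ := 1 / 10 ^ 8
noncomputable def a1 : ℝ := 676 / 10 ^ 6
noncomputable def a2 : ℝ := 75625 / 10 ^ 8
noncomputable def b1 : ℝ := 676 / 100
noncomputable def b2 : ℝ := 841 / 100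

/-- `E = exp (-s / 99)` -/
noncomputable def Ef (x : Eu 2) : ℝ := ∏ k, rk k x / (rk k x + mu)

/-- the smooth background charge -/
noncomputable def qf (x : Eu 2) : ℝ := ∑ k, 396 * mu / (rk k x + mu) ^ 2

/-- the nonlinearity: the equation is `lap v = bf x (v x)` -/
noncomputable def bf (x : Eu 2) (t : ℝ) : ℝ :=
  10 ^ 8 * ((Ef x) ^ 99 * Real.exp (-t) - ((Ef x) ^ 99 * Real.exp (-t)) ^ 2) - qf x

noncomputable def ph (k : Fin 101) (x : Eu 2) : ℝ := 4 * (a2 / rk k x) ^ 125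

noncomputable def Ho (x : Eu 2) : ℝ := ∑ k, Real.log (1 + ph k x)

noncomputable def LA (x : Eu 2) : ℝ := 99 * Real.log (max (Ef x) (1 / 4))

noncomputable def inn (j : Fin 101) (x : Eu 2) : ℝ :=
  Real.log 6 + 99 * Real.log a2 - 99 * Real.log (rk j x + mu) +
    99 * ∑ k ∈ Finset.univ.erase j, (Real.log (rk k x) - Real.log (rk k x + mu))

noncomputable def out (x : Eu 2) : ℝ := Ho x + 99 * Real.log (Ef x)

open Classical in
noncomputable def UA (x : Eu 2) : ℝ :=
  if h : ∃ j, rk j x ≤ a2 then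
    (if rk h.choose x ≤ a1 then inn h.choose x else min (inn h.choose x) (out x))
  else out x

/-- the Liouville subsolution (regular part) -/
noncomputable def om (x : Eu 2) : ℝ :=
  2 * Real.log (1 + (Pn x / 25) ^ 100) + 200 * Real.log 5 - Real.log 8 -
    99 * ∑ k, Real.log (rk k x + mu)

open Classical in
noncomputable def LB (x : Eu 2) : ℝ := if Pn x < 25 then max (om x) (LA x) else LA x

noncomputable def CB : ℝ := Real.log 6 + 99 * Real.log (b2 * (b2 ^ 50 + 1) ^ 2)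

noncomputable def inB (x : Eu 2) : ℝ := CB - 99 * ∑ k, Real.log (rk k x + mu)

noncomputable def ouB (x : Eu 2) : ℝ :=
  Real.log (1 + 4 * (b2 / rk 0 x) ^ 12500) + 99 * Real.log (Ef x)

open Classical in
noncomputable def UB (x : Eu 2) : ℝ :=
  if rk 0 x ≤ b1 then inB x else if rk 0 x ≤ b2 then min (inB x) (ouB x) else ouB x

/-- `ψ` is a `C^2` subsolution at `x` of `lap v = b x v` -/
def SubPc {d : ℕ} (b : Eu d → ℝ → ℝ) (ψ : Eu d → ℝ) (x : Eu d) : Prop :=
  ContDiffAt ℝ 2 ψ x ∧ b x (ψ x) ≤ lap ψ x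

/-- `ψ` is a `C^2` supersolution at `x` of `lap v = b x v` -/
def SupPc {d : ℕ} (b : Eu d → ℝ → ℝ) (ψ : Eu d → ℝ) (x : Eu d) : Prop :=
  ContDiffAt ℝ 2 ψ x ∧ lap ψ x ≤ b x (ψ x)

/-- near `x`, the function `L` is the maximum of three functions which are subsolutions at `x` -/
def LocSub {d : ℕ} (b : Eu d → ℝ → ℝ) (L : Eu d → ℝ) (x : Eu d) : Prop :=
  ∃ f g h : Eu d → ℝ, SubPc b f x ∧ SubPc b g x ∧ SubPc b h x ∧
    ∀ᶠ y in 𝓝 x, L y = max (f y) (max (g y) (h y))

/-- near `x`, the function `U` is the minimum of two functions which are supersolutions at `x` -/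
def LocSup {d : ℕ} (b : Eu d → ℝ → ℝ) (U : Eu d → ℝ) (x : Eu d) : Prop :=
  ∃ f g : Eu d → ℝ, SupPc b f x ∧ SupPc b g x ∧ ∀ᶠ y in 𝓝 x, U y = min (f y) (g y)

end Pool.Agent.H314.CS
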