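import Mathlib

set_option autoImplicit false
open MeasureTheory Laplacian InnerProductSpace Filter Topology Set

namespace Pool.Agent.H314.CS

namespace LL

section general
variable {E : Type*} [NormedAddCommGroup E] [InnerProductSpace ℝ E] [FiniteDimensional ℝ E]

/-- The Laplacian computed from the second derivative. -/
lemma laplacian_eq_of_hasFDerivAt {f : E → ℝ} {f' : E → E →L[ℝ] ℝ}
    {f'' : E →L[ℝ] E →L[ℝ] ℝ} {x : E} {ι : Type*} [Fintype ι] (b : OrthonormalBasis ι ℝ E)
    (h : ∀ᶠ y in nhds x, HasFDerivAt f (f' y) y) (h' : HasFDerivAt f' f'' x) :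
    Δ f x = ∑ i, f'' (b i) (b i) := by
  rw [laplacian_eq_iteratedFDeriv_orthonormalBasis f b]
  refine Finset.sum_congr rfl fun i _ => ?_
  rw [iteratedFDeriv_two_apply]
  have h1 : fderiv ℝ f =ᶠ[nhds x] f' := by
    filter_upwards [h] with y hy using hy.fderiv
  rw [h1.fderiv_eq, h'.fderiv]
  simp

/-- Laplacian of a function of `‖x‖²`. -/
lemma laplacian_comp_normSq {U U' U'' : ℝ → ℝ} {x : E}
    (h : ∀ᶠ s in nhds (‖x‖ ^ 2), HasDerivAt U (U' s) s)
    (h' : HasDerivAt U' (U'' (‖x‖ ^ 2)) (‖x‖ ^ 2)) :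
    Δ (fun y : E => U (‖y‖ ^ 2)) x =
      4 * ‖x‖ ^ 2 * U'' (‖x‖ ^ 2) + 2 * (Module.finrank ℝ E : ℝ) * U' (‖x‖ ^ 2) := by
  have hn : ∀ y : E, HasFDerivAt (fun y : E => ‖y‖ ^ 2) (2 • (innerSL ℝ y)) y := fun y =>
    (hasStrictFDerivAt_norm_sq y).hasFDerivAt
  have hcont : Continuous (fun y : E => ‖y‖ ^ 2) := by fun_prop
  have h1 : ∀ᶠ y in nhds x, HasFDerivAt (fun y : E => U (‖y‖ ^ 2))
      (U' (‖y‖ ^ 2) • (2 • (innerSL ℝ y))) y := by
    filter_upwards [hcont.continuousAt.eventually h] with y hy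
    exact hy.comp_hasFDerivAt y (hn y)
  have h2 : HasFDerivAt (fun y : E => U' (‖y‖ ^ 2)) (U'' (‖x‖ ^ 2) • (2 • (innerSL ℝ x))) x :=
    h'.comp_hasFDerivAt x (hn x)
  have h3 : HasFDerivAt (fun y : E => (2 : ℕ) • (innerSL ℝ y)) (2 • (innerSL ℝ : E →L[ℝ] E →L[ℝ] ℝ)) x :=
    ((2 : ℕ) • (innerSL ℝ : E →L[ℝ] E →L[ℝ] ℝ)).hasFDerivAt
  have h4 := h2.smul h3
  rw [laplacian_eq_of_hasFDerivAt (stdOrthonormalBasis ℝ E) h1 h4]
  have hsum := (stdOrthonormalBasis ℝ E).sum_sq_inner_left x
  have hterm : ∀ i, (U' (‖x‖ ^ 2) • (2 • (innerSL ℝ : E →L[ℝ] E →L[ℝ] ℝ)) +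
      (U'' (‖x‖ ^ 2) • (2 • (innerSL ℝ x))).smulRight ((2 : ℕ) • (innerSL ℝ x)))
        ((stdOrthonormalBasis ℝ E) i) ((stdOrthonormalBasis ℝ E) i) =
      4 * U'' (‖x‖ ^ 2) * (inner ℝ x ((stdOrthonormalBasis ℝ E) i)) ^ 2 + 2 * U' (‖x‖ ^ 2) := by
    intro i
    have : inner ℝ ((stdOrthonormalBasis ℝ E) i) ((stdOrthonormalBasis ℝ E) i) = (1 : ℝ) := by
      rw [real_inner_self_eq_norm_sq]; simp
    rw [add_apply, ContinuousLinearMap.smulRight_apply]
    simp [this, -inner_self_eq_norm_sq_to_K]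
    ring
  rw [Finset.sum_congr rfl fun i _ => hterm i, Finset.sum_add_distrib, ← Finset.mul_sum, hsum]
  simp
  ring

end general




section general
variable {E : Type*} [NormedAddCommGroup E] [InnerProductSpace ℝ E] [FiniteDimensional ℝ E]
  [MeasurableSpace E] [BorelSpace E]

lemma laplacian_eq_sum_fderiv {f : E → ℝ} (hf : ContDiff ℝ 2 f) (x : E) :
    Δ f x = ∑ i, fderiv ℝ (fun y => fderiv ℝ f y (stdOrthonormalBasis ℝ E i)) x
      (stdOrthonormalBasis ℝ E i) := by
  rw [laplacian_eq_iteratedFDeriv_stdOrthonormalBasis f]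
  refine Finset.sum_congr rfl fun i _ => ?_
  rw [iteratedFDeriv_two_apply]
  have h1 : DifferentiableAt ℝ (fderiv ℝ f) x :=
    (hf.fderiv_right (m := 1) (by norm_num)).differentiable (by norm_num) x
  rw [fderiv_clm_apply h1 (differentiableAt_const _)]
  simp

lemma contDiff_dir {f : E → ℝ} (hf : ContDiff ℝ 2 f) (v : E) :
    ContDiff ℝ 1 (fun y => fderiv ℝ f y v) :=
  (hf.fderiv_right (m := 1) (by norm_num)).clm_apply contDiff_const

lemma hasCompactSupport_dir {f : E → ℝ} (hf : HasCompactSupport f) (v : E) :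
    HasCompactSupport (fun y => fderiv ℝ f y v) := by
  have := hf.fderiv (𝕜 := ℝ)
  exact this.comp_left (g := fun L : E →L[ℝ] ℝ => L v) (by simp)

/-- Green's identity. -/
lemma green {v φ : E → ℝ} (hv : ContDiff ℝ 2 v) (hφ : ContDiff ℝ 2 φ)
    (hc : HasCompactSupport φ) : ∫ x, v x * Δ φ x = ∫ x, Δ v x * φ x := by
  have key : ∀ e : E, ∫ x, v x * fderiv ℝ (fun y => fderiv ℝ φ y e) x e =
      ∫ x, fderiv ℝ (fun y => fderiv ℝ v y e) x e * φ x := by
    intro e
    have hv1 := contDiff_dir hv e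
    have hφ1 := contDiff_dir hφ e
    have hφc := hasCompactSupport_dir hc e
    have hv2c : Continuous (fun x => fderiv ℝ (fun y => fderiv ℝ v y e) x e) :=
      (hv1.continuous_fderiv (by norm_num)).clm_apply continuous_const
    have hφ2c : Continuous (fun x => fderiv ℝ (fun y => fderiv ℝ φ y e) x e) :=
      (hφ1.continuous_fderiv (by norm_num)).clm_apply continuous_const
    have hφ2s : HasCompactSupport (fun x => fderiv ℝ (fun y => fderiv ℝ φ y e) x e) :=
      (hφc.fderiv (𝕜 := ℝ)).comp_left (g := fun L : E →L[ℝ] ℝ => L e) (by simp)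
    have s1 := integral_mul_fderiv_eq_neg_fderiv_mul_of_integrable (μ := volume) (f := v)
      (g := fun y => fderiv ℝ φ y e) (v := e)
      ((hv1.continuous.mul hφ1.continuous).integrable_of_hasCompactSupport hφc.mul_left)
      ((hv.continuous.mul hφ2c).integrable_of_hasCompactSupport hφ2s.mul_left)
      ((hv.continuous.mul hφ1.continuous).integrable_of_hasCompactSupport hφc.mul_left)
      (fun x _ => hv.differentiable (by norm_num) x)
      (fun x _ => hφ1.differentiable (by norm_num) x)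
    have s2 := integral_mul_fderiv_eq_neg_fderiv_mul_of_integrable (μ := volume)
      (f := fun y => fderiv ℝ v y e) (g := φ) (v := e)
      ((hv2c.mul hφ.continuous).integrable_of_hasCompactSupport hc.mul_left)
      ((hv1.continuous.mul hφ1.continuous).integrable_of_hasCompactSupport hφc.mul_left)
      ((hv1.continuous.mul hφ.continuous).integrable_of_hasCompactSupport hc.mul_left)
      (fun x _ => hv1.differentiable (by norm_num) x)
      (fun x _ => hφ.differentiable (by norm_num) x)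
    rw [s1, s2, neg_neg]
  simp_rw [laplacian_eq_sum_fderiv hv, laplacian_eq_sum_fderiv hφ, Finset.mul_sum, Finset.sum_mul]
  rw [integral_finsetSum, integral_finsetSum]
  · exact Finset.sum_congr rfl fun i _ => key _
  · intro i _
    have hv1 := contDiff_dir hv (stdOrthonormalBasis ℝ E i)
    exact (((hv1.continuous_fderiv (by norm_num)).clm_apply continuous_const).mul
      hφ.continuous).integrable_of_hasCompactSupport hc.mul_left
  · intro i _
    have hφ1 := contDiff_dir hφ (stdOrthonormalBasis ℝ E i)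
    exact (hv.continuous.mul ((hφ1.continuous_fderiv (by norm_num)).clm_apply
      continuous_const)).integrable_of_hasCompactSupport
      (((hasCompactSupport_dir hc _).fderiv (𝕜 := ℝ)).comp_left
        (g := fun L : E →L[ℝ] ℝ => L (stdOrthonormalBasis ℝ E i)) (by simp)).mul_left

end general





abbrev E2 := EuclideanSpace ℝ (Fin 2)

lemma fr2 : Module.finrank ℝ E2 = 2 := finrank_euclideanSpace_fin

/-- The kernel `(1/π)(1+|w|²)^{-2}`. -/
noncomputable def ker (w : E2) : ℝ := Real.pi⁻¹ * (1 + ‖w‖ ^ 2)⁻¹ ^ 2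

lemma ker_nonneg (w : E2) : 0 ≤ ker w := by
  unfold ker; positivity

lemma integral_ker : ∫ w, ker w = 1 := by
  have h1 : ∫ y in Ioi (0 : ℝ), y * (1 + y ^ 2)⁻¹ ^ 2 = 1 / 2 := by
    have hd : ∀ x ∈ Ici (0 : ℝ), HasDerivAt (fun y : ℝ => -(1 / 2) * (1 + y ^ 2)⁻¹)
        (x * (1 + x ^ 2)⁻¹ ^ 2) x := by
      intro x _
      have h0 : (1 + x ^ 2) ≠ 0 := by positivity
      have h1 : HasDerivAt (fun y : ℝ => 1 + y ^ 2) (2 * x) x := by
        have := (hasDerivAt_pow 2 x).const_add 1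
        simpa using this
      have := (h1.inv h0).const_mul (-(1 / 2) : ℝ)
      refine this.congr_deriv ?_
      field_simp
    have ht : Tendsto (fun y : ℝ => -(1 / 2) * (1 + y ^ 2)⁻¹) atTop (𝓝 0) := by
      have h2 : Tendsto (fun y : ℝ => 1 + y ^ 2) atTop atTop :=
        tendsto_atTop_add_const_left _ _ (tendsto_pow_atTop (by norm_num))
      have := (tendsto_inv_atTop_zero.comp h2).const_mul (-(1 / 2) : ℝ)
      simpa using this
    have := integral_Ioi_of_hasDerivAt_of_nonneg (a := 0) (hd 0 (by simp)).continuousAt.continuousWithinAt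
      (fun x hx => hd x (mem_Ici.mpr (le_of_lt (mem_Ioi.mp hx)))) (fun x hx => by
        have : (0 : ℝ) < x := hx
        positivity) ht
    rw [this]; norm_num
  have h2 := integral_fun_norm_addHaar (volume : Measure E2) (fun y : ℝ => Real.pi⁻¹ * (1 + y ^ 2)⁻¹ ^ 2)
  have h3 : ∫ w, ker w = ∫ x : E2, (fun y : ℝ => Real.pi⁻¹ * (1 + y ^ 2)⁻¹ ^ 2) ‖x‖ := rfl
  rw [h3, h2]
  have h4 : (volume : Measure E2).real (Metric.ball 0 1) = Real.pi := by
    rw [Measure.real, EuclideanSpace.volume_ball_fin_two]; simp [Real.pi_nonneg]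
  rw [h4]
  have h5 : ∫ y in Ioi (0 : ℝ), y ^ (Module.finrank ℝ E2 - 1) • (Real.pi⁻¹ * (1 + y ^ 2)⁻¹ ^ 2) =
      Real.pi⁻¹ * (1 / 2) := by
    rw [← h1, ← integral_const_mul]
    congr 1
    ext y
    simp [fr2]
    ring
  rw [h5]
  simp [fr2]

lemma tendsto_ker : Tendsto (fun x : E2 => ‖x‖ ^ Module.finrank ℝ E2 * ker x)
    (Bornology.cobounded E2) (𝓝 0) := by
  rw [fr2]
  have h0 : Tendsto (fun r : ℝ => Real.pi⁻¹ * (r ^ 2)⁻¹) atTop (𝓝 0) := by
    have := (tendsto_inv_atTop_zero.comp (tendsto_pow_atTop (α := ℝ) (n := 2) (by norm_num))).const_mul (Real.pi⁻¹)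
    simpa using this
  have h1 := h0.comp (tendsto_norm_cobounded_atTop (E := E2))
  refine squeeze_zero' (Eventually.of_forall fun x => ?_) ?_ h1
  · exact mul_nonneg (by positivity) (ker_nonneg x)
  · have : ∀ᶠ x : E2 in Bornology.cobounded E2, 0 < ‖x‖ :=
      (tendsto_norm_cobounded_atTop (E := E2)).eventually_gt_atTop 0
    filter_upwards [this] with x hx
    simp only [Function.comp_apply, ker]
    rw [← mul_assoc, mul_comm (‖x‖ ^ 2), mul_assoc]
    refine mul_le_mul_of_nonneg_left ?_ (by positivity)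
    rw [inv_pow, ← div_eq_mul_inv, ← one_div, div_le_div_iff₀ (by positivity) (by positivity)]
    nlinarith [sq_nonneg (‖x‖ ^ 2)]

lemma locInt_log0 : LocallyIntegrable (fun z : E2 => Real.log ‖z‖) := by
  rw [locallyIntegrable_iff]
  intro K hK
  obtain ⟨R, hR⟩ := hK.isBounded.subset_ball 0
  refine IntegrableOn.mono_set ?_ hR
  rw [integrableOn_fun_norm_addHaar (volume : Measure E2) (f := Real.log)]
  have : ContinuousOn (fun y : ℝ => y * Real.log y) (Icc 0 R) := Real.continuous_mul_log.continuousOn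
  have h := this.integrableOn_Icc (μ := volume)
  refine (h.mono_set Ioo_subset_Icc_self).congr_fun ?_ measurableSet_Ioo
  intro y _
  simp [fr2]

/-- The regularised logarithm. -/
noncomputable def Lc (c : ℝ) (z : E2) : ℝ := (1 / 2) * Real.log (‖z‖ ^ 2 + (c ^ 2)⁻¹)

lemma contDiff_Lc {c : ℝ} (hc : 0 < c) : ContDiff ℝ 2 (Lc c) := by
  unfold Lc
  refine contDiff_const.mul (ContDiff.log ?_ ?_)
  · exact (contDiff_norm_sq ℝ).add contDiff_const
  · intro x; positivity

lemma laplacian_Lc {c : ℝ} (hc : 0 < c) (z : E2) :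
    Δ (Lc c) z = 2 * Real.pi * (c ^ 2 * ker (c • z)) := by
  have h := laplacian_comp_normSq (E := E2) (x := z) (U := fun s => (1 / 2) * Real.log (s + (c ^ 2)⁻¹))
    (U' := fun s => (1 / 2) * (s + (c ^ 2)⁻¹)⁻¹)
    (U'' := fun s => -(1 / 2) * ((s + (c ^ 2)⁻¹)⁻¹) ^ 2) ?_ ?_
  · have e : Lc c = fun y : E2 => (fun s => (1 / 2) * Real.log (s + (c ^ 2)⁻¹)) (‖y‖ ^ 2) := rfl
    rw [e, h, fr2]
    simp only [ker, norm_smul, Real.norm_eq_abs, abs_of_pos hc]
    have h0 : (‖z‖ ^ 2 + (c ^ 2)⁻¹) ≠ 0 := by positivity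
    have h1 : 1 + (c * ‖z‖) ^ 2 ≠ 0 := by positivity
    have h2 : c ≠ 0 := hc.ne'
    have h3 : Real.pi ≠ 0 := Real.pi_ne_zero
    have h4 : (‖z‖ ^ 2 + (c ^ 2)⁻¹) = (1 + (c * ‖z‖) ^ 2) / c ^ 2 := by
      field_simp; ring
    rw [h4]
    field_simp
    push_cast
    ring
  · have : ∀ᶠ s in 𝓝 (‖z‖ ^ 2), 0 < s + (c ^ 2)⁻¹ := by
      have h1 : Continuous fun s : ℝ => s + (c ^ 2)⁻¹ := by fun_prop
      have h2 : 0 < ‖z‖ ^ 2 + (c ^ 2)⁻¹ := by positivity
      exact h1.continuousAt.eventually (lt_mem_nhds h2)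
    filter_upwards [this] with s hs
    have := ((hasDerivAt_id s).add_const ((c ^ 2)⁻¹)).log (by simpa using hs.ne')
    have := this.const_mul (1 / 2 : ℝ)
    simpa [one_div] using this
  · have h2 : ‖z‖ ^ 2 + (c ^ 2)⁻¹ ≠ 0 := by positivity
    have h3 : HasDerivAt (fun s : ℝ => s + (c ^ 2)⁻¹) 1 (‖z‖ ^ 2) :=
      (hasDerivAt_id (‖z‖ ^ 2)).add_const _
    have := (h3.inv h2).const_mul (1 / 2 : ℝ)
    refine this.congr_deriv ?_
    field_simp

/-- `Δ log|z| = 2π δ`. -/
lemma integral_log_laplacian {φ : E2 → ℝ} (hφ : ContDiff ℝ 2 φ) (hc : HasCompactSupport φ) :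
    ∫ z : E2, Real.log ‖z‖ * Δ φ z = 2 * Real.pi * φ 0 := by
  have hΔc : Continuous (Δ φ) := by
    have : Δ φ = fun x => ∑ i, fderiv ℝ (fun y => fderiv ℝ φ y (stdOrthonormalBasis ℝ E2 i)) x
      (stdOrthonormalBasis ℝ E2 i) := by
      ext x; exact laplacian_eq_sum_fderiv hφ x
    rw [this]
    refine continuous_finsetSum _ fun i _ => ?_
    exact ((contDiff_dir hφ _).continuous_fderiv (by norm_num)).clm_apply continuous_const
  have hΔs : HasCompactSupport (Δ φ) := by
    have : Δ φ = fun x => ∑ i, fderiv ℝ (fun y => fderiv ℝ φ y (stdOrthonormalBasis ℝ E2 i)) x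
      (stdOrthonormalBasis ℝ E2 i) := by
      ext x; exact laplacian_eq_sum_fderiv hφ x
    rw [this]
    refine HasCompactSupport.intro (K := tsupport φ) hc fun x hx => ?_
    refine Finset.sum_eq_zero fun i _ => ?_
    have h1 : x ∉ tsupport (fun y => fderiv ℝ φ y (stdOrthonormalBasis ℝ E2 i)) :=
      fun h => hx (tsupport_fderiv_apply_subset ℝ _ h)
    rw [fderiv_of_notMem_tsupport _ h1]
    rfl
  have lim1 : Tendsto (fun c : ℝ => ∫ z, Lc c z * Δ φ z) atTop (𝓝 (2 * Real.pi * φ 0)) := by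
    have h := tendsto_integral_comp_smul_smul_of_integrable (μ := (volume : Measure E2))
      ker_nonneg integral_ker tendsto_ker
      (hφ.continuous.integrable_of_hasCompactSupport hc) hφ.continuous.continuousAt
    have h' := h.const_mul (2 * Real.pi)
    refine h'.congr' ?_
    filter_upwards [eventually_gt_atTop 0] with c hc0
    rw [green (contDiff_Lc hc0) hφ hc, ← integral_const_mul]
    congr 1
    ext z
    rw [laplacian_Lc hc0, fr2]
    simp
    ring
  have lim2 : Tendsto (fun c : ℝ => ∫ z, Lc c z * Δ φ z) atTop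
      (𝓝 (∫ z : E2, Real.log ‖z‖ * Δ φ z)) := by
    apply tendsto_integral_filter_of_dominated_convergence
      (fun z => (|Real.log ‖z‖| + (1 / 2) * Real.log (‖z‖ ^ 2 + 1)) * |Δ φ z|)
    · filter_upwards [eventually_gt_atTop 0] with c hc0
      exact ((contDiff_Lc hc0).continuous.mul hΔc).aestronglyMeasurable
    · filter_upwards [eventually_ge_atTop 1] with c hc1
      have hz : ∀ᵐ z : E2, z ≠ 0 := by
        rw [ae_iff]; simp
      filter_upwards [hz] with z hz0
      rw [norm_mul, Real.norm_eq_abs, Real.norm_eq_abs]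
      refine mul_le_mul_of_nonneg_right ?_ (abs_nonneg _)
      have hzp : 0 < ‖z‖ := norm_pos_iff.mpr hz0
      have hcp : (0 : ℝ) < (c ^ 2)⁻¹ := by positivity
      have hcle : (c ^ 2)⁻¹ ≤ 1 := inv_le_one_of_one_le₀ (by nlinarith)
      have lo : Real.log ‖z‖ ≤ Lc c z := by
        have : Real.log ‖z‖ = (1 / 2) * Real.log (‖z‖ ^ 2) := by
          rw [Real.log_pow]; push_cast; ring
        rw [this, Lc]
        have := Real.log_le_log (x := ‖z‖ ^ 2) (y := ‖z‖ ^ 2 + (c ^ 2)⁻¹) (by positivity) (by linarith)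
        linarith
      have hi : Lc c z ≤ (1 / 2) * Real.log (‖z‖ ^ 2 + 1) := by
        rw [Lc]
        have := Real.log_le_log (x := ‖z‖ ^ 2 + (c ^ 2)⁻¹) (y := ‖z‖ ^ 2 + 1) (by positivity) (by linarith)
        linarith
      have h0 : 0 ≤ Real.log (‖z‖ ^ 2 + 1) := Real.log_nonneg (by nlinarith)
      rw [abs_le]
      constructor
      · have := neg_abs_le (Real.log ‖z‖)
        linarith
      · have := abs_nonneg (Real.log ‖z‖)
        linarith
    · have i1 : Integrable (fun z : E2 => |Real.log ‖z‖| * |Δ φ z|) := by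
        have := (locInt_log0.integrable_smul_right_of_hasCompactSupport hΔc hΔs).norm
        simpa [norm_mul] using this
      have i2 : Integrable (fun z : E2 => (1 / 2) * Real.log (‖z‖ ^ 2 + 1) * |Δ φ z|) := by
        refine Continuous.integrable_of_hasCompactSupport ?_ ?_
        · refine Continuous.mul (continuous_const.mul (Continuous.log (by fun_prop) ?_)) hΔc.abs
          intro x; positivity
        · exact (hΔs.comp_left (g := fun t : ℝ => |t|) (by simp)).mul_left
      refine (i1.add i2).congr (Eventually.of_forall fun z => ?_)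
      simp only [Pi.add_apply]
      ring
    · have hz : ∀ᵐ z : E2, z ≠ 0 := by
        rw [ae_iff]; simp
      filter_upwards [hz] with z hz0
      refine Tendsto.mul_const _ ?_
      have hzp : 0 < ‖z‖ := norm_pos_iff.mpr hz0
      have e : Real.log ‖z‖ = (1 / 2) * Real.log (‖z‖ ^ 2 + 0) := by
        rw [add_zero, Real.log_pow]; push_cast; ring
      rw [e]
      refine Tendsto.const_mul _ (Tendsto.log ?_ (by positivity))
      refine Tendsto.const_add _ ?_
      exact tendsto_inv_atTop_zero.comp (tendsto_pow_atTop (by norm_num))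
  exact tendsto_nhds_unique lim2 lim1

lemma continuous_laplacian {φ : E2 → ℝ} (hφ : ContDiff ℝ 2 φ) : Continuous (Δ φ) := by
  have : Δ φ = fun x => ∑ i, fderiv ℝ (fun y => fderiv ℝ φ y (stdOrthonormalBasis ℝ E2 i)) x
    (stdOrthonormalBasis ℝ E2 i) := by
    ext x; exact laplacian_eq_sum_fderiv hφ x
  rw [this]
  refine continuous_finsetSum _ fun i _ => ?_
  exact ((contDiff_dir hφ _).continuous_fderiv (by norm_num)).clm_apply continuous_const

lemma hasCompactSupport_laplacian {φ : E2 → ℝ} (hφ : ContDiff ℝ 2 φ) (hc : HasCompactSupport φ) :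
    HasCompactSupport (Δ φ) := by
  have : Δ φ = fun x => ∑ i, fderiv ℝ (fun y => fderiv ℝ φ y (stdOrthonormalBasis ℝ E2 i)) x
    (stdOrthonormalBasis ℝ E2 i) := by
    ext x; exact laplacian_eq_sum_fderiv hφ x
  rw [this]
  refine HasCompactSupport.intro (K := tsupport φ) hc fun x hx => ?_
  refine Finset.sum_eq_zero fun i _ => ?_
  have h1 : x ∉ tsupport (fun y => fderiv ℝ φ y (stdOrthonormalBasis ℝ E2 i)) :=
    fun h => hx (tsupport_fderiv_apply_subset ℝ _ h)
  rw [fderiv_of_notMem_tsupport _ h1]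
  rfl


end LL

/-- `log |x|` is locally integrable on the plane -/
theorem locInt_log (p : EuclideanSpace ℝ (Fin 2)) :
    LocallyIntegrable (fun x : EuclideanSpace ℝ (Fin 2) => Real.log ‖x - p‖) := by
  rw [locallyIntegrable_iff]
  intro K hK
  obtain ⟨R, hR⟩ := hK.isBounded.subset_ball p
  refine IntegrableOn.mono_set ?_ hR
  have h1 : IntegrableOn (fun z : EuclideanSpace ℝ (Fin 2) => Real.log ‖z‖) (Metric.ball 0 R) := by
    have := (locallyIntegrable_iff.mp LL.locInt_log0) (Metric.closedBall 0 R)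
      (isCompact_closedBall _ _)
    exact this.mono_set Metric.ball_subset_closedBall
  have h2 := ((measurePreserving_sub_right (volume : Measure (EuclideanSpace ℝ (Fin 2)))
    p).integrableOn_comp_preimage (MeasurableEquiv.subRight p).measurableEmbedding
      (f := fun z : EuclideanSpace ℝ (Fin 2) => Real.log ‖z‖) (s := Metric.ball 0 R)).mpr h1
  have h3 : (fun x : EuclideanSpace ℝ (Fin 2) => x - p) ⁻¹' Metric.ball 0 R = Metric.ball p R := by
    ext x
    simp [dist_eq_norm]
  rw [h3] at h2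
  exact h2

theorem log_translate (p : EuclideanSpace ℝ (Fin 2)) {φ : EuclideanSpace ℝ (Fin 2) → ℝ}
    (hφ : ContDiff ℝ 2 φ) (hc : HasCompactSupport φ) :
    ∫ x, Real.log ‖x - p‖ * Δ φ x = 2 * Real.pi * φ p := by
  have hφ' : ContDiff ℝ 2 (fun y => φ (y + p)) := hφ.comp (contDiff_id.add contDiff_const)
  have hc' : HasCompactSupport (fun y => φ (y + p)) :=
    hc.comp_homeomorph (Homeomorph.addRight p)
  have h1 := LL.integral_log_laplacian hφ' hc'
  have h2 : ∀ y, Δ (fun y => φ (y + p)) y = Δ φ (y + p) := by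
    intro y
    rw [LL.laplacian_eq_sum_fderiv hφ', LL.laplacian_eq_sum_fderiv hφ]
    apply Finset.sum_congr rfl
    intro i _
    have e1 : (fun y => fderiv ℝ (fun y => φ (y + p)) y (stdOrthonormalBasis ℝ
        (EuclideanSpace ℝ (Fin 2)) i)) = fun y => (fun z => fderiv ℝ φ z (stdOrthonormalBasis ℝ
        (EuclideanSpace ℝ (Fin 2)) i)) (y + p) := by
      funext y
      rw [fderiv_comp_add_right]
    have e2 := fderiv_comp_add_right (𝕜 := ℝ) (f := fun z => fderiv ℝ φ z (stdOrthonormalBasis ℝ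
        (EuclideanSpace ℝ (Fin 2)) i)) (x := y) p
    rw [e1]
    exact congrArg (fun L => L (stdOrthonormalBasis ℝ (EuclideanSpace ℝ (Fin 2)) i)) e2
  simp only [h2, zero_add] at h1
  have h3 := integral_sub_right_eq_self (μ := (volume : Measure (EuclideanSpace ℝ (Fin 2))))
    (fun y => Real.log ‖y‖ * Δ φ (y + p)) p
  simp only [sub_add_cancel] at h3
  rw [h3]
  exact h1

/-- distributional Laplacian of a sum of logarithms and a smooth function -/
theorem dist_identity {N : ℕ} (p : Fin N → EuclideanSpace ℝ (Fin 2)) (c : Fin N → ℝ)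
    (W φ : EuclideanSpace ℝ (Fin 2) → ℝ) (hW : ContDiff ℝ 2 W) (hφ : ContDiff ℝ 2 φ)
    (hc : HasCompactSupport φ) :
    ∫ x, (∑ k, c k * Real.log ‖x - p k‖ + W x) * Δ φ x =
      (∫ x, Δ W x * φ x) + 2 * Real.pi * ∑ k, c k * φ (p k) := by
  have hΔc := LL.continuous_laplacian hφ
  have hΔs := LL.hasCompactSupport_laplacian hφ hc
  have hi : ∀ k, Integrable (fun x => Real.log ‖x - p k‖ * Δ φ x) := fun k =>
    (locInt_log (p k)).integrable_smul_right_of_hasCompactSupport hΔc hΔs
  have hiW : Integrable (fun x => W x * Δ φ x) :=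
    (hW.continuous.mul hΔc).integrable_of_hasCompactSupport hΔs.mul_left
  have h1 : ∀ x, (∑ k, c k * Real.log ‖x - p k‖ + W x) * Δ φ x
      = (∑ k, c k * (Real.log ‖x - p k‖ * Δ φ x)) + W x * Δ φ x := by
    intro x
    rw [add_mul, Finset.sum_mul]
    congr 1
    apply Finset.sum_congr rfl
    intro k _
    ring
  simp only [h1]
  rw [integral_add (integrable_finsetSum _ (fun k _ => (hi k).const_mul (c k))) hiW,
    integral_finsetSum _ (fun k _ => (hi k).const_mul (c k)), LL.green hW hφ hc, add_comm,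
    Finset.mul_sum]
  congr 1
  apply Finset.sum_congr rfl
  intro k _
  rw [integral_const_mul, log_translate (p k) hφ hc]
  ring

end Pool.Agent.H314.CS
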