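import Pool.Agent.H314.CS.Base
import Pool.Agent.H314.CS.Dist

set_option autoImplicit false
open Filter Topology Set Metric MeasureTheory Laplacian InnerProductSpace

namespace Pool.Agent.H314.CS

open Pool.Agent.H314.Dir

theorem laplacian_eq_lap (f : Eu 2 → ℝ) (x : Eu 2) : Δ f x = lap f x := by
  rw [laplacian_eq_iteratedFDeriv_orthonormalBasis f (EuclideanSpace.basisFun (Fin 2) ℝ)]
  unfold lap
  refine Finset.sum_congr rfl fun i _ => ?_
  congr 1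
  funext j
  fin_cases j <;> simp

theorem logn_smooth {n : WithTop ℕ∞} (p : Eu 2) {x : Eu 2} (hx : x ≠ p) :
    ContDiffAt ℝ n (fun y : Eu 2 => Real.log ‖y - p‖) x := by
  have h0 : x - p ≠ 0 := sub_ne_zero.2 hx
  exact ((contDiffAt_id.sub contDiffAt_const).norm ℝ h0).log (norm_ne_zero_iff.2 h0)

theorem lap_logn (p : Eu 2) {x : Eu 2} (hx : x ≠ p) :
    lap (fun y : Eu 2 => Real.log ‖y - p‖) x = 0 := by
  have h0 : x - p ≠ 0 := sub_ne_zero.2 hx
  have hpos : 0 < ‖x - p‖ ^ 2 := by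
    have := norm_pos_iff.2 h0
    positivity
  have e : (fun y : Eu 2 => Real.log ‖y - p‖) =
      fun y : Eu 2 => (fun r : ℝ => 1 / 2 * Real.log r) (‖y - p‖ ^ 2) := by
    funext y
    simp only [Real.log_pow]
    push_cast
    ring
  have hC := logn_smooth (n := 2) p hx
  rw [e] at hC ⊢
  rw [lap_radial (g := fun r : ℝ => 1 / 2 * Real.log r) (g' := fun r => 1 / 2 * r⁻¹)
    (g'' := fun r => 1 / 2 * (-(r ^ 2)⁻¹)) p x ?_ ?_ hC]
  · push_cast
    field_simp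
    ring
  · filter_upwards [lt_mem_nhds hpos] with r hr
    exact (Real.hasDerivAt_log hr.ne').const_mul _
  · exact (hasDerivAt_inv hpos.ne').const_mul _

theorem lap_logs {N : ℕ} (p : Fin N → Eu 2) (c : Fin N → ℝ) (W : Eu 2 → ℝ) {x : Eu 2}
    (hW : ContDiffAt ℝ 2 W x) (hx : ∀ k, x ≠ p k) :
    lap (fun y => ∑ k, c k * Real.log ‖y - p k‖ + W y) x = lap W x := by
  have h1 : ∀ k, ContDiffAt ℝ 2 (fun y : Eu 2 => c k * Real.log ‖y - p k‖) x := fun k =>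
    contDiffAt_const.mul (logn_smooth (p k) (hx k))
  have h2 : ContDiffAt ℝ 2 (fun y => ∑ k, c k * Real.log ‖y - p k‖) x :=
    ContDiffAt.sum fun k _ => h1 k
  rw [lap_add h2 hW, lap_sum _ _ _ (fun k _ => h1 k)]
  have h3 : ∀ k, lap (fun y : Eu 2 => c k * Real.log ‖y - p k‖) x = 0 := by
    intro k
    rw [lap_const_mul _ (logn_smooth (p k) (hx k)), lap_logn (p k) (hx k), mul_zero]
  simp [h3]

/-- scaled smooth part -/
noncomputable def Wc (c : ℝ) (v : Eu 2 → ℝ) (x : Eu 2) : ℝ :=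
  Wf v (c • x) + ∑ _k : Fin 101, 2 * 99 * Real.log c

/-- scaled solution -/
noncomputable def uc (c : ℝ) (v : Eu 2 → ℝ) (x : Eu 2) : ℝ :=
  ∑ k, 2 * 99 * Real.log ‖x - c⁻¹ • pt k‖ + Wc c v x

theorem contDiff_Wc {c : ℝ} {v : Eu 2 → ℝ} {n : WithTop ℕ∞} (hv : ContDiff ℝ n v) :
    ContDiff ℝ n (Wc c v) := by
  unfold Wc
  exact ((contDiff_Wf hv).comp (contDiff_const_smul c)).add contDiff_const

theorem uc_eq {c : ℝ} (hc : 0 < c) {v : Eu 2 → ℝ} {x : Eu 2} (hx : ∀ k, x ≠ c⁻¹ • pt k) :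
    uc c v x = uf v (c • x) := by
  have h1 : ∀ k, 2 * 99 * Real.log ‖c • x - pt k‖ =
      2 * 99 * Real.log c + 2 * 99 * Real.log ‖x - c⁻¹ • pt k‖ := by
    intro k
    have h2 : c • x - pt k = c • (x - c⁻¹ • pt k) := by
      rw [smul_sub, smul_smul, mul_inv_cancel₀ hc.ne', one_smul]
    have h3 : ‖x - c⁻¹ • pt k‖ ≠ 0 := norm_ne_zero_iff.2 (sub_ne_zero.2 (hx k))
    rw [h2, norm_smul, Real.norm_eq_abs, abs_of_pos hc, Real.log_mul hc.ne' h3]
    ring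
  rw [uc, uf, Wc]
  simp only [h1]
  rw [Finset.sum_add_distrib]
  ring

theorem off_iff {c : ℝ} (hc : 0 < c) {x : Eu 2} : (∀ k, x ≠ c⁻¹ • pt k) ↔ ∀ k, c • x ≠ pt k := by
  refine forall_congr' fun k => not_congr ?_
  constructor
  · rintro h
    rw [h, smul_smul, mul_inv_cancel₀ hc.ne', one_smul]
  · intro h
    rw [← h, smul_smul, inv_mul_cancel₀ hc.ne', one_smul]

theorem lap_Wf {v : Eu 2 → ℝ} (hv : ContDiff ℝ 2 v) (hveq : ∀ x, lap v x = bf x (v x))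
    {x : Eu 2} (hx : ∀ k, x ≠ pt k) :
    lap (Wf v) x = 10 ^ 8 * Real.exp (uf v x) * (Real.exp (uf v x) - 1) := by
  rw [← uf_pde hv hveq hx]
  exact (lap_logs pt (fun _ => 2 * 99) (Wf v) (contDiff_Wf hv).contDiffAt hx).symm

theorem lap_Wc {c : ℝ} (hc : 0 < c) {v : Eu 2 → ℝ} (hv : ContDiff ℝ 2 v)
    (hveq : ∀ x, lap v x = bf x (v x)) {x : Eu 2} (hx : ∀ k, x ≠ c⁻¹ • pt k) :
    lap (Wc c v) x = c ^ 2 * 10 ^ 8 * Real.exp (uc c v x) * (Real.exp (uc c v x) - 1) := by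
  have h1 : ContDiff ℝ 2 (fun y : Eu 2 => Wf v (c • y)) :=
    (contDiff_Wf hv).comp (contDiff_const_smul c)
  have h2 : lap (Wc c v) x = lap (fun y : Eu 2 => Wf v (c • y)) x +
      lap (fun _ : Eu 2 => ∑ _k : Fin 101, 2 * 99 * Real.log c) x :=
    lap_add h1.contDiffAt contDiffAt_const
  have h3 := lap_comp_affine (contDiff_Wf hv) (0 : Eu 2) x c
  simp only [zero_add] at h3
  rw [h2, lap_const, add_zero, h3, lap_Wf hv hveq ((off_iff hc).1 hx), uc_eq hc hx]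
  ring

theorem uc_pde {c : ℝ} (hc : 0 < c) {v : Eu 2 → ℝ} (hv : ContDiff ℝ 2 v)
    (hveq : ∀ x, lap v x = bf x (v x)) {x : Eu 2} (hx : ∀ k, x ≠ c⁻¹ • pt k) :
    lap (uc c v) x = c ^ 2 * 10 ^ 8 * Real.exp (uc c v x) * (Real.exp (uc c v x) - 1) := by
  rw [← lap_Wc hc hv hveq hx]
  exact lap_logs (fun k => c⁻¹ • pt k) (fun _ => 2 * 99) (Wc c v) (contDiff_Wc hv).contDiffAt hx

theorem uc_tendsto {c : ℝ} (hc : 0 < c) {v : Eu 2 → ℝ}
    (h : Tendsto (uf v) (cocompact (Eu 2)) (𝓝 0)) :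
    Tendsto (uc c v) (cocompact (Eu 2)) (𝓝 0) := by
  have h1 : Tendsto (fun x : Eu 2 => c • x) (cocompact (Eu 2)) (cocompact (Eu 2)) :=
    (Homeomorph.smulOfNeZero c hc.ne' : Eu 2 ≃ₜ Eu 2).isClosedEmbedding.tendsto_cocompact
  refine (h.comp h1).congr' ?_
  filter_upwards [h1.eventually far_event] with x hx
  have hx3 : ∀ k, c • x ≠ pt k := fun k h => by
    have := hx k
    rw [h, rk, sub_self, norm_zero] at this
    unfold b2 at this; norm_num at this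
  exact (uc_eq hc ((off_iff hc).2 hx3)).symm

end Pool.Agent.H314.CS
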