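import Pool.Agent.H314.CS.Defs
import Pool.Agent.H314.Dir.Lap

set_option autoImplicit false
open Filter Topology Set Metric

namespace Pool.Agent.H314.CS

open Pool.Agent.H314.Dir

theorem contDiff_rk {n : WithTop ℕ∞} (k : Fin 101) : ContDiff ℝ n (rk k) := by
  unfold rk
  exact (contDiff_id.sub contDiff_const).norm_sq ℝ

theorem rk_nonneg (k : Fin 101) (x : Eu 2) : 0 ≤ rk k x := sq_nonneg _

theorem mu_pos : 0 < mu := by
  unfold mu; norm_num

theorem rkmu_pos (k : Fin 101) (x : Eu 2) : 0 < rk k x + mu :=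
  add_pos_of_nonneg_of_pos (rk_nonneg k x) mu_pos

theorem lap_sum {ι : Type*} (s : Finset ι) (f : ι → Eu 2 → ℝ) (x : Eu 2)
    (h : ∀ i ∈ s, ContDiffAt ℝ 2 (f i) x) :
    lap (fun y => ∑ i ∈ s, f i y) x = ∑ i ∈ s, lap (f i) x := by
  classical
  induction s using Finset.induction_on with
  | empty => simpa using lap_const 0 x
  | insert a s ha ih =>
    have h1 : (fun y => ∑ i ∈ insert a s, f i y) = fun y => f a y + ∑ i ∈ s, f i y := by
      funext y; rw [Finset.sum_insert ha]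
    rw [h1, lap_add (h a (Finset.mem_insert_self _ _))
      (ContDiffAt.sum fun i hi => h i (Finset.mem_insert_of_mem hi)),
      ih fun i hi => h i (Finset.mem_insert_of_mem hi), Finset.sum_insert ha]

theorem contDiff_logmu {n : WithTop ℕ∞} (k : Fin 101) :
    ContDiff ℝ n (fun y : Eu 2 => Real.log (rk k y + mu)) :=
  ((contDiff_rk k).add contDiff_const).log fun x => (rkmu_pos k x).ne'

theorem lap_logmu (k : Fin 101) (x : Eu 2) :
    lap (fun y : Eu 2 => Real.log (rk k y + mu)) x = 4 * mu / (rk k x + mu) ^ 2 := by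
  have hpos : 0 < ‖x - pt k‖ ^ 2 + mu := rkmu_pos k x
  have h := lap_radial (d := 2) (g := fun r => Real.log (r + mu)) (g' := fun r => 1 / (r + mu))
    (g'' := fun r => -1 / (r + mu) ^ 2) (pt k) x ?_ ?_ (contDiff_logmu k).contDiffAt
  · unfold rk
    rw [h]
    set r := ‖x - pt k‖ ^ 2
    have := hpos.ne'
    field_simp
    push_cast
    ring
  · have hc : Tendsto (fun r : ℝ => r + mu) (𝓝 (‖x - pt k‖ ^ 2)) (𝓝 (‖x - pt k‖ ^ 2 + mu)) :=
      (continuous_id.add continuous_const).tendsto _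
    filter_upwards [hc.eventually (lt_mem_nhds hpos)] with r hr
    have h1 : HasDerivAt (fun r : ℝ => r + mu) 1 r := (hasDerivAt_id r).add_const mu
    exact h1.log hr.ne'
  · have h1 : HasDerivAt (fun r : ℝ => r + mu) 1 (‖x - pt k‖ ^ 2) := (hasDerivAt_id _).add_const mu
    have h2 := h1.inv hpos.ne'
    simp only [one_div]
    exact h2

theorem contDiffAt_log {n : WithTop ℕ∞} (k : Fin 101) {x : Eu 2} (hx : 0 < rk k x) :
    ContDiffAt ℝ n (fun y : Eu 2 => Real.log (rk k y)) x :=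
  (contDiff_rk k).contDiffAt.log hx.ne'

theorem lap_log (k : Fin 101) {x : Eu 2} (hx : 0 < rk k x) :
    lap (fun y : Eu 2 => Real.log (rk k y)) x = 0 := by
  have hpos : 0 < ‖x - pt k‖ ^ 2 := hx
  have h := lap_radial (d := 2) (g := fun r => Real.log r) (g' := fun r => r⁻¹)
    (g'' := fun r => -(r ^ 2)⁻¹) (pt k) x ?_ ?_ (contDiffAt_log k hx)
  · unfold rk
    rw [h]
    set r := ‖x - pt k‖ ^ 2
    have := hpos.ne'
    field_simp
    push_cast
    ring
  · filter_upwards [lt_mem_nhds hpos] with r hr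
    exact Real.hasDerivAt_log hr.ne'
  · exact hasDerivAt_inv hpos.ne'

theorem lp_pos {c : ℝ} (hc : 0 < c) (m : ℕ) {r : ℝ} (hr : 0 < r) : 0 < 1 + 4 * (c / r) ^ m := by
  positivity

theorem contDiffAt_lp {n : WithTop ℕ∞} (k : Fin 101) (c : ℝ) (hc : 0 < c) (m : ℕ) {x : Eu 2}
    (hx : 0 < rk k x) :
    ContDiffAt ℝ n (fun y : Eu 2 => Real.log (1 + 4 * (c / rk k y) ^ m)) x := by
  refine ContDiffAt.log ?_ (lp_pos hc m hx).ne'
  exact contDiffAt_const.add (contDiffAt_const.mul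
    ((contDiffAt_const.div (contDiff_rk k).contDiffAt hx.ne').pow m))

theorem hasDerivAt_phi (c : ℝ) (m : ℕ) {r : ℝ} (hr : 0 < r) :
    HasDerivAt (fun r : ℝ => 4 * (c / r) ^ m) (-(m : ℝ) * (4 * (c / r) ^ m) / r) r := by
  have h1 : HasDerivAt (fun r : ℝ => c / r) (c * (-(r ^ 2)⁻¹)) r := by
    simp only [div_eq_mul_inv]
    exact (hasDerivAt_inv hr.ne').const_mul c
  have h2 := (h1.pow m).const_mul 4
  refine h2.congr_deriv ?_
  rcases Nat.eq_zero_or_pos m with h0 | h0
  · subst h0; simp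
  · obtain ⟨j, rfl⟩ := Nat.exists_eq_succ_of_ne_zero h0.ne'
    rw [Nat.succ_sub_one, pow_succ (c / r) j]
    have := hr.ne'
    field_simp

theorem lap_lp (k : Fin 101) (c : ℝ) (hc : 0 < c) (m : ℕ) {x : Eu 2} (hx : 0 < rk k x) :
    lap (fun y : Eu 2 => Real.log (1 + 4 * (c / rk k y) ^ m)) x =
      4 * m ^ 2 / rk k x * (4 * (c / rk k x) ^ m / (1 + 4 * (c / rk k x) ^ m) ^ 2) := by
  have hpos : 0 < ‖x - pt k‖ ^ 2 := hx
  have h := lap_radial (d := 2) (g := fun r => Real.log (1 + 4 * (c / r) ^ m))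
    (g' := fun r => (-(m : ℝ) * (4 * (c / r) ^ m) / r) / (1 + 4 * (c / r) ^ m))
    (g'' := fun r => (m : ℝ) * (4 * (c / r) ^ m) * (m + 1 + 4 * (c / r) ^ m) /
      (r ^ 2 * (1 + 4 * (c / r) ^ m) ^ 2)) (pt k) x ?_ ?_ (contDiffAt_lp k c hc m hx)
  · unfold rk
    rw [h]
    have h1 := (lp_pos hc m hpos).ne'
    have h2 := hpos.ne'
    generalize ‖x - pt k‖ ^ 2 = r at *
    generalize (c / r) ^ m = φ at *
    field_simp
    push_cast
    ring
  · filter_upwards [lt_mem_nhds hpos] with r hr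
    exact ((hasDerivAt_phi c m hr).const_add 1).log (lp_pos hc m hr).ne'
  · generalize ‖x - pt k‖ ^ 2 = r at *
    have h1 := (lp_pos hc m hpos).ne'
    have h2 := hpos.ne'
    have hφ := hasDerivAt_phi c m hpos
    have h3 := ((hφ.const_mul (-(m : ℝ))).div (hasDerivAt_id r) h2).div (hφ.const_add 1) h1
    refine h3.congr_deriv ?_
    simp only [id, Pi.div_apply]
    generalize (c / r) ^ m = φ at *
    field_simp
    ring

theorem contDiff_Ef {n : WithTop ℕ∞} : ContDiff ℝ n Ef := by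
  unfold Ef
  exact contDiff_prod fun k _ => (contDiff_rk k).div ((contDiff_rk k).add contDiff_const)
    fun x => (rkmu_pos k x).ne'

theorem contDiff_qf {n : WithTop ℕ∞} : ContDiff ℝ n qf := by
  unfold qf
  exact ContDiff.sum fun k _ => contDiff_const.div (((contDiff_rk k).add contDiff_const).pow 2)
    fun x => pow_ne_zero _ (rkmu_pos k x).ne'

theorem Ef_nonneg (x : Eu 2) : 0 ≤ Ef x :=
  Finset.prod_nonneg fun k _ => div_nonneg (rk_nonneg k x) (rkmu_pos k x).le

theorem fac_lt_one (k : Fin 101) (x : Eu 2) : rk k x / (rk k x + mu) < 1 := by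
  rw [div_lt_one (rkmu_pos k x)]
  linarith [mu_pos]

theorem Ef_lt_one (x : Eu 2) : Ef x < 1 := by
  unfold Ef
  rw [← Finset.mul_prod_erase _ _ (Finset.mem_univ (0 : Fin 101))]
  have h1 : ∏ k ∈ Finset.univ.erase (0 : Fin 101), rk k x / (rk k x + mu) ≤ 1 :=
    Finset.prod_le_one (fun k _ => div_nonneg (rk_nonneg k x) (rkmu_pos k x).le)
      fun k _ => (fac_lt_one k x).le
  have h0 : 0 ≤ rk 0 x / (rk 0 x + mu) := div_nonneg (rk_nonneg 0 x) (rkmu_pos 0 x).le
  calc _ ≤ rk 0 x / (rk 0 x + mu) * 1 := mul_le_mul_of_nonneg_left h1 h0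
    _ < 1 := by rw [mul_one]; exact fac_lt_one 0 x

theorem Ef_pos_iff (x : Eu 2) : 0 < Ef x ↔ ∀ k, 0 < rk k x := by
  constructor
  · intro h k
    refine lt_of_le_of_ne (rk_nonneg k x) fun h0 => ?_
    have : Ef x = 0 := Finset.prod_eq_zero (Finset.mem_univ k) (by rw [← h0, zero_div])
    exact h.ne' this
  · intro h
    exact Finset.prod_pos fun k _ => div_pos (h k) (rkmu_pos k x)

theorem log_Ef {x : Eu 2} (hx : 0 < Ef x) :
    Real.log (Ef x) = ∑ k, (Real.log (rk k x) - Real.log (rk k x + mu)) := by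
  have hk := (Ef_pos_iff x).1 hx
  unfold Ef
  rw [Real.log_prod (fun k _ => (div_pos (hk k) (rkmu_pos k x)).ne')]
  exact Finset.sum_congr rfl fun k _ => Real.log_div (hk k).ne' (rkmu_pos k x).ne'

theorem lap_logE {x : Eu 2} (hx : 0 < Ef x) :
    ContDiffAt ℝ 2 (fun y : Eu 2 => 99 * Real.log (Ef y)) x ∧
      lap (fun y : Eu 2 => 99 * Real.log (Ef y)) x = - qf x := by
  refine ⟨contDiffAt_const.mul (contDiff_Ef.contDiffAt.log hx.ne'), ?_⟩
  have hk := (Ef_pos_iff x).1 hx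
  have hev : (fun y : Eu 2 => 99 * Real.log (Ef y)) =ᶠ[𝓝 x]
      fun y => 99 * ∑ k, (Real.log (rk k y) - Real.log (rk k y + mu)) := by
    have hc : ContinuousAt Ef x := (contDiff_Ef (n := 0)).continuous.continuousAt
    filter_upwards [hc.eventually (lt_mem_nhds hx)] with y hy
    rw [log_Ef hy]
  have hd : ∀ k ∈ (Finset.univ : Finset (Fin 101)),
      ContDiffAt ℝ 2 (fun y : Eu 2 => Real.log (rk k y) - Real.log (rk k y + mu)) x :=
    fun k _ => (contDiffAt_log k (hk k)).sub (contDiff_logmu k).contDiffAt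
  rw [lap_congr hev, lap_const_mul 99 (ContDiffAt.sum hd), lap_sum _ _ _ hd]
  unfold qf
  rw [← Finset.sum_neg_distrib, Finset.mul_sum]
  refine Finset.sum_congr rfl fun k _ => ?_
  rw [lap_sub (contDiffAt_log k (hk k)) (contDiff_logmu k).contDiffAt, lap_log k (hk k),
    lap_logmu]
  ring

theorem qf_bound (x : Eu 2) : 0 ≤ qf x ∧ qf x ≤ 101 * 396 / mu := by
  have hmu := mu_pos
  unfold qf
  constructor
  · exact Finset.sum_nonneg fun k _ => div_nonneg (by positivity) (by positivity)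
  · have h : ∀ k ∈ (Finset.univ : Finset (Fin 101)), 396 * mu / (rk k x + mu) ^ 2 ≤ 396 / mu := by
      intro k _
      have h1 := rkmu_pos k x
      have h2 := rk_nonneg k x
      rw [div_le_div_iff₀ (by positivity) hmu]
      have h3 : mu ^ 2 ≤ (rk k x + mu) ^ 2 := pow_le_pow_left₀ hmu.le (by linarith) 2
      nlinarith
    calc _ ≤ ∑ k : Fin 101, 396 / mu := Finset.sum_le_sum h
      _ = _ := by
        rw [Finset.sum_const, Finset.card_univ, Fintype.card_fin, nsmul_eq_mul]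
        push_cast
        ring

end Pool.Agent.H314.CS
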