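import Pool.Agent.H314.CS.Geo
import Pool.Agent.H314.CS.Nonl

set_option autoImplicit false
open Filter Topology Set Metric

namespace Pool.Agent.H314.CS

open Pool.Agent.H314.Dir

theorem fac_nonneg' (k : Fin 101) (x : Eu 2) : 0 ≤ rk k x / (rk k x + mu) :=
  div_nonneg (rk_nonneg k x) (rkmu_pos k x).le

theorem fac_ge' {k : Fin 101} {x : Eu 2} {r c : ℝ} (hr : r ≤ rk k x) (hc : mu ≤ c * r) (hc0 : 0 ≤ c) :
    1 - c ≤ rk k x / (rk k x + mu) := by
  have h1 := rkmu_pos k x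
  rw [le_div_iff₀ h1]
  have h2 : mu ≤ c * rk k x := hc.trans (mul_le_mul_of_nonneg_left hr hc0)
  have h3 := mul_nonneg hc0 mu_pos.le
  nlinarith

theorem Ef_small {x : Eu 2} (hx : Ef x ≤ 1 / 4) : ∃ j, rk j x < mu / 2 := by
  obtain ⟨j, hj⟩ := Finite.exists_min (fun k : Fin 101 => rk k x)
  refine ⟨j, ?_⟩
  have hP : (998 / 1000 : ℝ) ≤ ∏ k ∈ Finset.univ.erase j, rk k x / (rk k x + mu) := by
    have h1 : ∏ _k ∈ Finset.univ.erase j, (1 - 102 / 10 ^ 7 : ℝ) ≤
        ∏ k ∈ Finset.univ.erase j, rk k x / (rk k x + mu) := by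
      refine Finset.prod_le_prod (fun _ _ => by norm_num) fun k hk => ?_
      refine fac_ge' (far (Finset.ne_of_mem_erase hk).symm x (hj k)) ?_ (by norm_num)
      unfold mu; norm_num
    rw [Finset.prod_const, Finset.card_erase_of_mem (Finset.mem_univ j), Finset.card_univ,
      Fintype.card_fin] at h1
    have h2 := one_add_mul_le_pow (a := (-(102 / 10 ^ 7) : ℝ)) (by norm_num) (101 - 1)
    have h3 : (1 + -(102 / 10 ^ 7) : ℝ) = 1 - 102 / 10 ^ 7 := by ring
    rw [h3] at h2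
    refine le_trans ?_ (h2.trans h1)
    norm_num
  have hE : Ef x = rk j x / (rk j x + mu) * ∏ k ∈ Finset.univ.erase j, rk k x / (rk k x + mu) := by
    unfold Ef
    rw [← Finset.mul_prod_erase _ _ (Finset.mem_univ j)]
  have hf : rk j x / (rk j x + mu) < 1 / 3 := by
    by_contra h
    push Not at h
    have h4 := mul_le_mul h hP (by norm_num) (fac_nonneg' j x)
    rw [← hE] at h4
    norm_num at h4
    linarith
  rw [div_lt_iff₀ (rkmu_pos j x)] at hf
  linarith

theorem Ef_large {x : Eu 2} (hx : ∀ k, a1 ≤ rk k x) : 1 / 2 < Ef x := by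
  have h1 : ∏ _k : Fin 101, (1 - 15 / 10 ^ 6 : ℝ) ≤ Ef x := by
    unfold Ef
    refine Finset.prod_le_prod (fun _ _ => by norm_num) fun k _ => ?_
    refine fac_ge' (hx k) ?_ (by norm_num)
    unfold mu a1; norm_num
  rw [Finset.prod_const, Finset.card_univ, Fintype.card_fin] at h1
  have h2 := one_add_mul_le_pow (a := (-(15 / 10 ^ 6) : ℝ)) (by norm_num) 101
  have h3 : (1 + -(15 / 10 ^ 6) : ℝ) = 1 - 15 / 10 ^ 6 := by ring
  rw [h3] at h2
  refine lt_of_lt_of_le ?_ (h2.trans h1)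
  norm_num

theorem logE_sub {x : Eu 2} (hx : 0 < Ef x) :
    SubPc bf (fun y => 99 * Real.log (Ef y)) x := by
  obtain ⟨h1, h2⟩ := lap_logE hx
  refine ⟨h1, ?_⟩
  rw [h2]
  have h3 : Real.exp (-(99 * Real.log (Ef x))) = ((Ef x) ^ 99)⁻¹ := by
    rw [Real.exp_neg]
    congr 1
    have h4 := Real.exp_nat_mul (Real.log (Ef x)) 99
    rw [Real.exp_log hx] at h4
    rw [← h4]
    norm_num
  have h5 : (Ef x) ^ 99 * Real.exp (-(99 * Real.log (Ef x))) = 1 := by
    rw [h3]
    exact mul_inv_cancel₀ (pow_ne_zero _ hx.ne')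
  show bf x (99 * Real.log (Ef x)) ≤ - qf x
  unfold bf
  rw [h5]
  norm_num

theorem const_sub {x : Eu 2} (hx : Ef x ≤ 1 / 4) :
    SubPc bf (fun _ => 99 * Real.log (1 / 4)) x := by
  refine ⟨contDiffAt_const, ?_⟩
  rw [lap_const]
  obtain ⟨j, hj⟩ := Ef_small hx
  have hmu := mu_pos
  have hq : 396 * mu / (rk j x + mu) ^ 2 ≤ qf x := by
    unfold qf
    exact Finset.single_le_sum (f := fun k => 396 * mu / (rk k x + mu) ^ 2)
      (fun k _ => div_nonneg (by positivity) (sq_nonneg _)) (Finset.mem_univ j)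
  have h1 : (176 : ℝ) / mu ≤ 396 * mu / (rk j x + mu) ^ 2 := by
    have h2 := rkmu_pos j x
    rw [div_le_div_iff₀ hmu (by positivity)]
    have h3 : (rk j x + mu) ^ 2 ≤ (3 / 2 * mu) ^ 2 := pow_le_pow_left₀ h2.le (by linarith) 2
    nlinarith
  have h4 : (176 : ℝ) / mu = 176 * 10 ^ 8 := by unfold mu; norm_num
  show bf x (99 * Real.log (1 / 4)) ≤ 0
  unfold bf
  generalize (Ef x) ^ 99 * Real.exp (-(99 * Real.log (1 / 4))) = w
  rw [h4] at h1
  nlinarith [sq_nonneg (w - 1 / 2)]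

theorem LA_two (x : Eu 2) : ∃ f g : Eu 2 → ℝ, SubPc bf f x ∧ SubPc bf g x ∧
    ∀ᶠ y in 𝓝 x, LA y = max (f y) (g y) := by
  have hc : ContinuousAt Ef x := (contDiff_Ef (n := 0)).continuous.continuousAt
  rcases lt_trichotomy (Ef x) (1 / 4) with h | h | h
  · refine ⟨_, _, const_sub h.le, const_sub h.le, ?_⟩
    filter_upwards [hc.eventually (gt_mem_nhds h)] with y hy
    unfold LA
    rw [max_eq_right hy.le, max_self]
  · have hpos : 0 < Ef x := by rw [h]; norm_num
    refine ⟨_, _, logE_sub hpos, const_sub h.le, ?_⟩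
    filter_upwards [hc.eventually (lt_mem_nhds hpos)] with y hy
    unfold LA
    rcases le_total (Ef y) (1 / 4) with h2 | h2
    · rw [max_eq_right h2, max_eq_right]
      exact mul_le_mul_of_nonneg_left (Real.log_le_log hy h2) (by norm_num)
    · rw [max_eq_left h2, max_eq_left]
      exact mul_le_mul_of_nonneg_left (Real.log_le_log (by norm_num) h2) (by norm_num)
  · have hpos : 0 < Ef x := lt_trans (by norm_num) h
    refine ⟨_, _, logE_sub hpos, logE_sub hpos, ?_⟩
    filter_upwards [hc.eventually (lt_mem_nhds h)] with y hy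
    unfold LA
    rw [max_eq_left hy.le, max_self]

theorem LA_sub (x : Eu 2) : LocSub bf LA x := by
  obtain ⟨f, g, hf, hg, h⟩ := LA_two x
  refine ⟨f, g, g, hf, hg, hg, ?_⟩
  filter_upwards [h] with y hy
  rw [hy, max_self]

theorem LA_lower (x : Eu 2) : -138 ≤ LA x := by
  unfold LA
  have h1 : Real.log (1 / 4) ≤ Real.log (max (Ef x) (1 / 4)) :=
    Real.log_le_log (by norm_num) (le_max_right _ _)
  have h2 : Real.log (1 / 4 : ℝ) = -(2 * Real.log 2) := by
    have : (1 / 4 : ℝ) = (2 ^ 2)⁻¹ := by norm_num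
    rw [this, Real.log_inv, Real.log_pow]
    norm_num
  have h3 := Real.log_two_lt_d9
  rw [h2] at h1
  linarith

theorem LA_nonpos (x : Eu 2) : LA x ≤ 0 := by
  unfold LA
  have h1 : max (Ef x) (1 / 4) ≤ 1 := max_le (Ef_lt_one x).le (by norm_num)
  have h2 : 0 ≤ max (Ef x) (1 / 4) := le_trans (by norm_num) (le_max_right _ _)
  have := Real.log_nonpos h2 h1
  linarith

theorem logE_le_LA {x : Eu 2} (hx : 0 < Ef x) : 99 * Real.log (Ef x) ≤ LA x := by
  unfold LA
  have := Real.log_le_log hx (le_max_left (Ef x) (1 / 4))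
  linarith

end Pool.Agent.H314.CS
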